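import Pool.Agent.H923R2.FZ.Stubs2

/-! ZERO: no copies of `Z` -/

set_option autoImplicit false

noncomputable section

namespace Pool.Agent.H923R2.FZ.T_ZERO

open Pool.Agent.H923R2.FP Pool.Agent.H923R2.FZ

theorem t_ZERO : S_ZERO := by
  intro Z _ t B _ τ e f h
  refine ⟨h.fts, h.trf, ?_, ?_⟩
  · intro w hw h1 h2
    have h3 := h.free (w.map fun z => (Sum.inr z.1, z.2)) (by simpa using hw) ?_ ?_
    · have e : ((w.map fun z => ((Sum.inr z.1 : Fin 0 ⊕ ℕ), z.2)).map Prod.snd) =
          w.map Prod.snd := by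
        rw [List.map_map]; rfl
      rwa [e] at h3
    · intro z hz
      rw [List.mem_map] at hz
      obtain ⟨y, hy, rfl⟩ := hz
      exact h1 y hy
    · rw [List.isChain_map]
      refine h2.imp fun a b hab h4 => hab ?_
      exact Sum.inr_injective h4
  · have h3 := h.gen
    have e : ((⋃ j : Fin 0, Set.range (e j)) ∪ ⋃ n, Set.range (f n)) = ⋃ n, Set.range (f n) := by
      simp
    rwa [e] at h3

end Pool.Agent.H923R2.FZ.T_ZERO
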