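import Mathlib

set_option autoImplicit false

namespace Pool.Agent.H672R2.Lookahead

/-- Sign of a natural number: `1` if odd, `-1` if even. -/
def sg (a : ℕ) : ℝ := if a % 2 = 1 then 1 else -1

theorem sg_abs (a : ℕ) : |sg a| = 1 := by
  unfold sg; split_ifs <;> simp

theorem sg_add (a b : ℕ) : sg (a + b) = - sg a * sg b := by
  unfold sg
  rcases Nat.mod_two_eq_zero_or_one a with ha | ha <;>
  rcases Nat.mod_two_eq_zero_or_one b with hb | hb <;>
  simp [Nat.add_mod, ha, hb]

theorem sg_succ (a : ℕ) : sg (a + 1) = - sg a := by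
  rw [sg_add]; simp [sg]

/-- An alternating sum of a monotone function with values in `[0,1]`. -/
theorem alt_sum (L : ℕ) (f : ℕ → ℝ) (hf : ∀ i j, i ≤ j → j < 2 * L → f i ≤ f j)
    (h0 : ∀ i, i < 2 * L → 0 ≤ f i) (h1 : ∀ i, i < 2 * L → f i ≤ 1) :
    0 ≤ ∑ i ∈ Finset.range (2 * L), sg i * f i ∧ ∑ i ∈ Finset.range (2 * L), sg i * f i ≤ 1 := by
  -- strengthened by induction
  have key : ∀ l, l ≤ L → 0 ≤ ∑ i ∈ Finset.range (2 * l), sg i * f i ∧
      (0 < l → ∑ i ∈ Finset.range (2 * l), sg i * f i ≤ f (2 * l - 1)) := by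
    intro l
    induction l with
    | zero => intro _; simp
    | succ l ih =>
      intro hl
      obtain ⟨ih1, ih2⟩ := ih (by omega)
      have e : 2 * (l + 1) = 2 * l + 1 + 1 := by ring
      rw [e, Finset.sum_range_succ, Finset.sum_range_succ]
      have s1 : sg (2 * l) = -1 := by unfold sg; simp
      have s2 : sg (2 * l + 1) = 1 := by rw [sg_succ, s1]; norm_num
      rw [s1, s2]
      have h2 := hf (2 * l) (2 * l + 1) (by omega) (by omega)
      have h3 := h0 (2 * l) (by omega)
      refine ⟨by linarith, fun _ => ?_⟩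
      have e2 : 2 * l + 1 + 1 - 1 = 2 * l + 1 := by omega
      rw [e2]
      rcases Nat.eq_zero_or_pos l with hl0 | hl0
      · subst hl0; simp at h3 ⊢; linarith
      · have h4 := ih2 hl0
        have h5 := hf (2 * l - 1) (2 * l) (by omega) (by omega)
        linarith
  obtain ⟨k1, k2⟩ := key L le_rfl
  refine ⟨k1, ?_⟩
  rcases Nat.eq_zero_or_pos L with hL | hL
  · subst hL; simp
  · exact le_trans (k2 hL) (h1 _ (by omega))

/-- Resampling one coordinate. -/
theorem resample {ι β : Type} [Fintype ι] [DecidableEq ι] [Fintype β] (t : ι)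
    (F : (ι → β) → ℝ) :
    ∑ σ : ι → β, ∑ x : β, F (Function.update σ t x) = Fintype.card β * ∑ σ : ι → β, F σ := by
  rw [← Fintype.sum_prod_type' (f := fun (σ : ι → β) (x : β) => F (Function.update σ t x))]
  have h := Equiv.sum_comp (Function.Involutive.toPerm
    (fun q : (ι → β) × β => (Function.update q.1 t q.2, q.1 t)) (by
      intro q
      ext1
      · funext k
        by_cases hk : k = t
        · subst hk; simp
        · simp [hk]
      · simp)) (fun q : (ι → β) × β => F q.1)
  have h2 : ∑ q : (ι → β) × β, F (Function.update q.1 t q.2) = ∑ q : (ι → β) × β, F q.1 := by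
    rw [← h]
    rfl
  rw [h2, Fintype.sum_prod_type]
  simp [Finset.mul_sum]

variable {m L : ℕ}

/-- The sum of the levels. -/
def tot (d : Fin m → Fin (2 * L)) : ℕ := ∑ j, (d j : ℕ)

theorem tot_update (d : Fin m → Fin (2 * L)) (j : Fin m) (b : Fin (2 * L)) :
    tot (Function.update d j b) = (b : ℕ) + ∑ i ∈ Finset.univ.erase j, (d i : ℕ) := by
  unfold tot
  rw [← Finset.add_sum_erase _ _ (Finset.mem_univ j), Function.update_self]
  congr 1
  refine Finset.sum_congr rfl fun i hi => ?_
  rw [Function.update_of_ne (Finset.ne_of_mem_erase hi)]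

/-- A function that is monotone in coordinate `j` correlates little with the parity. -/
theorem corr_le (j : Fin m) (x : (Fin m → Fin (2 * L)) → ℝ)
    (h0 : ∀ d, 0 ≤ x d) (h1 : ∀ d, x d ≤ 1)
    (hmono : ∀ d (b c : Fin (2 * L)), b ≤ c →
      x (Function.update d j b) ≤ x (Function.update d j c)) :
    ((2 * L : ℕ) : ℝ) * ∑ d, sg (tot d) * x d ≤ ((2 * L : ℕ) : ℝ) ^ m := by
  have h := resample j (fun d : Fin m → Fin (2 * L) => sg (tot d) * x d)
  rw [Fintype.card_fin] at h
  rw [← h]
  have hle : ∀ d : Fin m → Fin (2 * L),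
      ∑ b : Fin (2 * L), sg (tot (Function.update d j b)) * x (Function.update d j b) ≤ 1 := by
    intro d
    set r := ∑ i ∈ Finset.univ.erase j, (d i : ℕ) with hr
    have e1 : ∑ b : Fin (2 * L), sg (tot (Function.update d j b)) * x (Function.update d j b) =
        - sg r * ∑ b : Fin (2 * L), sg b * x (Function.update d j b) := by
      rw [Finset.mul_sum]
      refine Finset.sum_congr rfl fun b _ => ?_
      rw [tot_update, sg_add]
      ring
    rw [e1]
    -- transfer to a sum over a range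
    let f : ℕ → ℝ := fun i => if hi : i < 2 * L then x (Function.update d j ⟨i, hi⟩) else 0
    have e2 : ∑ b : Fin (2 * L), sg b * x (Function.update d j b) =
        ∑ i ∈ Finset.range (2 * L), sg i * f i := by
      rw [Finset.sum_range]
      refine Finset.sum_congr rfl fun b _ => ?_
      simp only [f, b.2, dif_pos]
    have h3 := alt_sum L f (by
        intro i k hik hk
        have hi : i < 2 * L := by omega
        simp only [f, hi, hk, dif_pos]
        exact hmono d _ _ (by simpa using hik))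
      (by intro i hi; simp only [f, hi, dif_pos]; exact h0 _)
      (by intro i hi; simp only [f, hi, dif_pos]; exact h1 _)
    rw [← e2] at h3
    have h4 : |- sg r| = 1 := by rw [abs_neg, sg_abs]
    rcases abs_eq (zero_le_one' ℝ) |>.mp h4 with h5 | h5
    · rw [h5]; linarith [h3.2]
    · rw [h5]; linarith [h3.1]
  calc ∑ d : Fin m → Fin (2 * L), ∑ b : Fin (2 * L),
        sg (tot (Function.update d j b)) * x (Function.update d j b)
      ≤ ∑ _d : Fin m → Fin (2 * L), (1 : ℝ) := Finset.sum_le_sum fun d _ => hle d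
    _ = ((2 * L : ℕ) : ℝ) ^ m := by simp

/-- The total sign vanishes. -/
theorem sum_sg (hm : 0 < m) : ∑ d : Fin m → Fin (2 * L), sg (tot d) = 0 := by
  rcases Nat.eq_zero_or_pos L with hL | hL
  · subst hL
    have : IsEmpty (Fin m → Fin (2 * 0)) := ⟨fun d => (d ⟨0, hm⟩).elim0⟩
    simp
  have h := resample (⟨0, hm⟩ : Fin m) (fun d : Fin m → Fin (2 * L) => sg (tot d))
  rw [Fintype.card_fin] at h
  have hle : ∀ d : Fin m → Fin (2 * L),
      ∑ b : Fin (2 * L), sg (tot (Function.update d ⟨0, hm⟩ b)) = 0 := by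
    intro d
    have e1 : ∑ b : Fin (2 * L), sg (tot (Function.update d ⟨0, hm⟩ b)) =
        - sg (∑ i ∈ Finset.univ.erase ⟨0, hm⟩, (d i : ℕ)) * ∑ b : Fin (2 * L), sg b := by
      rw [Finset.mul_sum]
      refine Finset.sum_congr rfl fun b _ => ?_
      rw [tot_update, sg_add]
      ring
    rw [e1]
    have e2 : ∑ b : Fin (2 * L), sg b = ∑ i ∈ Finset.range (2 * L), sg i := by
      rw [Finset.sum_range]
    rw [e2]
    have e3 : ∀ l : ℕ, ∑ i ∈ Finset.range (2 * l), sg i = 0 := by
      intro l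
      induction l with
      | zero => simp
      | succ l ih =>
        have e : 2 * (l + 1) = 2 * l + 1 + 1 := by ring
        rw [e, Finset.sum_range_succ, Finset.sum_range_succ, ih, sg_succ]
        ring
    rw [e3, mul_zero]
  rw [Finset.sum_eq_zero fun d _ => hle d] at h
  have hpos : ((2 * L : ℕ) : ℝ) ≠ 0 := by
    have : 0 < 2 * L := by omega
    exact_mod_cast this.ne'
  rcases mul_eq_zero.mp h.symm with h1 | h1
  · exact absurd h1 hpos
  · exact h1

/-- The main inequality. Here `c = 0, 1, 2` are the three values of the informed bidder. -/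
theorem core (hm : 0 < m) (hL : 0 < L) (e : ℝ) (he : 0 ≤ e)
    (x0 p0 : ℕ → (Fin m → Fin (2 * L)) → ℝ) (x p : Fin m → ℕ → (Fin m → Fin (2 * L)) → ℝ)
    (hx0 : ∀ c d, tot d % 2 ≤ c → c ≤ tot d % 2 + 1 → 0 ≤ x0 c d)
    (hx : ∀ j c d, tot d % 2 ≤ c → c ≤ tot d % 2 + 1 → 0 ≤ x j c d)
    (hsum : ∀ c d, tot d % 2 ≤ c → c ≤ tot d % 2 + 1 → x0 c d + ∑ j, x j c d ≤ 1)
    (hmono : ∀ j d (b c : Fin (2 * L)), b ≤ c →
      x j 1 (Function.update d j b) ≤ x j 1 (Function.update d j c))
    (hp : ∀ j c d, tot d % 2 ≤ c → c ≤ tot d % 2 + 1 → p j c d ≤ (1 + e) * x j c d)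
    (hp0a : ∀ d, tot d % 2 = 0 → p0 0 d ≤ (1 + e) * x0 0 d)
    (hp0b : ∀ d, tot d % 2 = 0 → p0 1 d ≤ 2 * x0 1 d - 2 * x0 0 d + p0 0 d)
    (hp1a : ∀ d, tot d % 2 = 1 → p0 1 d ≤ 2 * x0 1 d)
    (hp1b : ∀ d, tot d % 2 = 1 → p0 2 d ≤ 4 * x0 2 d - 4 * x0 1 d + p0 1 d) :
    ∑ d : Fin m → Fin (2 * L), ((p0 (tot d % 2) d + ∑ j, p j (tot d % 2) d) +
      (p0 (tot d % 2 + 1) d + ∑ j, p j (tot d % 2 + 1) d)) ≤
    ((2 * L : ℕ) : ℝ) ^ m * (7 / 2 + 4 * e + m / ((2 * L : ℕ) : ℝ)) := by
  set N : ℝ := ((2 * L : ℕ) : ℝ) with hN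
  have hNpos : 0 < N := by
    rw [hN]
    have : 0 < 2 * L := by omega
    exact_mod_cast this
  have hX : ∀ c d, tot d % 2 ≤ c → c ≤ tot d % 2 + 1 → 0 ≤ ∑ j, x j c d := fun c d h1 h2 =>
    Finset.sum_nonneg fun j _ => hx j c d h1 h2
  have hP : ∀ c d, tot d % 2 ≤ c → c ≤ tot d % 2 + 1 →
      ∑ j, p j c d ≤ (1 + e) * ∑ j, x j c d := by
    intro c d h1 h2
    rw [Finset.mul_sum]
    exact Finset.sum_le_sum fun j _ => hp j c d h1 h2
  have hpt : ∀ d : Fin m → Fin (2 * L), (p0 (tot d % 2) d + ∑ j, p j (tot d % 2) d) +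
      (p0 (tot d % 2 + 1) d + ∑ j, p j (tot d % 2 + 1) d) ≤
      (7 / 2 + 4 * e) + sg (tot d) * (1 / 2) + sg (tot d) * ∑ j, x j 1 d := by
    intro d
    rcases Nat.mod_two_eq_zero_or_one (tot d) with h | h
    · rw [h]
      have s : sg (tot d) = -1 := by unfold sg; simp [h]
      rw [s]
      have a0 := hX 0 d (by omega) (by omega)
      have a1 := hX 1 d (by omega) (by omega)
      have b0 := hP 0 d (by omega) (by omega)
      have b1 := hP 1 d (by omega) (by omega)
      have c0 := hsum 0 d (by omega) (by omega)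
      have c1 := hsum 1 d (by omega) (by omega)
      have d0 := hx0 0 d (by omega) (by omega)
      have d1 := hx0 1 d (by omega) (by omega)
      have e0 := hp0a d h
      have e1 := hp0b d h
      have f0 : e * x0 0 d ≤ e := by nlinarith
      have f1 : e * ∑ j, x j 0 d ≤ e := by nlinarith
      have f2 : e * ∑ j, x j 1 d ≤ e := by nlinarith
      simp only [zero_add]
      nlinarith
    · rw [h]
      have s : sg (tot d) = 1 := by unfold sg; simp [h]
      rw [s]
      have a1 := hX 1 d (by omega) (by omega)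
      have a2 := hX 2 d (by omega) (by omega)
      have b1 := hP 1 d (by omega) (by omega)
      have b2 := hP 2 d (by omega) (by omega)
      have c1 := hsum 1 d (by omega) (by omega)
      have c2 := hsum 2 d (by omega) (by omega)
      have d1 := hx0 1 d (by omega) (by omega)
      have d2 := hx0 2 d (by omega) (by omega)
      have e0 := hp1a d h
      have e1 := hp1b d h
      have f1 : e * ∑ j, x j 1 d ≤ e := by nlinarith
      have f2 : e * ∑ j, x j 2 d ≤ e := by nlinarith
      have g : (1 : ℕ) + 1 = 2 := rfl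
      rw [g]
      nlinarith
  have hcard : ∑ _d : Fin m → Fin (2 * L), (1 : ℝ) = N ^ m := by simp [hN]
  have hcorr : ∑ d : Fin m → Fin (2 * L), sg (tot d) * ∑ j, x j 1 d ≤ N ^ m * (m / N) := by
    have e1 : ∑ d : Fin m → Fin (2 * L), sg (tot d) * ∑ j, x j 1 d =
        ∑ j, ∑ d : Fin m → Fin (2 * L), sg (tot d) * x j 1 d := by
      rw [Finset.sum_comm]
      refine Finset.sum_congr rfl fun d _ => ?_
      rw [Finset.mul_sum]
    rw [e1]
    have e2 : ∀ j : Fin m, ∑ d : Fin m → Fin (2 * L), sg (tot d) * x j 1 d ≤ N ^ m / N := by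
      intro j
      have h := corr_le j (fun d => x j 1 d) (fun d => hx j 1 d (by omega) (by omega))
        (fun d => by
          have c1 := hsum 1 d (by omega) (by omega)
          have c2 := hx0 1 d (by omega) (by omega)
          have c3 : x j 1 d ≤ ∑ i, x i 1 d :=
            Finset.single_le_sum (f := fun i => x i 1 d)
              (fun i _ => hx i 1 d (by omega) (by omega)) (Finset.mem_univ j)
          linarith)
        (hmono j)
      rw [le_div_iff₀ hNpos]
      rw [mul_comm]
      exact h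
    calc ∑ j, ∑ d : Fin m → Fin (2 * L), sg (tot d) * x j 1 d
        ≤ ∑ _j : Fin m, N ^ m / N := Finset.sum_le_sum fun j _ => e2 j
      _ = N ^ m * (m / N) := by
          rw [Finset.sum_const, Finset.card_univ, Fintype.card_fin, nsmul_eq_mul]; ring
  calc _ ≤ ∑ d : Fin m → Fin (2 * L), ((7 / 2 + 4 * e) + sg (tot d) * (1 / 2) +
        sg (tot d) * ∑ j, x j 1 d) := Finset.sum_le_sum fun d _ => hpt d
    _ = N ^ m * (7 / 2 + 4 * e) + (∑ d : Fin m → Fin (2 * L), sg (tot d)) * (1 / 2) +
        ∑ d : Fin m → Fin (2 * L), sg (tot d) * ∑ j, x j 1 d := by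
        rw [Finset.sum_add_distrib, Finset.sum_add_distrib, ← Finset.sum_mul, ← hcard,
          Finset.sum_mul]
        simp
        ring
    _ ≤ N ^ m * (7 / 2 + 4 * e) + 0 * (1 / 2) + N ^ m * (m / N) := by
        rw [sum_sg hm]
        linarith
    _ = N ^ m * (7 / 2 + 4 * e + m / N) := by ring

end Pool.Agent.H672R2.Lookahead
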