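import Mathlib

set_option autoImplicit false

namespace Pool.Agent.H672R2.Lookahead

open Classical

/-- `μ` (given by its weights) is a finitely supported probability distribution of valuation
vectors with strictly positive entries. -/
structure IsDist {ι : Type} (μ : (ι → ℝ) →₀ ℝ) : Prop where
  nonneg : ∀ v, 0 ≤ μ v
  total : (μ.sum fun _ p => p) = 1
  pos : ∀ v ∈ μ.support, ∀ i, 0 < v i

/-- A single-item direct mechanism for the bidders `ι`: to every bid vector it assigns the
allocation probabilities and the expected payments. -/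
structure Mechanism (ι : Type) where
  /-- allocation probabilities -/
  alloc : (ι → ℝ) → ι → ℝ
  /-- expected payments -/
  pay : (ι → ℝ) → ι → ℝ

/-- The expected utility of bidder `i` with value `t` when the bid vector is `b`. -/
def Mechanism.utility {ι : Type} (M : Mechanism ι) (t : ℝ) (b : ι → ℝ) (i : ι) : ℝ :=
  M.alloc b i * t - M.pay b i

/-- `M` is a mechanism on the set `T` of possible valuation vectors: it sells at most one item, it is
truthful in expectation (no bidder gains by a misreport, the bids of the others being fixed), and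
it is individually rational. -/
structure Mechanism.ValidOn {ι : Type} [Fintype ι] [DecidableEq ι] (M : Mechanism ι)
    (T : Set (ι → ℝ)) : Prop where
  alloc_nonneg : ∀ v ∈ T, ∀ i, 0 ≤ M.alloc v i
  alloc_le : ∀ v ∈ T, ∑ i, M.alloc v i ≤ 1
  truthful : ∀ v ∈ T, ∀ i, ∀ b : ℝ, Function.update v i b ∈ T →
    M.utility (v i) (Function.update v i b) i ≤ M.utility (v i) v i
  rational : ∀ v ∈ T, ∀ i, 0 ≤ M.utility (v i) v i

/-- The possible valuation vectors. In the first reading (`true`) these are all the vectors with
positive entries; in the second (`false`) they are only the vectors in the support. -/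
def typeSpace {ι : Type} (full : Bool) (μ : (ι → ℝ) →₀ ℝ) : Set (ι → ℝ) :=
  if full = true then {v | ∀ i, 0 < v i} else {v | v ∈ μ.support}

/-- Expected revenue of `M` under `μ`. -/
noncomputable def revenue {ι : Type} [Fintype ι] (μ : (ι → ℝ) →₀ ℝ) (M : Mechanism ι) : ℝ :=
  μ.sum fun v p => p * ∑ i, M.pay v i

/-- The largest expected revenue of a truthful-in-expectation, individually rational mechanism. -/
noncomputable def OPT {ι : Type} [Fintype ι] [DecidableEq ι] (full : Bool) (μ : (ι → ℝ) →₀ ℝ) : ℝ :=
  sSup {r | ∃ M : Mechanism ι, M.ValidOn (typeSpace full μ) ∧ revenue μ M = r}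

/-- The set of the `k` highest bidders, ties broken by index: bidder `i` belongs to it when fewer
than `k` bidders are ranked before `i`. -/
noncomputable def top {n : ℕ} (k : ℕ) (v : Fin n → ℝ) : Finset (Fin n) :=
  Finset.univ.filter fun i =>
    (Finset.univ.filter fun j => v i < v j ∨ (v j = v i ∧ j < i)).card < k

/-- The distribution `D_K`: the conditional distribution of the values of the bidders in `K`, given
that the bidders outside `K` have the values `w` and that every value in `K` is at least every
value outside `K`. (It is `0` if the condition has probability zero.) -/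
noncomputable def condDist {n : ℕ} (D : (Fin n → ℝ) →₀ ℝ) (K : Finset (Fin n))
    (w : {j : Fin n // j ∉ K} → ℝ) : ({i : Fin n // i ∈ K} → ℝ) →₀ ℝ :=
  ((D.filter fun v => (∀ j : {j : Fin n // j ∉ K}, v j = w j) ∧
      ∀ i ∈ K, ∀ j ∉ K, v j ≤ v i).sum fun _ p => p)⁻¹ •
    (D.filter fun v => (∀ j : {j : Fin n // j ∉ K}, v j = w j) ∧
      ∀ i ∈ K, ∀ j ∉ K, v j ≤ v i).mapDomain fun v (i : {i : Fin n // i ∈ K}) => v i

/-- A choice of a revenue-maximizing mechanism for every conditional distribution `D_K`. -/
def IsLookahead {n : ℕ} (full : Bool) (D : (Fin n → ℝ) →₀ ℝ)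
    (A : ∀ K : Finset (Fin n), ({j : Fin n // j ∉ K} → ℝ) → Mechanism {i : Fin n // i ∈ K}) :
    Prop :=
  ∀ K w, (A K w).ValidOn (typeSpace full (condDist D K w)) ∧
    ∀ M : Mechanism {i : Fin n // i ∈ K}, M.ValidOn (typeSpace full (condDist D K w)) →
      revenue (condDist D K w) M ≤ revenue (condDist D K w) (A K w)

/-- The expected revenue under `D` of the `k`-lookahead mechanism that serves the `k` highest
bidders `K` by the mechanism `A K w`, where `w` are the values of the other bidders, and gives
nothing to (and charges nothing from) the other bidders. -/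
noncomputable def lookRevenue {n : ℕ} (k : ℕ) (D : (Fin n → ℝ) →₀ ℝ)
    (A : ∀ K : Finset (Fin n), ({j : Fin n // j ∉ K} → ℝ) → Mechanism {i : Fin n // i ∈ K}) : ℝ :=
  D.sum fun v p => p * ∑ i : {i : Fin n // i ∈ top k v},
    (A (top k v) fun j => v j).pay (fun i => v i) i

/-- The ratios `rev_k(D) / OPT(D)`, over all numbers `n` of bidders and all distributions `D` with
`OPT(D) > 0`. -/
def ratios (full : Bool) (k : ℕ) : Set ℝ :=
  {r | ∃ (n : ℕ) (D : (Fin n → ℝ) →₀ ℝ)
    (A : ∀ K : Finset (Fin n), ({j : Fin n // j ∉ K} → ℝ) → Mechanism {i : Fin n // i ∈ K}),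
    IsDist D ∧ 0 < OPT full D ∧ IsLookahead full D A ∧ r = lookRevenue k D A / OPT full D}

/-- The approximation ratio `ρ_k` of the `k`-lookahead mechanism. -/
noncomputable def rho (full : Bool) (k : ℕ) : ℝ := sInf (ratios full k)

end Pool.Agent.H672R2.Lookahead
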