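import Mathlib
import Pool.Agent.H672R2.LookaheadDefs

set_option autoImplicit false

namespace Pool.Agent.H672R2.Lookahead

open Classical

section General

variable {ι : Type} [Fintype ι] [DecidableEq ι]

theorem revenue_eq (μ : (ι → ℝ) →₀ ℝ) (M : Mechanism ι) :
    revenue μ M = ∑ v ∈ μ.support, μ v * ∑ i, M.pay v i := rfl

/-- Revenue is monotone in the payments on the support. -/
theorem revenue_le_of {μ : (ι → ℝ) →₀ ℝ} (hμ : ∀ v, 0 ≤ μ v) {M M' : Mechanism ι}
    (h : ∀ v ∈ μ.support, ∀ i, M.pay v i ≤ M'.pay v i) : revenue μ M ≤ revenue μ M' := by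
  rw [revenue_eq, revenue_eq]
  refine Finset.sum_le_sum fun v hv => ?_
  exact mul_le_mul_of_nonneg_left (Finset.sum_le_sum fun i _ => h v hv i) (hμ v)

theorem alloc_le_one {M : Mechanism ι} {T : Set (ι → ℝ)} (hM : M.ValidOn T) {v : ι → ℝ}
    (hv : v ∈ T) (i : ι) : M.alloc v i ≤ 1 := by
  refine le_trans ?_ (hM.alloc_le v hv)
  exact Finset.single_le_sum (f := fun i => M.alloc v i)
    (fun i _ => hM.alloc_nonneg v hv i) (Finset.mem_univ i)

/-- The zero mechanism. -/
def zeroMech (ι : Type) : Mechanism ι := ⟨fun _ _ => 0, fun _ _ => 0⟩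

theorem zeroMech_valid (T : Set (ι → ℝ)) : (zeroMech ι).ValidOn T where
  alloc_nonneg := fun _ _ _ => le_refl _
  alloc_le := fun _ _ => by simp [zeroMech]
  truthful := fun _ _ _ _ _ => by simp [zeroMech, Mechanism.utility]
  rational := fun _ _ _ => by simp [zeroMech, Mechanism.utility]

/-- Utility bounds minus a payment at another report of the same bidder. -/
theorem neg_pay_le_utility {M : Mechanism ι} {T : Set (ι → ℝ)} (hT : ∀ v ∈ T, ∀ i, 0 < v i)
    (hM : M.ValidOn T) {v : ι → ℝ} (hv : v ∈ T) (i : ι) (b : ℝ)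
    (hb : Function.update v i b ∈ T) :
    - M.pay (Function.update v i b) i ≤ M.utility (v i) v i := by
  have h1 := hM.truthful v hv i b hb
  have h2 := hM.alloc_nonneg _ hb i
  have h3 := hT v hv i
  have h4 : 0 ≤ M.alloc (Function.update v i b) i * v i := mul_nonneg h2 h3.le
  unfold Mechanism.utility at h1 ⊢
  linarith

/-- The surcharge on the line of bidder `i`. -/
noncomputable def extra (M : Mechanism ι) (T : Set (ι → ℝ)) (v : ι → ℝ) (i : ι) : ℝ :=
  sSup {r | r = 0 ∨ ∃ b : ℝ, Function.update v i b ∈ T ∧ r = - M.pay (Function.update v i b) i}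

theorem extra_le {M : Mechanism ι} {T : Set (ι → ℝ)} (hT : ∀ v ∈ T, ∀ i, 0 < v i)
    (hM : M.ValidOn T) {v : ι → ℝ} (hv : v ∈ T) (i : ι) :
    extra M T v i ≤ M.utility (v i) v i := by
  unfold extra
  refine csSup_le ⟨0, Or.inl rfl⟩ ?_
  rintro r (rfl | ⟨b, hb, rfl⟩)
  · exact hM.rational v hv i
  · exact neg_pay_le_utility hT hM hv i b hb

theorem extra_bdd {M : Mechanism ι} {T : Set (ι → ℝ)} (hT : ∀ v ∈ T, ∀ i, 0 < v i)
    (hM : M.ValidOn T) {v : ι → ℝ} (hv : v ∈ T) (i : ι) :
    BddAbove {r | r = 0 ∨ ∃ b : ℝ, Function.update v i b ∈ T ∧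
      r = - M.pay (Function.update v i b) i} := by
  refine ⟨M.utility (v i) v i, ?_⟩
  rintro r (rfl | ⟨b, hb, rfl⟩)
  · exact hM.rational v hv i
  · exact neg_pay_le_utility hT hM hv i b hb

theorem extra_nonneg {M : Mechanism ι} {T : Set (ι → ℝ)} (hT : ∀ v ∈ T, ∀ i, 0 < v i)
    (hM : M.ValidOn T) {v : ι → ℝ} (hv : v ∈ T) (i : ι) : 0 ≤ extra M T v i :=
  le_csSup (extra_bdd hT hM hv i) (Or.inl rfl)

theorem neg_pay_le_extra {M : Mechanism ι} {T : Set (ι → ℝ)} (hT : ∀ v ∈ T, ∀ i, 0 < v i)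
    (hM : M.ValidOn T) {v : ι → ℝ} (hv : v ∈ T) (i : ι) : - M.pay v i ≤ extra M T v i :=
  le_csSup (extra_bdd hT hM hv i) (Or.inr ⟨v i, by rw [Function.update_eq_self]; exact hv,
    by rw [Function.update_eq_self]⟩)

theorem extra_update (M : Mechanism ι) (T : Set (ι → ℝ)) (v : ι → ℝ) (i : ι) (b : ℝ) :
    extra M T (Function.update v i b) i = extra M T v i := by
  unfold extra
  simp only [Function.update_idem]

/-- Every mechanism is dominated by one with payments between `0` and the value. -/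
theorem exists_normalized {M : Mechanism ι} {T : Set (ι → ℝ)} (hT : ∀ v ∈ T, ∀ i, 0 < v i)
    (hM : M.ValidOn T) :
    ∃ M' : Mechanism ι, M'.ValidOn T ∧ (∀ v i, 0 ≤ M'.alloc v i ∧ M'.alloc v i ≤ 1) ∧
      (∀ v i, 0 ≤ M'.pay v i ∧ M'.pay v i ≤ |v i|) ∧
      ∀ v ∈ T, ∀ i, M.pay v i ≤ M'.pay v i := by
  refine ⟨⟨fun v i => if v ∈ T then M.alloc v i else 0,
    fun v i => if v ∈ T then M.pay v i + extra M T v i else 0⟩, ?_, ?_, ?_, ?_⟩
  · have hu : ∀ v ∈ T, ∀ i, ∀ t : ℝ, (⟨fun v i => if v ∈ T then M.alloc v i else 0,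
        fun v i => if v ∈ T then M.pay v i + extra M T v i else 0⟩ : Mechanism ι).utility t v i =
        M.utility t v i - extra M T v i := by
      intro v hv i t
      simp only [Mechanism.utility, if_pos hv]
      ring
    constructor
    · intro v hv i
      simp only [if_pos hv]
      exact hM.alloc_nonneg v hv i
    · intro v hv
      simp only [if_pos hv]
      exact hM.alloc_le v hv
    · intro v hv i b hb
      rw [hu v hv, hu _ hb, extra_update]
      have := hM.truthful v hv i b hb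
      linarith
    · intro v hv i
      rw [hu v hv]
      have := extra_le hT hM hv i
      linarith
  · intro v i
    by_cases hv : v ∈ T
    · simp only [if_pos hv]
      exact ⟨hM.alloc_nonneg v hv i, alloc_le_one hM hv i⟩
    · simp only [if_neg hv]
      norm_num
  · intro v i
    by_cases hv : v ∈ T
    · simp only [if_pos hv]
      have h1 := neg_pay_le_extra hT hM hv i
      have h2 := extra_le hT hM hv i
      have h3 := hT v hv i
      have h4 := alloc_le_one hM hv i
      refine ⟨by linarith, ?_⟩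
      rw [abs_of_pos h3]
      unfold Mechanism.utility at h2
      nlinarith
    · simp only [if_neg hv]
      exact ⟨le_refl _, abs_nonneg _⟩
  · intro v hv i
    simp only [if_pos hv]
    have := extra_nonneg hT hM hv i
    linarith

/-- A revenue-maximizing mechanism exists. -/
theorem exists_optimal {μ : (ι → ℝ) →₀ ℝ} {T : Set (ι → ℝ)} (hT : ∀ v ∈ T, ∀ i, 0 < v i)
    (hμ : ∀ v, 0 ≤ μ v) (hsupp : ∀ v ∈ μ.support, v ∈ T) :
    ∃ M : Mechanism ι, M.ValidOn T ∧
      ∀ M' : Mechanism ι, M'.ValidOn T → revenue μ M' ≤ revenue μ M := by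
  -- the space of pairs
  let F := (ι → ℝ) → ι → ℝ × ℝ
  let toM : F → Mechanism ι := fun f => ⟨fun v i => (f v i).1, fun v i => (f v i).2⟩
  let C : Set F := Set.univ.pi fun v => Set.univ.pi fun i => Set.Icc 0 1 ×ˢ Set.Icc 0 |v i|
  have hC : IsCompact C :=
    isCompact_univ_pi fun v => isCompact_univ_pi fun i => isCompact_Icc.prod isCompact_Icc
  have hev : ∀ (v : ι → ℝ) (i : ι), Continuous fun f : F => f v i := fun v i =>
    (continuous_apply i).comp (continuous_apply v)
  have hev1 : ∀ (v : ι → ℝ) (i : ι), Continuous fun f : F => (f v i).1 := fun v i =>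
    continuous_fst.comp (hev v i)
  have hev2 : ∀ (v : ι → ℝ) (i : ι), Continuous fun f : F => (f v i).2 := fun v i =>
    continuous_snd.comp (hev v i)
  have hclosed : IsClosed {f : F | (toM f).ValidOn T} := by
    have heq : {f : F | (toM f).ValidOn T} =
        (⋂ v ∈ T, ⋂ i, {f : F | 0 ≤ (f v i).1}) ∩
        (⋂ v ∈ T, {f : F | ∑ i, (f v i).1 ≤ 1}) ∩
        (⋂ v ∈ T, ⋂ i, ⋂ b : ℝ, ⋂ (_ : Function.update v i b ∈ T),
          {f : F | (f (Function.update v i b) i).1 * v i - (f (Function.update v i b) i).2 ≤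
            (f v i).1 * v i - (f v i).2}) ∩
        (⋂ v ∈ T, ⋂ i, {f : F | 0 ≤ (f v i).1 * v i - (f v i).2}) := by
      ext f
      simp only [Set.mem_inter_iff, Set.mem_iInter, Set.mem_setOf_eq]
      constructor
      · intro h
        exact ⟨⟨⟨fun v hv i => h.alloc_nonneg v hv i, fun v hv => h.alloc_le v hv⟩,
          fun v hv i b hb => h.truthful v hv i b hb⟩, fun v hv i => h.rational v hv i⟩
      · rintro ⟨⟨⟨h1, h2⟩, h3⟩, h4⟩
        exact ⟨fun v hv i => h1 v hv i, fun v hv => h2 v hv, fun v hv i b hb => h3 v hv i b hb,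
          fun v hv i => h4 v hv i⟩
    rw [heq]
    refine IsClosed.inter (IsClosed.inter (IsClosed.inter ?_ ?_) ?_) ?_
    · refine isClosed_biInter fun v _ => isClosed_iInter fun i => ?_
      exact isClosed_le continuous_const (hev1 v i)
    · refine isClosed_biInter fun v _ => ?_
      exact isClosed_le (continuous_finset_sum _ fun i _ => hev1 v i) continuous_const
    · refine isClosed_biInter fun v _ => isClosed_iInter fun i => isClosed_iInter fun b =>
        isClosed_iInter fun _ => ?_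
      exact isClosed_le (((hev1 _ i).mul continuous_const).sub (hev2 _ i))
        (((hev1 _ i).mul continuous_const).sub (hev2 _ i))
    · refine isClosed_biInter fun v _ => isClosed_iInter fun i => ?_
      exact isClosed_le continuous_const (((hev1 _ i).mul continuous_const).sub (hev2 _ i))
  have hcomp : IsCompact (C ∩ {f : F | (toM f).ValidOn T}) := hC.inter_right hclosed
  have hcont : Continuous fun f : F => revenue μ (toM f) := by
    have : (fun f : F => revenue μ (toM f)) =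
        fun f : F => ∑ v ∈ μ.support, μ v * ∑ i, (f v i).2 := rfl
    rw [this]
    exact continuous_finset_sum _ fun v _ => continuous_const.mul
      (continuous_finset_sum _ fun i _ => hev2 v i)
  have hne : (C ∩ {f : F | (toM f).ValidOn T}).Nonempty := by
    refine ⟨fun _ _ => (0, 0), ?_, ?_⟩
    · intro v _ i _
      exact ⟨⟨le_refl _, zero_le_one⟩, ⟨le_refl _, abs_nonneg _⟩⟩
    · exact zeroMech_valid T
  obtain ⟨f, hf, hmax⟩ := hcomp.exists_isMaxOn hne hcont.continuousOn
  refine ⟨toM f, hf.2, fun M' hM' => ?_⟩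
  obtain ⟨M'', h1, h2, h3, h4⟩ := exists_normalized hT hM'
  have h5 : revenue μ M' ≤ revenue μ M'' :=
    revenue_le_of hμ fun v hv i => h4 v (hsupp v hv) i
  refine le_trans h5 ?_
  have h6 := hmax (a := fun v i => (M''.alloc v i, M''.pay v i)) ⟨fun v _ i _ => ⟨h2 v i, h3 v i⟩, h1⟩
  exact h6

/-- A revenue-maximizing mechanism has nonnegative payments on the support. -/
theorem pay_nonneg_of_optimal {μ : (ι → ℝ) →₀ ℝ} {T : Set (ι → ℝ)} (hT : ∀ v ∈ T, ∀ i, 0 < v i)
    (hμ : ∀ v, 0 ≤ μ v) (hsupp : ∀ v ∈ μ.support, v ∈ T) {M : Mechanism ι} (hM : M.ValidOn T)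
    (hopt : ∀ M' : Mechanism ι, M'.ValidOn T → revenue μ M' ≤ revenue μ M)
    {v : ι → ℝ} (hv : v ∈ μ.support) (i : ι) : 0 ≤ M.pay v i := by
  by_contra hneg
  push Not at hneg
  obtain ⟨M', h1, _, h3, h4⟩ := exists_normalized hT hM
  have h5 := hopt M' h1
  have h6 : revenue μ M < revenue μ M' := by
    rw [revenue_eq, revenue_eq]
    refine Finset.sum_lt_sum (fun w hw => mul_le_mul_of_nonneg_left
      (Finset.sum_le_sum fun j _ => h4 w (hsupp w hw) j) (hμ w)) ⟨v, hv, ?_⟩
    have hpos : 0 < μ v := lt_of_le_of_ne (hμ v) (Ne.symm (Finsupp.mem_support_iff.mp hv))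
    refine mul_lt_mul_of_pos_left ?_ hpos
    refine Finset.sum_lt_sum (fun j _ => h4 v (hsupp v hv) j) ⟨i, Finset.mem_univ i, ?_⟩
    exact lt_of_lt_of_le hneg (h3 v i).1
  linarith

theorem typeSpace_pos {full : Bool} {μ : (ι → ℝ) →₀ ℝ} (h : ∀ v ∈ μ.support, ∀ i, 0 < v i) :
    ∀ v ∈ typeSpace full μ, ∀ i, 0 < v i := by
  intro v hv i
  unfold typeSpace at hv
  split_ifs at hv with hf
  · exact hv i
  · exact h v hv i

theorem support_typeSpace {full : Bool} {μ : (ι → ℝ) →₀ ℝ}
    (h : ∀ v ∈ μ.support, ∀ i, 0 < v i) : ∀ v ∈ μ.support, v ∈ typeSpace full μ := by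
  intro v hv
  unfold typeSpace
  split_ifs with hf
  · exact h v hv
  · exact hv

/-- `OPT` is a maximum. -/
theorem isGreatest_OPT {full : Bool} {μ : (ι → ℝ) →₀ ℝ} (hμ : ∀ v, 0 ≤ μ v)
    (hpos : ∀ v ∈ μ.support, ∀ i, 0 < v i) :
    IsGreatest {r | ∃ M : Mechanism ι, M.ValidOn (typeSpace full μ) ∧ revenue μ M = r}
      (OPT full μ) := by
  obtain ⟨M, h1, h2⟩ := exists_optimal (T := typeSpace full μ) (typeSpace_pos hpos) hμ
    (support_typeSpace hpos)
  have h3 : IsGreatest {r | ∃ M : Mechanism ι, M.ValidOn (typeSpace full μ) ∧ revenue μ M = r}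
      (revenue μ M) := by
    refine ⟨⟨M, h1, rfl⟩, ?_⟩
    rintro r ⟨M', h4, rfl⟩
    exact h2 M' h4
  have h4 : OPT full μ = revenue μ M := h3.csSup_eq
  rw [h4]
  exact h3

theorem le_OPT {full : Bool} {μ : (ι → ℝ) →₀ ℝ} (hμ : ∀ v, 0 ≤ μ v)
    (hpos : ∀ v ∈ μ.support, ∀ i, 0 < v i) {M : Mechanism ι}
    (hM : M.ValidOn (typeSpace full μ)) : revenue μ M ≤ OPT full μ :=
  (isGreatest_OPT hμ hpos).2 ⟨M, hM, rfl⟩

end General

section Cond

variable {n : ℕ}

theorem condDist_nonneg {D : (Fin n → ℝ) →₀ ℝ} (hD : ∀ v, 0 ≤ D v) (K : Finset (Fin n))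
    (w : {j : Fin n // j ∉ K} → ℝ) : ∀ u, 0 ≤ condDist D K w u := by
  intro u
  unfold condDist
  set E := D.filter fun v => (∀ j : {j : Fin n // j ∉ K}, v j = w j) ∧
      ∀ i ∈ K, ∀ j ∉ K, v j ≤ v i with hE
  have hE0 : ∀ v, 0 ≤ E v := by
    intro v
    rw [hE, Finsupp.filter_apply]
    split_ifs
    · exact hD v
    · exact le_refl _
  have h1 : 0 ≤ E.sum fun _ p => p := Finset.sum_nonneg fun v _ => hE0 v
  rw [Finsupp.smul_apply, smul_eq_mul]
  refine mul_nonneg (inv_nonneg.mpr h1) ?_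
  rw [Finsupp.mapDomain, Finsupp.sum_apply]
  refine Finset.sum_nonneg fun v _ => ?_
  beta_reduce
  rw [Finsupp.single_apply]
  split_ifs
  · exact hE0 v
  · exact le_refl _

theorem condDist_pos {D : (Fin n → ℝ) →₀ ℝ} (hD : ∀ v ∈ D.support, ∀ i, 0 < v i)
    (K : Finset (Fin n)) (w : {j : Fin n // j ∉ K} → ℝ) :
    ∀ u ∈ (condDist D K w).support, ∀ i, 0 < u i := by
  intro u hu i
  unfold condDist at hu
  have h1 := Finsupp.support_smul hu
  have h2 := Finsupp.mapDomain_support h1
  rw [Finset.mem_image] at h2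
  obtain ⟨v, hv, rfl⟩ := h2
  have h3 : v ∈ D.support := by
    rw [Finsupp.support_filter, Finset.mem_filter] at hv
    exact hv.1
  exact hD v h3 i

theorem mem_support_condDist {D : (Fin n → ℝ) →₀ ℝ} (hD : ∀ v, 0 ≤ D v) (K : Finset (Fin n))
    (v : Fin n → ℝ) (hv : v ∈ D.support) (hK : ∀ i ∈ K, ∀ j ∉ K, v j ≤ v i) :
    (fun i : {i : Fin n // i ∈ K} => v i) ∈
      (condDist D K fun j : {j : Fin n // j ∉ K} => v j).support := by
  have hvpos : 0 < D v := lt_of_le_of_ne (hD v) (Ne.symm (Finsupp.mem_support_iff.mp hv))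
  rw [Finsupp.mem_support_iff]
  unfold condDist
  set E := D.filter fun v' => (∀ j : {j : Fin n // j ∉ K}, v' j = v j) ∧
      ∀ i ∈ K, ∀ j ∉ K, v' j ≤ v' i with hE
  have hE0 : ∀ v, 0 ≤ E v := by
    intro v
    rw [hE, Finsupp.filter_apply]
    split_ifs
    · exact hD v
    · exact le_refl _
  have hEv : E v = D v := by
    rw [hE, Finsupp.filter_apply, if_pos ⟨fun _ => rfl, hK⟩]
  have hvE : v ∈ E.support := by
    rw [Finsupp.mem_support_iff, hEv]; exact hvpos.ne'
  have h1 : 0 < E.sum fun _ p => p := by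
    refine Finset.sum_pos' (fun v _ => hE0 v) ⟨v, hvE, ?_⟩
    rw [hEv]; exact hvpos
  rw [Finsupp.smul_apply, smul_eq_mul]
  refine (mul_pos (inv_pos.mpr h1) ?_).ne'
  rw [Finsupp.mapDomain, Finsupp.sum_apply]
  refine Finset.sum_pos' (fun v' _ => ?_) ⟨v, hvE, ?_⟩
  · beta_reduce
    rw [Finsupp.single_apply]
    split_ifs
    · exact hE0 v'
    · exact le_refl _
  · beta_reduce
    rw [Finsupp.single_eq_same, hEv]
    exact hvpos

theorem exists_lookahead (full : Bool) {D : (Fin n → ℝ) →₀ ℝ} (hD : IsDist D) :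
    ∃ A : ∀ K : Finset (Fin n), ({j : Fin n // j ∉ K} → ℝ) → Mechanism {i : Fin n // i ∈ K},
      IsLookahead full D A := by
  have h : ∀ (K : Finset (Fin n)) (w : {j : Fin n // j ∉ K} → ℝ),
      ∃ M : Mechanism {i : Fin n // i ∈ K}, M.ValidOn (typeSpace full (condDist D K w)) ∧
        ∀ M' : Mechanism {i : Fin n // i ∈ K}, M'.ValidOn (typeSpace full (condDist D K w)) →
          revenue (condDist D K w) M' ≤ revenue (condDist D K w) M := by
    intro K w
    exact exists_optimal (typeSpace_pos (condDist_pos hD.pos K w)) (condDist_nonneg hD.nonneg K w)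
      (support_typeSpace (condDist_pos hD.pos K w))
  choose A hA using h
  exact ⟨A, hA⟩

/-- The chosen bidders bid at least as much as the others. -/
theorem top_spec (k : ℕ) (v : Fin n → ℝ) : ∀ i ∈ top k v, ∀ j ∉ top k v, v j ≤ v i := by
  intro i hi j hj
  by_contra hlt
  push Not at hlt
  unfold top at hi hj
  rw [Finset.mem_filter] at hi hj
  push Not at hj
  have h1 := hj (Finset.mem_univ j)
  have h2 : (Finset.univ.filter fun l => v j < v l ∨ (v l = v j ∧ l < j)).card ≤
      (Finset.univ.filter fun l => v i < v l ∨ (v l = v i ∧ l < i)).card := by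
    refine Finset.card_le_card fun l hl => ?_
    rw [Finset.mem_filter] at hl ⊢
    refine ⟨Finset.mem_univ l, Or.inl ?_⟩
    rcases hl.2 with h | h
    · linarith
    · rw [h.1]; exact hlt
  have h3 := hi.2
  omega

theorem lookRevenue_nonneg {full : Bool} {k : ℕ} {D : (Fin n → ℝ) →₀ ℝ} (hD : IsDist D)
    {A : ∀ K : Finset (Fin n), ({j : Fin n // j ∉ K} → ℝ) → Mechanism {i : Fin n // i ∈ K}}
    (hA : IsLookahead full D A) : 0 ≤ lookRevenue k D A := by
  unfold lookRevenue
  refine Finset.sum_nonneg fun v hv => ?_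
  refine mul_nonneg (hD.nonneg v) (Finset.sum_nonneg fun i _ => ?_)
  have key := mem_support_condDist hD.nonneg (top k v) v hv (top_spec k v)
  exact pay_nonneg_of_optimal
    (typeSpace_pos (condDist_pos hD.pos (top k v) _)) (condDist_nonneg hD.nonneg (top k v) _)
    (support_typeSpace (condDist_pos hD.pos (top k v) _)) (hA (top k v) _).1 (hA (top k v) _).2
    key i

theorem bddBelow_ratios (full : Bool) (k : ℕ) : BddBelow (ratios full k) := by
  refine ⟨0, ?_⟩
  rintro r ⟨n, D, A, hD, hO, hA, rfl⟩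
  exact div_nonneg (lookRevenue_nonneg hD hA) hO.le

end Cond

end Pool.Agent.H672R2.Lookahead
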