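import Mathlib
import Pool.Agent.H672R2.LookaheadDefs
import Pool.Agent.H672R2.LookaheadOpt
import Pool.Agent.H672R2.LookaheadCore

set_option autoImplicit false

namespace Pool.Agent.H672R2.Lookahead

open Classical

variable {m L : ℕ}

/-- The three values of bidder `0`. -/
noncomputable def val (L : ℕ) (c : ℕ) : ℝ :=
  if c = 0 then 1 + 1 / ((2 * L : ℕ) : ℝ) else if c = 1 then 2 else 4

/-- The value of an encoding bidder with level `b`. -/
noncomputable def enc (L : ℕ) (b : ℕ) : ℝ := 1 + ((b : ℝ) + 1) / ((2 * L : ℕ) : ℝ) ^ 2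

/-- The valuation vectors of the example: bidder `0` has value `val c`, bidder `j + 1` has the value
of level `d j`, and the last bidder has value `1`. -/
noncomputable def prof (m L : ℕ) (c : ℕ) (d : Fin m → Fin (2 * L)) : Fin (m + 2) → ℝ :=
  Fin.snoc (α := fun _ => ℝ) (Fin.cons (α := fun _ => ℝ) (val L c) fun j => enc L (d j)) 1

/-- Index of the encoding bidder `j`. -/
def eb (j : Fin m) : Fin (m + 2) := j.succ.castSucc

theorem prof_zero (c : ℕ) (d : Fin m → Fin (2 * L)) : prof m L c d 0 = val L c := by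
  unfold prof
  have : (0 : Fin (m + 2)) = Fin.castSucc (0 : Fin (m + 1)) := rfl
  rw [this, Fin.snoc_castSucc, Fin.cons_zero]

theorem prof_eb (c : ℕ) (d : Fin m → Fin (2 * L)) (j : Fin m) :
    prof m L c d (eb j) = enc L (d j) := by
  unfold prof eb
  rw [Fin.snoc_castSucc, Fin.cons_succ]

theorem prof_last (c : ℕ) (d : Fin m → Fin (2 * L)) : prof m L c d (Fin.last (m + 1)) = 1 := by
  unfold prof
  rw [Fin.snoc_last]

theorem cases_idx (i : Fin (m + 2)) : i = 0 ∨ (∃ j : Fin m, i = eb j) ∨ i = Fin.last (m + 1) := by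
  refine Fin.lastCases ?_ (fun i => ?_) i
  · right; right; rfl
  · refine Fin.cases ?_ (fun j => ?_) i
    · left; rfl
    · right; left; exact ⟨j, rfl⟩

theorem zero_ne_eb (j : Fin m) : (0 : Fin (m + 2)) ≠ eb j := by
  intro h
  have := congrArg Fin.val h
  simp [eb] at this

theorem eb_injective : Function.Injective (eb (m := m)) := by
  intro a b h
  have := congrArg Fin.val h
  simp [eb] at this
  exact Fin.ext this

theorem eb_ne_last (j : Fin m) : eb j ≠ Fin.last (m + 1) := by
  intro h
  have := congrArg Fin.val h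
  simp [eb] at this
  have := j.2
  omega

theorem zero_ne_last : (0 : Fin (m + 2)) ≠ Fin.last (m + 1) := by
  intro h
  have := congrArg Fin.val h
  simp at this

theorem sum_idx (f : Fin (m + 2) → ℝ) :
    ∑ i, f i = f 0 + ∑ j : Fin m, f (eb j) + f (Fin.last (m + 1)) := by
  rw [Fin.sum_univ_castSucc, Fin.sum_univ_succ]
  rfl

/-- The set of the first `m + 1` bidders. -/
def KK (m : ℕ) : Finset (Fin (m + 2)) := Finset.univ.filter fun i => i ≠ Fin.last (m + 1)

theorem mem_KK (i : Fin (m + 2)) : i ∈ KK m ↔ i ≠ Fin.last (m + 1) := by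
  unfold KK; simp

theorem zero_mem_KK : (0 : Fin (m + 2)) ∈ KK m := (mem_KK _).mpr zero_ne_last

theorem eb_mem_KK (j : Fin m) : eb j ∈ KK m := (mem_KK _).mpr (eb_ne_last j)

theorem sum_KK (f : {i : Fin (m + 2) // i ∈ KK m} → ℝ) :
    ∑ i, f i = f ⟨0, zero_mem_KK⟩ + ∑ j : Fin m, f ⟨eb j, eb_mem_KK j⟩ := by
  let g : Fin (m + 2) → ℝ := fun i => if h : i ∈ KK m then f ⟨i, h⟩ else 0
  have h1 : ∑ i : {i : Fin (m + 2) // i ∈ KK m}, f i = ∑ i ∈ KK m, g i := by
    rw [← Finset.sum_coe_sort (KK m) g]
    refine Finset.sum_congr rfl fun i _ => ?_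
    simp only [g, i.2, dif_pos]
  have h2 : ∑ i ∈ KK m, g i = ∑ i, g i := by
    refine Finset.sum_subset (Finset.subset_univ _) fun i _ hi => ?_
    simp only [g, hi, dif_neg, not_false_iff]
  rw [h1, h2, sum_idx]
  have h3 : g (Fin.last (m + 1)) = 0 := by
    have : Fin.last (m + 1) ∉ KK m := by rw [mem_KK]; simp
    simp only [g, this, dif_neg, not_false_iff]
  rw [h3, add_zero]
  simp only [g, zero_mem_KK, eb_mem_KK, dif_pos]

theorem NN_pos (hL : 0 < L) : (0 : ℝ) < ((2 * L : ℕ) : ℝ) := by
  have : 0 < 2 * L := by omega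
  exact_mod_cast this

theorem val_gt (hL : 0 < L) (c : ℕ) : 1 < val L c := by
  have := NN_pos hL
  unfold val
  split_ifs
  · have : 0 < 1 / ((2 * L : ℕ) : ℝ) := by positivity
    linarith
  · norm_num
  · norm_num

theorem enc_gt (hL : 0 < L) (b : ℕ) : 1 < enc L b := by
  have := NN_pos hL
  unfold enc
  have : 0 < ((b : ℝ) + 1) / ((2 * L : ℕ) : ℝ) ^ 2 := by positivity
  linarith

theorem enc_le (hL : 0 < L) (b : Fin (2 * L)) : enc L b ≤ 1 + 1 / ((2 * L : ℕ) : ℝ) := by
  have h := NN_pos hL
  unfold enc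
  have h1 : ((b : ℕ) : ℝ) + 1 ≤ ((2 * L : ℕ) : ℝ) := by exact_mod_cast b.2
  have h2 : (((b : ℕ) : ℝ) + 1) / ((2 * L : ℕ) : ℝ) ^ 2 ≤ 1 / ((2 * L : ℕ) : ℝ) := by
    rw [div_le_div_iff₀ (by positivity) h]
    nlinarith
  linarith

theorem enc_lt (hL : 0 < L) {b c : ℕ} (h : b < c) : enc L b < enc L c := by
  have h0 := NN_pos hL
  unfold enc
  have : (b : ℝ) < c := by exact_mod_cast h
  have h2 : ((b : ℝ) + 1) / ((2 * L : ℕ) : ℝ) ^ 2 < ((c : ℝ) + 1) / ((2 * L : ℕ) : ℝ) ^ 2 := by
    apply div_lt_div_of_pos_right _ (by positivity)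
    linarith
  linarith

theorem prof_gt (hL : 0 < L) (c : ℕ) (d : Fin m → Fin (2 * L)) (i : Fin (m + 2))
    (hi : i ≠ Fin.last (m + 1)) : 1 < prof m L c d i := by
  rcases cases_idx i with h | ⟨j, h⟩ | h
  · rw [h, prof_zero]; exact val_gt hL c
  · rw [h, prof_eb]; exact enc_gt hL _
  · exact absurd h hi

theorem prof_pos (hL : 0 < L) (c : ℕ) (d : Fin m → Fin (2 * L)) (i : Fin (m + 2)) :
    0 < prof m L c d i := by
  by_cases hi : i = Fin.last (m + 1)
  · rw [hi, prof_last]; norm_num
  · linarith [prof_gt hL c d i hi]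

theorem top_prof (hL : 0 < L) (c : ℕ) (d : Fin m → Fin (2 * L)) :
    top (m + 1) (prof m L c d) = KK m := by
  unfold top
  ext i
  rw [Finset.mem_filter, mem_KK]
  constructor
  · rintro ⟨_, h⟩ rfl
    have h2 : (Finset.univ.filter fun j => j ≠ Fin.last (m + 1)).card ≤
        (Finset.univ.filter fun j => prof m L c d (Fin.last (m + 1)) < prof m L c d j ∨
          (prof m L c d j = prof m L c d (Fin.last (m + 1)) ∧ j < Fin.last (m + 1))).card := by
      refine Finset.card_le_card fun j hj => ?_
      rw [Finset.mem_filter] at hj ⊢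
      refine ⟨Finset.mem_univ j, Or.inl ?_⟩
      rw [prof_last]
      exact prof_gt hL c d j hj.2
    have h3 : (Finset.univ.filter fun j : Fin (m + 2) => j ≠ Fin.last (m + 1)).card = m + 1 := by
      rw [Finset.filter_ne' Finset.univ, Finset.card_erase_of_mem (Finset.mem_univ _),
        Finset.card_univ, Fintype.card_fin]
      omega
    have h4 := h3 ▸ h2
    exact absurd (lt_of_le_of_lt h4 h) (lt_irrefl _)
  · intro hi
    refine ⟨Finset.mem_univ i, ?_⟩
    have h2 : (Finset.univ.filter fun j => prof m L c d i < prof m L c d j ∨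
          (prof m L c d j = prof m L c d i ∧ j < i)).card ≤
        ((Finset.univ.erase i).erase (Fin.last (m + 1))).card := by
      refine Finset.card_le_card fun j hj => ?_
      rw [Finset.mem_filter] at hj
      rw [Finset.mem_erase, Finset.mem_erase]
      have h4 := prof_gt hL c d i hi
      refine ⟨?_, ?_, Finset.mem_univ _⟩
      · rintro rfl
        rw [prof_last] at hj
        rcases hj.2 with h | h
        · linarith
        · linarith [h.1]
      · rintro rfl
        rcases hj.2 with h | h
        · exact lt_irrefl _ h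
        · exact lt_irrefl _ h.2
    rw [Finset.card_erase_of_mem (Finset.mem_erase.mpr ⟨Ne.symm hi, Finset.mem_univ _⟩),
      Finset.card_erase_of_mem (Finset.mem_univ _), Finset.card_univ, Fintype.card_fin] at h2
    omega

/-- The scenarios: the levels of the encoding bidders and a fair coin. -/
abbrev Scen (m L : ℕ) : Type := (Fin m → Fin (2 * L)) × Fin 2

/-- The valuation vector of a scenario. -/
noncomputable def sprof (s : Scen m L) : Fin (m + 2) → ℝ :=
  prof m L (tot s.1 % 2 + (s.2 : ℕ)) s.1

/-- Weight of a scenario. -/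
noncomputable def wt (m L : ℕ) : ℝ := (Fintype.card (Scen m L) : ℝ)⁻¹

theorem card_Scen (m L : ℕ) : (Fintype.card (Scen m L) : ℝ) = ((2 * L : ℕ) : ℝ) ^ m * 2 := by
  simp [Scen, Fintype.card_prod]

theorem wt_pos (hL : 0 < L) : 0 < wt m L := by
  unfold wt
  rw [card_Scen]
  have := NN_pos hL
  positivity

/-- The distribution of the example. -/
noncomputable def DD (m L : ℕ) : (Fin (m + 2) → ℝ) →₀ ℝ :=
  ∑ s : Scen m L, Finsupp.single (sprof s) (wt m L)

theorem sum_DD {α : Type} (g : Scen m L → α) (f : α → ℝ) :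
    (∑ s : Scen m L, Finsupp.single (g s) (wt m L)).sum (fun v p => p * f v) =
      wt m L * ∑ s : Scen m L, f (g s) := by
  rw [← Finsupp.sum_finset_sum_index (by intro a; simp) (by intro a b c; ring), Finset.mul_sum]
  refine Finset.sum_congr rfl fun s _ => ?_
  rw [Finsupp.sum_single_index (by simp)]

theorem single_sum_nonneg (hL : 0 < L) {α : Type} (g : Scen m L → α) (v : α) :
    0 ≤ (∑ s : Scen m L, Finsupp.single (g s) (wt m L)) v := by
  rw [Finsupp.finset_sum_apply]
  refine Finset.sum_nonneg fun s _ => ?_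
  rw [Finsupp.single_apply]
  split_ifs
  · exact (wt_pos hL).le
  · exact le_refl _

theorem single_sum_support (hL : 0 < L) {α : Type} (g : Scen m L → α) (v : α) :
    v ∈ (∑ s : Scen m L, Finsupp.single (g s) (wt m L)).support ↔ ∃ s, g s = v := by
  rw [Finsupp.mem_support_iff, Finsupp.finset_sum_apply]
  constructor
  · intro h
    by_contra hne
    push Not at hne
    refine h (Finset.sum_eq_zero fun s _ => ?_)
    rw [Finsupp.single_apply, if_neg (hne s)]
  · rintro ⟨s, rfl⟩
    refine (Finset.sum_pos' (fun s' _ => ?_) ⟨s, Finset.mem_univ s, ?_⟩).ne'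
    · rw [Finsupp.single_apply]
      split_ifs
      · exact (wt_pos hL).le
      · exact le_refl _
    · rw [Finsupp.single_eq_same]
      exact wt_pos hL

theorem isDist_DD (hL : 0 < L) : IsDist (DD m L) where
  nonneg := single_sum_nonneg hL _
  total := by
    have h := sum_DD (m := m) (L := L) sprof (fun _ => 1)
    simp only [mul_one] at h
    unfold DD
    rw [h]
    rw [Finset.sum_const, Finset.card_univ, nsmul_eq_mul, mul_one]
    unfold wt
    refine inv_mul_cancel₀ ?_
    rw [card_Scen]
    have := NN_pos hL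
    positivity
  pos := by
    intro v hv i
    obtain ⟨s, rfl⟩ := (single_sum_support hL _ _).mp hv
    exact prof_pos hL _ _ i

theorem condDist_DD (hL : 0 < L) :
    condDist (DD m L) (KK m) (fun _ => 1) =
      ∑ s : Scen m L, Finsupp.single (fun i : {i : Fin (m + 2) // i ∈ KK m} => sprof s i)
        (wt m L) := by
  have hf : ((DD m L).filter fun v => (∀ j : {j : Fin (m + 2) // j ∉ KK m}, v j = 1) ∧
      ∀ i ∈ KK m, ∀ j ∉ KK m, v j ≤ v i) = DD m L := by
    rw [Finsupp.filter_eq_self_iff]
    intro v hv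
    have hv' : v ∈ (DD m L).support := Finsupp.mem_support_iff.mpr hv
    obtain ⟨s, rfl⟩ := (single_sum_support hL _ _).mp hv'
    have hlast : ∀ j ∉ KK m, sprof s j = 1 := by
      intro j hj
      rw [mem_KK] at hj
      push Not at hj
      rw [hj]
      exact prof_last _ _
    refine ⟨fun j => hlast j j.2, fun i hi j hj => ?_⟩
    rw [hlast j hj]
    exact (prof_gt hL _ _ i ((mem_KK i).mp hi)).le
  unfold condDist
  rw [hf, (isDist_DD hL).total, inv_one, one_smul]
  unfold DD
  rw [Finsupp.mapDomain_finset_sum]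
  refine Finset.sum_congr rfl fun s _ => ?_
  rw [Finsupp.mapDomain_single]

/-- Restriction of a valuation vector to the first bidders. -/
noncomputable def rp (m L : ℕ) (c : ℕ) (d : Fin m → Fin (2 * L)) :
    {i : Fin (m + 2) // i ∈ KK m} → ℝ := fun i => prof m L c d i

theorem rp_zero (c : ℕ) (d : Fin m → Fin (2 * L)) :
    rp m L c d ⟨0, zero_mem_KK⟩ = val L c := prof_zero c d

theorem rp_eb (c : ℕ) (d : Fin m → Fin (2 * L)) (j : Fin m) :
    rp m L c d ⟨eb j, eb_mem_KK j⟩ = enc L (d j) := prof_eb c d j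

theorem rp_update_zero (c c' : ℕ) (d : Fin m → Fin (2 * L)) :
    Function.update (rp m L c d) ⟨0, zero_mem_KK⟩ (val L c') = rp m L c' d := by
  funext i
  obtain ⟨i, hi⟩ := i
  rcases cases_idx i with h | ⟨j, h⟩ | h
  · subst h
    rw [Function.update_self, rp_zero]
  · subst h
    rw [Function.update_of_ne (by
      intro h; exact zero_ne_eb j (congrArg Subtype.val h).symm), rp_eb, rp_eb]
  · exact absurd h ((mem_KK i).mp hi)

theorem rp_update_eb (c : ℕ) (d : Fin m → Fin (2 * L)) (j : Fin m) (b : Fin (2 * L)) :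
    Function.update (rp m L c d) ⟨eb j, eb_mem_KK j⟩ (enc L b) =
      rp m L c (Function.update d j b) := by
  funext i
  obtain ⟨i, hi⟩ := i
  rcases cases_idx i with h | ⟨j', h⟩ | h
  · subst h
    rw [Function.update_of_ne (by
      intro h; exact zero_ne_eb j (congrArg Subtype.val h)), rp_zero, rp_zero]
  · subst h
    by_cases hj : j' = j
    · subst hj
      rw [Function.update_self, rp_eb, Function.update_self]
    · rw [Function.update_of_ne (by
        intro h; exact hj (eb_injective (congrArg Subtype.val h))), rp_eb, rp_eb,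
        Function.update_of_ne hj]
  · exact absurd h ((mem_KK i).mp hi)

theorem rp_mem (full : Bool) (hL : 0 < L) (c : ℕ) (d : Fin m → Fin (2 * L))
    (h1 : tot d % 2 ≤ c) (h2 : c ≤ tot d % 2 + 1) :
    rp m L c d ∈ typeSpace full (condDist (DD m L) (KK m) (fun _ => 1)) := by
  refine support_typeSpace (condDist_pos (isDist_DD hL).pos _ _) _ ?_
  rw [condDist_DD hL, single_sum_support hL]
  refine ⟨(d, ⟨c - tot d % 2, by omega⟩), ?_⟩
  funext i
  unfold rp sprof
  have : tot d % 2 + (c - tot d % 2) = c := by omega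
  simp only [this]

/-- The revenue of any mechanism for the first bidders. -/
theorem revenue_le (full : Bool) (hm : 0 < m) (hL : 0 < L)
    (M : Mechanism {i : Fin (m + 2) // i ∈ KK m})
    (hM : M.ValidOn (typeSpace full (condDist (DD m L) (KK m) (fun _ => 1)))) :
    revenue (condDist (DD m L) (KK m) (fun _ => 1)) M ≤
      7 / 4 + (4 + m) / (2 * ((2 * L : ℕ) : ℝ)) := by
  have hN := NN_pos hL
  have hrev : revenue (condDist (DD m L) (KK m) (fun _ => 1)) M =
      wt m L * ∑ s : Scen m L, ∑ i, M.pay (rp m L (tot s.1 % 2 + (s.2 : ℕ)) s.1) i := by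
    unfold revenue
    rw [condDist_DD hL, sum_DD]
    rfl
  have hmem := fun c d h1 h2 => rp_mem (m := m) (L := L) full hL c d h1 h2
  have hval0 : val L 0 = 1 + 1 / ((2 * L : ℕ) : ℝ) := by simp [val]
  have hval1 : val L 1 = 2 := by simp [val]
  have hval2 : val L 2 = 4 := by simp [val]
  have hcore := core (m := m) (L := L) hm hL (1 / ((2 * L : ℕ) : ℝ)) (by positivity)
    (fun c d => M.alloc (rp m L c d) ⟨0, zero_mem_KK⟩)
    (fun c d => M.pay (rp m L c d) ⟨0, zero_mem_KK⟩)
    (fun j c d => M.alloc (rp m L c d) ⟨eb j, eb_mem_KK j⟩)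
    (fun j c d => M.pay (rp m L c d) ⟨eb j, eb_mem_KK j⟩)
    (fun c d h1 h2 => hM.alloc_nonneg _ (hmem c d h1 h2) _)
    (fun j c d h1 h2 => hM.alloc_nonneg _ (hmem c d h1 h2) _)
    (fun c d h1 h2 => by
      have := hM.alloc_le _ (hmem c d h1 h2)
      rw [sum_KK] at this
      exact this)
    (by
      intro j d b c hbc
      rcases eq_or_lt_of_le hbc with h | h
      · subst h; exact le_refl _
      · have m1 := hmem 1 (Function.update d j b) (by omega) (by omega)
        have m2 := hmem 1 (Function.update d j c) (by omega) (by omega)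
        have u1 : Function.update (rp m L 1 (Function.update d j b)) ⟨eb j, eb_mem_KK j⟩
            (enc L c) = rp m L 1 (Function.update d j c) := by
          rw [rp_update_eb, Function.update_idem]
        have u2 : Function.update (rp m L 1 (Function.update d j c)) ⟨eb j, eb_mem_KK j⟩
            (enc L b) = rp m L 1 (Function.update d j b) := by
          rw [rp_update_eb, Function.update_idem]
        have t1 := hM.truthful _ m1 ⟨eb j, eb_mem_KK j⟩ (enc L c) (by rw [u1]; exact m2)
        have t2 := hM.truthful _ m2 ⟨eb j, eb_mem_KK j⟩ (enc L b) (by rw [u2]; exact m1)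
        rw [u1, rp_eb, Function.update_self] at t1
        rw [u2, rp_eb, Function.update_self] at t2
        unfold Mechanism.utility at t1 t2
        have h3 := enc_lt hL (show (b : ℕ) < (c : ℕ) from h)
        by_contra hlt
        push Not at hlt
        nlinarith)
    (by
      intro j c d h1 h2
      have r := hM.rational _ (hmem c d h1 h2) ⟨eb j, eb_mem_KK j⟩
      unfold Mechanism.utility at r
      rw [rp_eb] at r
      have a := hM.alloc_nonneg _ (hmem c d h1 h2) ⟨eb j, eb_mem_KK j⟩
      have b := enc_le hL (d j)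
      nlinarith)
    (by
      intro d h
      have r := hM.rational _ (hmem 0 d (by omega) (by omega)) ⟨0, zero_mem_KK⟩
      unfold Mechanism.utility at r
      rw [rp_zero, hval0] at r
      linarith)
    (by
      intro d h
      have r := hM.truthful _ (hmem 1 d (by omega) (by omega)) ⟨0, zero_mem_KK⟩ (val L 0)
        (by rw [rp_update_zero]; exact hmem 0 d (by omega) (by omega))
      unfold Mechanism.utility at r
      rw [rp_update_zero, rp_zero, hval1] at r
      linarith)
    (by
      intro d h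
      have r := hM.rational _ (hmem 1 d (by omega) (by omega)) ⟨0, zero_mem_KK⟩
      unfold Mechanism.utility at r
      rw [rp_zero, hval1] at r
      linarith)
    (by
      intro d h
      have r := hM.truthful _ (hmem 2 d (by omega) (by omega)) ⟨0, zero_mem_KK⟩ (val L 1)
        (by rw [rp_update_zero]; exact hmem 1 d (by omega) (by omega))
      unfold Mechanism.utility at r
      rw [rp_update_zero, rp_zero, hval2] at r
      linarith)
  have hsum : ∑ s : Scen m L, ∑ i, M.pay (rp m L (tot s.1 % 2 + (s.2 : ℕ)) s.1) i =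
      ∑ d : Fin m → Fin (2 * L), ((M.pay (rp m L (tot d % 2) d) ⟨0, zero_mem_KK⟩ +
        ∑ j, M.pay (rp m L (tot d % 2) d) ⟨eb j, eb_mem_KK j⟩) +
      (M.pay (rp m L (tot d % 2 + 1) d) ⟨0, zero_mem_KK⟩ +
        ∑ j, M.pay (rp m L (tot d % 2 + 1) d) ⟨eb j, eb_mem_KK j⟩)) := by
    rw [Fintype.sum_prod_type]
    refine Finset.sum_congr rfl fun d _ => ?_
    rw [Fin.sum_univ_two]
    simp only [sum_KK, Fin.val_zero, Fin.val_one, add_zero]
  rw [hrev, hsum]
  have hw := wt_pos (m := m) hL
  refine le_trans (mul_le_mul_of_nonneg_left hcore hw.le) ?_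
  unfold wt
  rw [card_Scen]
  have hNm : (0 : ℝ) < ((2 * L : ℕ) : ℝ) ^ m := by positivity
  rw [mul_inv, ← mul_assoc]
  have e1 : (((2 * L : ℕ) : ℝ) ^ m)⁻¹ * 2⁻¹ * ((2 * L : ℕ) : ℝ) ^ m = 2⁻¹ := by
    field_simp
  rw [e1]
  apply le_of_eq
  field_simp
  ring

/-- The price offered to bidder `0` in the good mechanism. -/
noncomputable def price (m L : ℕ) (v : Fin (m + 2) → ℝ) : ℝ :=
  if ∃ d : Fin m → Fin (2 * L), tot d % 2 = 1 ∧ ∀ j, v (eb j) = enc L (d j) then 4 else 2

/-- The good mechanism: offer the item to bidder `0`, and if she declines, offer it to the last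
bidder at price `1`. -/
noncomputable def goodMech (m L : ℕ) : Mechanism (Fin (m + 2)) where
  alloc v i := if i = 0 then (if price m L v ≤ v 0 then 1 else 0) else
    if i = Fin.last (m + 1) then (if price m L v ≤ v 0 then 0 else if 1 ≤ v i then 1 else 0) else 0
  pay v i := if i = 0 then (if price m L v ≤ v 0 then price m L v else 0) else
    if i = Fin.last (m + 1) then (if price m L v ≤ v 0 then 0 else if 1 ≤ v i then 1 else 0) else 0

theorem price_update (v : Fin (m + 2) → ℝ) (i : Fin (m + 2)) (hi : ∀ j, i ≠ eb j) (b : ℝ) :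
    price m L (Function.update v i b) = price m L v := by
  unfold price
  have : ∀ j : Fin m, Function.update v i b (eb j) = v (eb j) := fun j =>
    Function.update_of_ne (Ne.symm (hi j)) _ _
  simp only [this]

theorem goodMech_valid (T : Set (Fin (m + 2) → ℝ)) : (goodMech m L).ValidOn T where
  alloc_nonneg := by
    intro v _ i
    unfold goodMech
    dsimp only
    split_ifs <;> norm_num
  alloc_le := by
    intro v _
    rw [sum_idx]
    have h0 : ∀ j : Fin m, (goodMech m L).alloc v (eb j) = 0 := by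
      intro j
      unfold goodMech
      dsimp only
      rw [if_neg (Ne.symm (zero_ne_eb j)), if_neg (eb_ne_last j)]
    rw [Finset.sum_eq_zero fun j _ => h0 j]
    unfold goodMech
    dsimp only
    rw [if_pos rfl, if_neg (Ne.symm zero_ne_last), if_pos rfl]
    split_ifs <;> norm_num
  truthful := by
    intro v _ i b _
    unfold Mechanism.utility goodMech
    dsimp only
    by_cases h0 : i = 0
    · subst h0
      rw [if_pos rfl, if_pos rfl, if_pos rfl, if_pos rfl,
        price_update v 0 (fun j => zero_ne_eb j) b, Function.update_self]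
      split_ifs <;> linarith
    · rw [if_neg h0, if_neg h0, if_neg h0, if_neg h0]
      by_cases h1 : i = Fin.last (m + 1)
      · subst h1
        simp only [if_true]
        rw [price_update v _ (fun j => Ne.symm (eb_ne_last j)) b, Function.update_self,
          Function.update_of_ne zero_ne_last]
        split_ifs <;> linarith
      · simp only [if_neg h1]
        linarith
  rational := by
    intro v _ i
    unfold Mechanism.utility goodMech
    dsimp only
    by_cases h0 : i = 0
    · subst h0
      simp only [if_true]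
      split_ifs <;> linarith
    · rw [if_neg h0, if_neg h0]
      by_cases h1 : i = Fin.last (m + 1)
      · subst h1
        simp only [if_true]
        split_ifs <;> linarith
      · simp only [if_neg h1]
        linarith

theorem enc_injective (hL : 0 < L) {b c : ℕ} (h : enc L b = enc L c) : b = c := by
  rcases lt_trichotomy b c with h1 | h1 | h1
  · exact absurd h (enc_lt hL h1).ne
  · exact h1
  · exact absurd h (enc_lt hL h1).ne'

theorem price_prof (hL : 0 < L) (c : ℕ) (d : Fin m → Fin (2 * L)) :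
    price m L (prof m L c d) = if tot d % 2 = 1 then 4 else 2 := by
  unfold price
  have : (∃ d' : Fin m → Fin (2 * L), tot d' % 2 = 1 ∧ ∀ j, prof m L c d (eb j) = enc L (d' j)) ↔
      tot d % 2 = 1 := by
    constructor
    · rintro ⟨d', h1, h2⟩
      have : d = d' := by
        funext j
        have := h2 j
        rw [prof_eb] at this
        exact Fin.ext (enc_injective hL this)
      rw [this]; exact h1
    · intro h
      exact ⟨d, h, fun j => prof_eb c d j⟩
  simp only [this]

theorem two_le_OPT (full : Bool) (hm : 0 < m) (hL : 0 < L) : 2 ≤ OPT full (DD m L) := by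
  have h := le_OPT (full := full) (isDist_DD (m := m) hL).nonneg (isDist_DD hL).pos
    (goodMech_valid (m := m) (L := L) (typeSpace full (DD m L)))
  refine le_trans ?_ h
  have hN := NN_pos hL
  have hval0 : val L 0 = 1 + 1 / ((2 * L : ℕ) : ℝ) := by simp [val]
  have hval1 : val L 1 = 2 := by simp [val]
  have hval2 : val L 2 = 4 := by simp [val]
  have hN2 : 1 / ((2 * L : ℕ) : ℝ) < 1 := by
    rw [div_lt_one hN]
    have : 1 < 2 * L := by omega
    exact_mod_cast this
  have hrev : revenue (DD m L) (goodMech m L) =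
      wt m L * ∑ s : Scen m L, ∑ i, (goodMech m L).pay (sprof s) i := by
    unfold revenue DD
    rw [sum_DD]
  rw [hrev]
  have hpay : ∀ d : Fin m → Fin (2 * L),
      ∑ a : Fin 2, ∑ i, (goodMech m L).pay (sprof (d, a)) i = 4 + sg (tot d) := by
    intro d
    have e : ∀ c : ℕ, ∑ i, (goodMech m L).pay (prof m L c d) i =
        if (if tot d % 2 = 1 then (4 : ℝ) else 2) ≤ val L c then
          (if tot d % 2 = 1 then (4 : ℝ) else 2) else 1 := by
      intro c
      rw [sum_idx]
      have h0 : ∀ j : Fin m, (goodMech m L).pay (prof m L c d) (eb j) = 0 := by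
        intro j
        unfold goodMech
        dsimp only
        rw [if_neg (Ne.symm (zero_ne_eb j)), if_neg (eb_ne_last j)]
      rw [Finset.sum_eq_zero fun j _ => h0 j]
      unfold goodMech
      dsimp only
      rw [if_pos rfl, if_neg (Ne.symm zero_ne_last), if_pos rfl, prof_zero, prof_last,
        price_prof hL, if_pos (le_refl (1 : ℝ))]
      by_cases hc : (if tot d % 2 = 1 then (4 : ℝ) else 2) ≤ val L c
      · rw [if_pos hc, if_pos hc, if_pos hc]; ring
      · rw [if_neg hc, if_neg hc, if_neg hc]; ring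
    rw [Fin.sum_univ_two]
    unfold sprof
    simp only [Fin.val_zero, Fin.val_one, add_zero]
    rw [e, e]
    rcases Nat.mod_two_eq_zero_or_one (tot d) with h2 | h2
    · rw [h2]
      have s : sg (tot d) = -1 := by unfold sg; simp [h2]
      rw [s, if_neg (by norm_num : ¬ (0 : ℕ) = 1), hval0, zero_add, hval1,
        if_neg (by linarith), if_pos (le_refl _)]
      norm_num
    · rw [h2]
      have s : sg (tot d) = 1 := by unfold sg; simp [h2]
      have g : (1 : ℕ) + 1 = 2 := rfl
      rw [s, if_pos rfl, g, hval1, hval2, if_neg (by norm_num), if_pos (le_refl _)]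
      norm_num
  rw [Fintype.sum_prod_type, Finset.sum_congr rfl fun d _ => hpay d, Finset.sum_add_distrib,
    sum_sg hm]
  unfold wt
  rw [card_Scen]
  have hNm : (0 : ℝ) < ((2 * L : ℕ) : ℝ) ^ m := by positivity
  rw [Finset.sum_const, Finset.card_univ, Fintype.card_fun, Fintype.card_fin, Fintype.card_fin,
    nsmul_eq_mul]
  apply le_of_eq
  push_cast
  push_cast at hNm
  field_simp
  ring

theorem lookRevenue_DD (hL : 0 < L)
    (A : ∀ K : Finset (Fin (m + 2)), ({j : Fin (m + 2) // j ∉ K} → ℝ) →
      Mechanism {i : Fin (m + 2) // i ∈ K}) :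
    lookRevenue (m + 1) (DD m L) A =
      revenue (condDist (DD m L) (KK m) (fun _ => 1)) (A (KK m) fun _ => 1) := by
  unfold lookRevenue revenue
  rw [condDist_DD hL, sum_DD (m := m) (L := L) (fun s (i : {i : Fin (m + 2) // i ∈ KK m}) => sprof s i)
    (fun v => ∑ i, (A (KK m) fun _ => 1).pay v i)]
  unfold DD
  rw [sum_DD (m := m) (L := L) sprof (fun v => ∑ i : {i : Fin (m + 2) // i ∈ top (m + 1) v},
    (A (top (m + 1) v) fun j => v j).pay (fun i => v i) i)]
  congr 1
  refine Finset.sum_congr rfl fun s _ => ?_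
  have key : ∀ K : Finset (Fin (m + 2)), K = KK m →
      ∑ i : {i : Fin (m + 2) // i ∈ K}, (A K fun j => sprof s j).pay (fun i => sprof s i) i =
      ∑ i : {i : Fin (m + 2) // i ∈ KK m}, (A (KK m) fun _ => 1).pay (fun i => sprof s i) i := by
    rintro K rfl
    have : (fun j : {j : Fin (m + 2) // j ∉ KK m} => sprof s j) = fun _ => 1 := by
      funext j
      obtain ⟨j, hj⟩ := j
      rw [mem_KK] at hj
      push Not at hj
      subst hj
      exact prof_last _ _
    rw [this]
  exact key _ (top_prof hL _ _)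

/-- For every number `m + 1 ≥ 2` there are ratios arbitrarily close to `7 / 8` from above. -/
theorem exists_ratio (full : Bool) (hm : 0 < m) (η : ℝ) (hη : 0 < η) :
    ∃ r ∈ ratios full (m + 1), r ≤ 7 / 8 + η := by
  obtain ⟨L, hL⟩ := exists_nat_gt (max 0 ((4 + m) / (8 * η)))
  have hL0 : 0 < L := by
    have : (0 : ℝ) < L := lt_of_le_of_lt (le_max_left _ _) hL
    exact_mod_cast this
  have hL1 : (4 + m) / (8 * η) < (L : ℝ) := lt_of_le_of_lt (le_max_right _ _) hL
  obtain ⟨A, hA⟩ := exists_lookahead full (isDist_DD (m := m) hL0)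
  have hO := two_le_OPT (m := m) full hm hL0
  refine ⟨_, ⟨m + 2, DD m L, A, isDist_DD hL0, by linarith, hA, rfl⟩, ?_⟩
  rw [lookRevenue_DD hL0]
  have h1 := revenue_le full hm hL0 (A (KK m) fun _ => 1) (hA (KK m) fun _ => 1).1
  have hN := NN_pos hL0
  rw [div_le_iff₀ (by linarith)]
  have h2 : (4 + (m : ℝ)) / (2 * ((2 * L : ℕ) : ℝ)) ≤ 2 * η := by
    rw [div_lt_iff₀ (by positivity)] at hL1
    rw [div_le_iff₀ (by positivity)]
    push_cast
    nlinarith
  have h3 : (7 / 8 + η) * 2 ≤ (7 / 8 + η) * OPT full (DD m L) :=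
    mul_le_mul_of_nonneg_left hO (by linarith)
  linarith

theorem isGLB_rho (full : Bool) {k : ℕ} (hk : 2 ≤ k) :
    IsGLB (ratios full k) (rho full k) := by
  obtain ⟨m, rfl⟩ : ∃ m, k = m + 1 := ⟨k - 1, by omega⟩
  obtain ⟨r, hr, _⟩ := exists_ratio full (show 0 < m by omega) 1 one_pos
  exact isGLB_csInf ⟨r, hr⟩ (bddBelow_ratios full (m + 1))

theorem rho_le (full : Bool) {k : ℕ} (hk : 2 ≤ k) : rho full k ≤ 7 / 8 := by
  obtain ⟨m, rfl⟩ : ∃ m, k = m + 1 := ⟨k - 1, by omega⟩
  refine le_of_forall_pos_le_add fun η hη => ?_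
  obtain ⟨r, hr, h⟩ := exists_ratio full (show 0 < m by omega) η hη
  exact le_trans (csInf_le (bddBelow_ratios full (m + 1)) hr) h

end Pool.Agent.H672R2.Lookahead
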