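import Mathlib

set_option autoImplicit false

/-! A random access machine with natural number registers and two-dimensional arrays, programmed by
structured programs, with explicit running time. The only arithmetic is adding one and (truncated)
subtraction, so no number ever exceeds the largest number of the input and of the program by more
than the running time. -/

namespace Pool.Agent.H672R2.Ram

/-- Memory: registers `v x` and two-dimensional arrays `a r i j`. -/
@[ext]
structure Mem where
  /-- registers -/
  v : ℕ → ℕ
  /-- arrays -/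
  a : ℕ → ℕ → ℕ → ℕ

/-- Write `n` to register `x`. -/
def Mem.setV (m : Mem) (x n : ℕ) : Mem := ⟨fun y => if y = x then n else m.v y, m.a⟩

/-- Write `n` to entry `(i, j)` of array `r`. -/
def Mem.setA (m : Mem) (r i j n : ℕ) : Mem :=
  ⟨m.v, fun r' i' j' => if r' = r ∧ i' = i ∧ j' = j then n else m.a r' i' j'⟩

/-- Expressions. -/
inductive Expr where
  | lit (n : ℕ)
  | reg (x : ℕ)
  | succ (e : Expr)
  | sub (e f : Expr)
  | get (r : ℕ) (i j : Expr)

/-- Value of an expression. -/
def Expr.eval (m : Mem) : Expr → ℕ
  | .lit n => n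
  | .reg x => m.v x
  | .succ e => e.eval m + 1
  | .sub e f => e.eval m - f.eval m
  | .get r i j => m.a r (i.eval m) (j.eval m)

/-- Time to evaluate an expression: its number of symbols. -/
def Expr.cost : Expr → ℕ
  | .lit _ => 1
  | .reg _ => 1
  | .succ e => e.cost + 1
  | .sub e f => e.cost + f.cost + 1
  | .get _ i j => i.cost + j.cost + 1

/-- Tests. -/
inductive Test where
  | lt (e f : Expr)
  | eq (e f : Expr)
  | not (s : Test)
  | and (s t : Test)

/-- Truth of a test. -/
def Test.holds (m : Mem) : Test → Prop
  | .lt e f => e.eval m < f.eval m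
  | .eq e f => e.eval m = f.eval m
  | .not s => ¬ s.holds m
  | .and s t => s.holds m ∧ t.holds m

/-- Time to evaluate a test. -/
def Test.cost : Test → ℕ
  | .lt e f => e.cost + f.cost + 1
  | .eq e f => e.cost + f.cost + 1
  | .not s => s.cost + 1
  | .and s t => s.cost + t.cost + 1

/-- Programs. -/
inductive Prog where
  | skip
  | assign (x : ℕ) (e : Expr)
  | store (r : ℕ) (i j e : Expr)
  | seq (p q : Prog)
  | ite (t : Test) (p q : Prog)
  | loop (t : Test) (p : Prog)

/-- `Runs p m m' c`: program `p` started in memory `m` stops in memory `m'` after time `c`. -/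
inductive Runs : Prog → Mem → Mem → ℕ → Prop where
  | skip (m : Mem) : Runs .skip m m 1
  | assign (x : ℕ) (e : Expr) (m : Mem) :
      Runs (.assign x e) m (m.setV x (e.eval m)) (e.cost + 1)
  | store (r : ℕ) (i j e : Expr) (m : Mem) :
      Runs (.store r i j e) m (m.setA r (i.eval m) (j.eval m) (e.eval m))
        (i.cost + j.cost + e.cost + 1)
  | seq {p q : Prog} {m m' m'' : Mem} {c d : ℕ} :
      Runs p m m' c → Runs q m' m'' d → Runs (.seq p q) m m'' (c + d)
  | ite_true {t : Test} {p q : Prog} {m m' : Mem} {c : ℕ} :
      t.holds m → Runs p m m' c → Runs (.ite t p q) m m' (t.cost + c)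
  | ite_false {t : Test} {p q : Prog} {m m' : Mem} {c : ℕ} :
      ¬ t.holds m → Runs q m m' c → Runs (.ite t p q) m m' (t.cost + c)
  | loop_done {t : Test} {p : Prog} {m : Mem} :
      ¬ t.holds m → Runs (.loop t p) m m t.cost
  | loop_step {t : Test} {p : Prog} {m m' m'' : Mem} {c d : ℕ} :
      t.holds m → Runs p m m' c → Runs (.loop t p) m' m'' d →
      Runs (.loop t p) m m'' (t.cost + c + d)

end Pool.Agent.H672R2.Ram
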