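import Mathlib
import Pool.Agent.H672R2.Ram

set_option autoImplicit false

namespace Pool.Agent.H672R2.Ram

/-- The result of a program and its running time are unique. -/
theorem Runs.unique {p : Prog} {m m' : Mem} {c : ℕ} (h : Runs p m m' c) :
    ∀ {m'' : Mem} {d : ℕ}, Runs p m m'' d → m'' = m' ∧ d = c := by
  induction h with
  | skip m => intro m'' d h'; cases h'; exact ⟨rfl, rfl⟩
  | assign x e m => intro m'' d h'; cases h'; exact ⟨rfl, rfl⟩
  | store r i j e m => intro m'' d h'; cases h'; exact ⟨rfl, rfl⟩
  | seq _ _ ih1 ih2 =>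
    intro m'' d h'
    cases h' with
    | seq h1 h2 =>
      obtain ⟨e1, e2⟩ := ih1 h1
      subst e1 e2
      obtain ⟨e3, e4⟩ := ih2 h2
      subst e3 e4
      exact ⟨rfl, rfl⟩
  | ite_true ht _ ih =>
    intro m'' d h'
    cases h' with
    | ite_true _ h1 =>
      obtain ⟨e1, e2⟩ := ih h1
      subst e1 e2
      exact ⟨rfl, rfl⟩
    | ite_false hn _ => exact absurd ht hn
  | ite_false ht _ ih =>
    intro m'' d h'
    cases h' with
    | ite_true hn _ => exact absurd hn ht
    | ite_false _ h1 =>
      obtain ⟨e1, e2⟩ := ih h1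
      subst e1 e2
      exact ⟨rfl, rfl⟩
  | loop_done ht =>
    intro m'' d h'
    cases h' with
    | loop_done _ => exact ⟨rfl, rfl⟩
    | loop_step hn _ _ => exact absurd hn ht
  | loop_step ht _ _ ih1 ih2 =>
    intro m'' d h'
    cases h' with
    | loop_done hn => exact absurd ht hn
    | loop_step _ h1 h2 =>
      obtain ⟨e1, e2⟩ := ih1 h1
      subst e1 e2
      obtain ⟨e3, e4⟩ := ih2 h2
      subst e3 e4
      exact ⟨rfl, rfl⟩

@[simp] theorem setV_v (m : Mem) (x n y : ℕ) : (m.setV x n).v y = if y = x then n else m.v y := rfl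

@[simp] theorem setV_a (m : Mem) (x n : ℕ) : (m.setV x n).a = m.a := rfl

@[simp] theorem setA_v (m : Mem) (r i j n : ℕ) : (m.setA r i j n).v = m.v := rfl

@[simp] theorem setA_a (m : Mem) (r i j n r' i' j' : ℕ) :
    (m.setA r i j n).a r' i' j' = if r' = r ∧ i' = i ∧ j' = j then n else m.a r' i' j' := rfl

theorem setV_setV (m : Mem) (x n n' : ℕ) : (m.setV x n).setV x n' = m.setV x n' := by
  ext y
  · simp only [setV_v]; split_ifs <;> rfl
  · rfl

/-- Linear search: the least value of register `x` at which the test `t` fails. -/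
def search (x : ℕ) (t : Test) : Prog :=
  .seq (.assign x (.lit 0)) (.loop t (.assign x (.succ (.reg x))))

theorem search_runs (x : ℕ) (t : Test) (m : Mem) (N : ℕ)
    (hlt : ∀ j < N, t.holds (m.setV x j)) (hN : ¬ t.holds (m.setV x N)) :
    ∃ c, Runs (search x t) m (m.setV x N) c ∧ c ≤ (t.cost + 3) * (N + 1) := by
  have key : ∀ d j, j + d = N → Runs (.loop t (.assign x (.succ (.reg x)))) (m.setV x j)
      (m.setV x N) (d * (t.cost + 3) + t.cost) := by
    intro d
    induction d with
    | zero =>
      intro j hj
      have : j = N := by omega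
      subst this
      have := Runs.loop_done (p := .assign x (.succ (.reg x))) hN
      simpa using this
    | succ d ih =>
      intro j hj
      have h1 := hlt j (by omega)
      have h2 := Runs.assign x (.succ (.reg x)) (m.setV x j)
      have h3 : (m.setV x j).setV x ((Expr.succ (.reg x)).eval (m.setV x j)) =
          m.setV x (j + 1) := by
        rw [setV_setV]
        simp [Expr.eval]
      rw [h3] at h2
      have h4 := ih (j + 1) (by omega)
      have h5 := Runs.loop_step h1 h2 h4
      have h6 : t.cost + ((Expr.succ (.reg x)).cost + 1) + (d * (t.cost + 3) + t.cost) =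
          (d + 1) * (t.cost + 3) + t.cost := by
        simp only [Expr.cost]; ring
      rw [h6] at h5
      exact h5
  have h1 := key N 0 (by omega)
  have h2 := Runs.assign x (.lit 0) m
  have h3 := Runs.seq h2 h1
  refine ⟨_, h3, ?_⟩
  simp only [Expr.cost]
  ring_nf
  omega

end Pool.Agent.H672R2.Ram
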