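import Mathlib

set_option autoImplicit false

namespace Pool.Agent.H672R2.Spa

/-- An instance of the student-project allocation problem with lecturer preferences over students
and with lower quotas on the projects. -/
structure Inst where
  /-- number of students -/
  n1 : ℕ
  /-- number of projects -/
  n2 : ℕ
  /-- number of lecturers -/
  n3 : ℕ
  /-- the preference list of each student over her acceptable projects, best first -/
  pref : Fin n1 → List (Fin n2)
  /-- the lecturer offering each project -/
  lec : Fin n2 → Fin n3
  /-- the ranking list of each lecturer over students, best first -/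
  rank : Fin n3 → List (Fin n1)
  /-- capacity of each project -/
  cap : Fin n2 → ℕ
  /-- lower quota of each project -/
  low : Fin n2 → ℕ
  /-- capacity of each lecturer -/
  dcap : Fin n3 → ℕ
  pref_nodup : ∀ i, (pref i).Nodup
  lec_surj : Function.Surjective lec
  rank_nodup : ∀ k, (rank k).Nodup
  mem_rank : ∀ k i, i ∈ rank k ↔ ∃ j ∈ pref i, lec j = k
  cap_le : ∀ j, cap j ≤ dcap (lec j)
  dcap_le : ∀ k, dcap k ≤ ∑ j ∈ Finset.univ.filter (fun j => lec j = k), cap j

/-- Size of an instance: numbers of students, projects and lecturers plus the total length of all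
preference lists. -/
def Inst.size (I : Inst) : ℕ :=
  I.n1 + I.n2 + I.n3 + ∑ i, (I.pref i).length + ∑ k, (I.rank k).length

/-- An assignment of each student to at most one project. -/
abbrev Inst.Asg (I : Inst) : Type := Fin I.n1 → Option (Fin I.n2)

/-- The students assigned to project `j`. -/
def Inst.atP (I : Inst) (M : I.Asg) (j : Fin I.n2) : Finset (Fin I.n1) :=
  Finset.univ.filter fun i => M i = some j

/-- The students assigned to a project offered by lecturer `k`. -/
def Inst.atL (I : Inst) (M : I.Asg) (k : Fin I.n3) : Finset (Fin I.n1) :=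
  Finset.univ.filter fun i => ∃ j, M i = some j ∧ I.lec j = k

/-- `M` is a matching. -/
structure Inst.IsMatching (I : Inst) (M : I.Asg) : Prop where
  acceptable : ∀ i j, M i = some j → j ∈ I.pref i
  cap : ∀ j, (I.atP M j).card ≤ I.cap j
  dcap : ∀ k, (I.atL M k).card ≤ I.dcap k

/-- Student `i` prefers project `j` to her situation `o` (being unassigned, or a project). -/
def Inst.sPref (I : Inst) (i : Fin I.n1) (j : Fin I.n2) : Option (Fin I.n2) → Prop
  | none => True
  | some j' => (I.pref i).idxOf j < (I.pref i).idxOf j'

/-- Lecturer `k` prefers student `i` to student `i'`. -/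
def Inst.lPref (I : Inst) (k : Fin I.n3) (i i' : Fin I.n1) : Prop :=
  (I.rank k).idxOf i < (I.rank k).idxOf i'

/-- The pair `(i, j)` blocks `M`. -/
def Inst.Blocks (I : Inst) (M : I.Asg) (i : Fin I.n1) (j : Fin I.n2) : Prop :=
  j ∈ I.pref i ∧ M i ≠ some j ∧ I.sPref i j (M i) ∧
    (((I.atP M j).card < I.cap j ∧ (I.atL M (I.lec j)).card < I.dcap (I.lec j)) ∨
     ((I.atP M j).card < I.cap j ∧ (I.atL M (I.lec j)).card = I.dcap (I.lec j) ∧
        (i ∈ I.atL M (I.lec j) ∨ ∃ i' ∈ I.atL M (I.lec j), I.lPref (I.lec j) i i')) ∨
     ((I.atP M j).card = I.cap j ∧ ∃ i' ∈ I.atP M j, I.lPref (I.lec j) i i'))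

/-- `M` is a stable matching that respects all the lower quotas. -/
structure Inst.Good (I : Inst) (M : I.Asg) : Prop where
  matching : I.IsMatching M
  stable : ∀ i j, ¬ I.Blocks M i j
  lower : ∀ j, I.low j ≤ (I.atP M j).card

end Pool.Agent.H672R2.Spa
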