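import Mathlib
import Pool.Agent.H672R2.SpaDefs
import Pool.Agent.H672R2.Ram

set_option autoImplicit false

namespace Pool.Agent.H672R2.Spa

open Pool.Agent.H672R2.Ram

/-- Code of an optional project: `0` for none, `j + 1` for project `j`. -/
def code {n : ℕ} : Option (Fin n) → ℕ
  | none => 0
  | some j => (j : ℕ) + 1

/-- A function on `Fin n` stored as a column of natural numbers. -/
def column {n : ℕ} (f : Fin n → ℕ) (i j : ℕ) : ℕ :=
  if h : i < n ∧ j = 0 then f ⟨i, h.1⟩ else 0

/-- A family of lists of indices stored as the rows of an array. -/
def rows {n k : ℕ} (f : Fin n → List (Fin k)) (i t : ℕ) : ℕ :=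
  if h : i < n then ((f ⟨i, h⟩)[t]?.map Fin.val).getD 0 else 0

/-- The input memory of an instance. Registers `0, 1, 2` hold the numbers of students, projects
and lecturers; array `0` the lengths of the students' lists, array `1` these lists, array `2` the
lecturer of each project, array `3` the lengths of the lecturers' lists, array `4` these lists,
arrays `5, 6, 7` the capacities and lower quotas of the projects and the capacities of the
lecturers; everything else is `0`. -/
def encode (I : Inst) : Mem where
  v x := if x = 0 then I.n1 else if x = 1 then I.n2 else if x = 2 then I.n3 else 0
  a r :=
    if r = 0 then column (fun i => (I.pref i).length)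
    else if r = 1 then rows I.pref
    else if r = 2 then column (fun j => (I.lec j : ℕ))
    else if r = 3 then column (fun k => (I.rank k).length)
    else if r = 4 then rows I.rank
    else if r = 5 then column I.cap
    else if r = 6 then column I.low
    else if r = 7 then column I.dcap
    else fun _ _ => 0

end Pool.Agent.H672R2.Spa
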