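import Mathlib
import Pool.Agent.H672R2.SpaDefs

set_option autoImplicit false

namespace Pool.Agent.H672R2.Spa

variable {I : Inst}

theorem mem_atP {M : I.Asg} {j : Fin I.n2} {i : Fin I.n1} : i ∈ I.atP M j ↔ M i = some j := by
  simp [Inst.atP]

theorem mem_atL {M : I.Asg} {k : Fin I.n3} {i : Fin I.n1} :
    i ∈ I.atL M k ↔ ∃ j, M i = some j ∧ I.lec j = k := by
  simp [Inst.atL]

theorem atP_subset_atL (M : I.Asg) (j : Fin I.n2) : I.atP M j ⊆ I.atL M (I.lec j) := by
  intro i hi
  exact mem_atL.mpr ⟨j, mem_atP.mp hi, rfl⟩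

/-- The projects of a lecturer. -/
def projs (I : Inst) (k : Fin I.n3) : Finset (Fin I.n2) := Finset.univ.filter fun j => I.lec j = k

theorem mem_projs {k : Fin I.n3} {j : Fin I.n2} : j ∈ projs I k ↔ I.lec j = k := by
  simp [projs]

theorem card_atL (M : I.Asg) (k : Fin I.n3) :
    (I.atL M k).card = ∑ j ∈ projs I k, (I.atP M j).card := by
  rw [← Finset.card_biUnion]
  · congr 1
    ext i
    rw [mem_atL, Finset.mem_biUnion]
    constructor
    · rintro ⟨j, h1, h2⟩
      exact ⟨j, mem_projs.mpr h2, mem_atP.mpr h1⟩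
    · rintro ⟨j, h1, h2⟩
      exact ⟨j, mem_atP.mp h2, mem_projs.mp h1⟩
  · intro j _ j' _ hjj'
    rw [Function.onFun, Finset.disjoint_left]
    intro i h1 h2
    rw [mem_atP] at h1 h2
    rw [h1] at h2
    exact hjj' (Option.some_injective _ h2)

/-- The assigned students. -/
def assigned (M : I.Asg) : Finset (Fin I.n1) := Finset.univ.filter fun i => M i ≠ none

theorem mem_assigned {M : I.Asg} {i : Fin I.n1} : i ∈ assigned M ↔ M i ≠ none := by
  simp [assigned]

theorem card_assigned (M : I.Asg) : (assigned M).card = ∑ k, (I.atL M k).card := by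
  rw [← Finset.card_biUnion]
  · congr 1
    ext i
    rw [mem_assigned, Finset.mem_biUnion]
    constructor
    · intro h
      obtain ⟨j, hj⟩ := Option.ne_none_iff_exists'.mp h
      exact ⟨I.lec j, Finset.mem_univ _, mem_atL.mpr ⟨j, hj, rfl⟩⟩
    · rintro ⟨k, _, h2⟩
      obtain ⟨j, h3, _⟩ := mem_atL.mp h2
      rw [h3]; simp
  · intro k _ k' _ hkk'
    rw [Function.onFun, Finset.disjoint_left]
    intro i h1 h2
    obtain ⟨j, h3, h4⟩ := mem_atL.mp h1
    obtain ⟨j', h5, h6⟩ := mem_atL.mp h2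
    rw [h3] at h5
    have := Option.some_injective _ h5
    subst this
    exact hkk' (h4.symm.trans h6)

/-- Position of student `i` in the list of lecturer `k`, counted from the end (the worst student has
score `0`). -/
def sc (I : Inst) (k : Fin I.n3) (i : Fin I.n1) : ℕ := (I.rank k).length - 1 - (I.rank k).idxOf i

theorem sc_lt {k : Fin I.n3} {i : Fin I.n1} (h : i ∈ I.rank k) : sc I k i < (I.rank k).length := by
  have := List.idxOf_lt_length_iff.mpr h
  unfold sc; omega

theorem lPref_iff {k : Fin I.n3} {i i' : Fin I.n1} (h : i ∈ I.rank k) (h' : i' ∈ I.rank k) :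
    I.lPref k i i' ↔ sc I k i' < sc I k i := by
  have h1 := List.idxOf_lt_length_iff.mpr h
  have h2 := List.idxOf_lt_length_iff.mpr h'
  unfold Inst.lPref sc
  omega

theorem sc_injective {k : Fin I.n3} {i i' : Fin I.n1} (h : i ∈ I.rank k) (h' : i' ∈ I.rank k)
    (he : sc I k i = sc I k i') : i = i' := by
  have h1 := List.idxOf_lt_length_iff.mpr h
  have h2 := List.idxOf_lt_length_iff.mpr h'
  unfold sc at he
  have h3 : (I.rank k).idxOf i = (I.rank k).idxOf i' := by omega
  exact (List.idxOf_inj h).mp h3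

/-- What it means for a pair not to block a stable matching. -/
theorem nonblock {M : I.Asg} (hM : I.IsMatching M) (hS : ∀ i j, ¬ I.Blocks M i j)
    {i : Fin I.n1} {j : Fin I.n2} (hj : j ∈ I.pref i) (hne : M i ≠ some j)
    (hp : I.sPref i j (M i)) :
    ((I.atP M j).card = I.cap j ∧ ∀ i' ∈ I.atP M j, sc I (I.lec j) i < sc I (I.lec j) i') ∨
    ((I.atP M j).card < I.cap j ∧ (I.atL M (I.lec j)).card = I.dcap (I.lec j) ∧
      ∀ i' ∈ I.atL M (I.lec j), sc I (I.lec j) i < sc I (I.lec j) i') := by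
  have hb := hS i j
  unfold Inst.Blocks at hb
  have hir : i ∈ I.rank (I.lec j) := (I.mem_rank _ _).mpr ⟨j, hj, rfl⟩
  have hr : ∀ i' ∈ I.atL M (I.lec j), i' ∈ I.rank (I.lec j) := by
    intro i' hi'
    obtain ⟨j', h1, h2⟩ := mem_atL.mp hi'
    exact (I.mem_rank _ _).mpr ⟨j', hM.acceptable _ _ h1, h2⟩
  have hcap := hM.cap j
  have hd := hM.dcap (I.lec j)
  push Not at hb
  obtain ⟨h1, h2, h3⟩ := hb hj hne hp
  rcases Nat.lt_or_ge (I.atP M j).card (I.cap j) with hlt | hge
  · right
    have hfull : (I.atL M (I.lec j)).card = I.dcap (I.lec j) := le_antisymm hd (h1 hlt)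
    obtain ⟨h4, h5⟩ := h2 hlt hfull
    refine ⟨hlt, hfull, fun i' hi' => ?_⟩
    have h6 := h5 i' hi'
    have hi'r := hr i' hi'
    rw [lPref_iff hir hi'r] at h6
    have hne' : i ≠ i' := by rintro rfl; exact h4 hi'
    have h7 : sc I (I.lec j) i ≠ sc I (I.lec j) i' := fun h => hne' (sc_injective hir hi'r h)
    omega
  · left
    have hfull : (I.atP M j).card = I.cap j := le_antisymm hcap hge
    refine ⟨hfull, fun i' hi' => ?_⟩
    have h6 := h3 hfull i' hi'
    have hi'r := hr i' (atP_subset_atL M j hi')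
    rw [lPref_iff hir hi'r] at h6
    have hne' : i ≠ i' := by
      rintro rfl
      exact hne (mem_atP.mp hi')
    have h7 : sc I (I.lec j) i ≠ sc I (I.lec j) i' := fun h => hne' (sc_injective hir hi'r h)
    omega

/-- All pointers of the assigned students are at their projects. -/
def AtPtr (asg : I.Asg) (ptr : Fin I.n1 → ℕ) : Prop :=
  ∀ i j, asg i = some j → j ∈ I.pref i ∧ (I.pref i).idxOf j = ptr i

/-- No pointer has passed the project of the student in `M`. -/
def Ahead (M : I.Asg) (ptr : Fin I.n1 → ℕ) : Prop :=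
  ∀ i j, M i = some j → ptr i ≤ (I.pref i).idxOf j

theorem sPref_of_ahead {M asg : I.Asg} {ptr : Fin I.n1 → ℕ} (hM : I.IsMatching M)
    (ha : AtPtr asg ptr) (hA : Ahead M ptr) {i : Fin I.n1} {j : Fin I.n2} (h : asg i = some j)
    (hne : M i ≠ some j) : I.sPref i j (M i) := by
  obtain ⟨h1, h2⟩ := ha i j h
  cases hMi : M i with
  | none => exact True.intro
  | some j' =>
    unfold Inst.sPref
    have h3 := hA i j' hMi
    have h4 : (I.pref i).idxOf j ≠ (I.pref i).idxOf j' := by
      intro h5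
      have := (List.idxOf_inj h1).mp h5
      rw [hMi] at hne
      exact hne (by rw [this])
    omega

theorem exists_of_card_lt {α : Type} [DecidableEq α] {s t : Finset α} (h : s.card < t.card) :
    ∃ x ∈ t, x ∉ s := by
  by_contra hc
  push Not at hc
  exact absurd (Finset.card_le_card hc) (not_le.mpr h)

/-- Rejection from an oversubscribed project. -/
theorem reject_project {M asg : I.Asg} {ptr : Fin I.n1 → ℕ} (hG : I.Good M)
    (ha : AtPtr asg ptr) (hA : Ahead M ptr) {j : Fin I.n2}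
    (hover : I.cap j < (I.atP asg j).card) {u : Fin I.n1} (hu : asg u = some j)
    (hmin : ∀ i ∈ I.atP asg j, sc I (I.lec j) u ≤ sc I (I.lec j) i) : M u ≠ some j := by
  intro hMu
  obtain ⟨s, hs1, hs2⟩ := exists_of_card_lt (lt_of_le_of_lt (hG.matching.cap j) hover)
  rw [mem_atP] at hs1 hs2
  have hp := sPref_of_ahead hG.matching ha hA hs1 hs2
  have hmem := (ha s j hs1).1
  have hle := hmin s (mem_atP.mpr hs1)
  rcases nonblock hG.matching hG.stable hmem hs2 hp with ⟨_, h⟩ | ⟨_, _, h⟩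
  · have := h u (mem_atP.mpr hMu); omega
  · have := h u (mem_atL.mpr ⟨j, hMu, rfl⟩); omega

/-- A strict comparison of two sums of the same index set. -/
theorem exists_lt_of_sum {α : Type} {s : Finset α} {f g : α → ℕ}
    (h : ∑ x ∈ s, f x < ∑ x ∈ s, g x) : ∃ x ∈ s, f x < g x := by
  by_contra hc
  push Not at hc
  exact absurd (Finset.sum_le_sum hc) (not_le.mpr h)

/-- Rejection from an oversubscribed lecturer. -/
theorem reject_lecturer {M asg : I.Asg} {ptr : Fin I.n1 → ℕ} (hG : I.Good M)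
    (ha : AtPtr asg ptr) (hA : Ahead M ptr) {k : Fin I.n3}
    (hover : I.dcap k < (I.atL asg k).card)
    (hcap : ∀ j, I.lec j = k → (I.atP asg j).card ≤ I.cap j) {u : Fin I.n1} {j : Fin I.n2}
    (hu : asg u = some j) (hjk : I.lec j = k)
    (hmin : ∀ i ∈ I.atL asg k, sc I k u ≤ sc I k i) : M u ≠ some j := by
  intro hMu
  have h1 : ∑ j ∈ projs I k, (I.atP M j).card < ∑ j ∈ projs I k, (I.atP asg j).card := by
    rw [← card_atL, ← card_atL]
    exact lt_of_le_of_lt (hG.matching.dcap k) hover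
  obtain ⟨j', hj', hlt⟩ := exists_lt_of_sum h1
  rw [mem_projs] at hj'
  obtain ⟨s, hs1, hs2⟩ := exists_of_card_lt hlt
  rw [mem_atP] at hs1 hs2
  have hp := sPref_of_ahead hG.matching ha hA hs1 hs2
  have hmem := (ha s j' hs1).1
  have hle := hmin s (mem_atL.mpr ⟨j', hs1, hj'⟩)
  have hc := hcap j' hj'
  rcases nonblock hG.matching hG.stable hmem hs2 hp with ⟨h, _⟩ | ⟨_, _, h⟩
  · omega
  · rw [hj'] at h
    have := h u (mem_atL.mpr ⟨j, hMu, hjk⟩); omega

/-- No student is free: the unassigned ones have exhausted their lists. -/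
def NoFree (asg : I.Asg) (ptr : Fin I.n1 → ℕ) : Prop :=
  ∀ i, asg i = none → (I.pref i).length ≤ ptr i

section Counting

variable {M asg : I.Asg} {ptr : Fin I.n1 → ℕ}

theorem count_le (hG : I.Good M) (ha : AtPtr asg ptr) (hA : Ahead M ptr)
    (hm : I.IsMatching asg) {k : Fin I.n3} (hk : (I.atL M k).card < I.dcap k) :
    ∀ j ∈ projs I k, (I.atP asg j).card ≤ (I.atP M j).card := by
  intro j hj
  rw [mem_projs] at hj
  by_contra hc
  push Not at hc
  obtain ⟨s, hs1, hs2⟩ := exists_of_card_lt hc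
  rw [mem_atP] at hs1 hs2
  have hp := sPref_of_ahead hG.matching ha hA hs1 hs2
  have hmem := (ha s j hs1).1
  have hcap := hm.cap j
  rcases nonblock hG.matching hG.stable hmem hs2 hp with ⟨h, _⟩ | ⟨_, h, _⟩
  · omega
  · rw [hj] at h; omega

theorem countL_le (hG : I.Good M) (ha : AtPtr asg ptr) (hA : Ahead M ptr)
    (hm : I.IsMatching asg) (k : Fin I.n3) : (I.atL asg k).card ≤ (I.atL M k).card := by
  rcases Nat.lt_or_ge (I.atL M k).card (I.dcap k) with hlt | hge
  · rw [card_atL, card_atL]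
    exact Finset.sum_le_sum (count_le hG ha hA hm hlt)
  · exact le_trans (hm.dcap k) hge

theorem countL_eq (hG : I.Good M) (ha : AtPtr asg ptr) (hA : Ahead M ptr)
    (hm : I.IsMatching asg) (hf : NoFree asg ptr) (k : Fin I.n3) :
    (I.atL asg k).card = (I.atL M k).card := by
  have h1 : (assigned M).card ≤ (assigned asg).card := by
    refine Finset.card_le_card fun i hi => ?_
    rw [mem_assigned] at hi ⊢
    intro hnone
    obtain ⟨j, hj⟩ := Option.ne_none_iff_exists'.mp hi
    have h2 := hf i hnone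
    have h3 := hA i j hj
    have h4 := List.idxOf_lt_length_iff.mpr (hG.matching.acceptable i j hj)
    omega
  rw [card_assigned, card_assigned] at h1
  have h2 : ∀ k ∈ (Finset.univ : Finset (Fin I.n3)), (I.atL asg k).card ≤ (I.atL M k).card :=
    fun k _ => countL_le hG ha hA hm k
  have h3 := le_antisymm (Finset.sum_le_sum h2) h1
  exact (Finset.sum_eq_sum_iff_of_le h2).mp h3 k (Finset.mem_univ k)

theorem countP_eq (hG : I.Good M) (ha : AtPtr asg ptr) (hA : Ahead M ptr)
    (hm : I.IsMatching asg) (hf : NoFree asg ptr) {j : Fin I.n2}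
    (hk : (I.atL asg (I.lec j)).card < I.dcap (I.lec j)) :
    (I.atP asg j).card = (I.atP M j).card := by
  have h0 := countL_eq hG ha hA hm hf (I.lec j)
  have h1 := count_le hG ha hA hm (k := I.lec j) (by omega)
  rw [card_atL, card_atL] at h0
  exact (Finset.sum_eq_sum_iff_of_le h1).mp h0 j (mem_projs.mpr rfl)

/-- The key fact behind forced rejections. -/
theorem force (hG : I.Good M) (ha : AtPtr asg ptr) (hA : Ahead M ptr)
    (hm : I.IsMatching asg) (hf : NoFree asg ptr) {j : Fin I.n2}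
    (hfull : (I.atL asg (I.lec j)).card = I.dcap (I.lec j))
    (hlow : (I.atP asg j).card < I.low j) {u : Fin I.n1}
    (hmin : ∀ i ∈ I.atL asg (I.lec j), sc I (I.lec j) u ≤ sc I (I.lec j) i) :
    (I.atL M (I.lec j)).card = I.dcap (I.lec j) ∧
      ∀ i ∈ I.atL M (I.lec j), sc I (I.lec j) u < sc I (I.lec j) i := by
  have h0 := countL_eq hG ha hA hm hf (I.lec j)
  refine ⟨by omega, ?_⟩
  have h1 : ∃ j' ∈ projs I (I.lec j), (I.atP M j').card < (I.atP asg j').card := by
    by_contra hc
    push Not at hc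
    rw [card_atL, card_atL] at h0
    have h2 := (Finset.sum_eq_sum_iff_of_le hc).mp h0 j (mem_projs.mpr rfl)
    have h3 := hG.lower j
    omega
  obtain ⟨j', hj', hlt⟩ := h1
  rw [mem_projs] at hj'
  obtain ⟨s, hs1, hs2⟩ := exists_of_card_lt hlt
  rw [mem_atP] at hs1 hs2
  have hp := sPref_of_ahead hG.matching ha hA hs1 hs2
  have hmem := (ha s j' hs1).1
  have hcap := hm.cap j'
  have hle := hmin s (mem_atL.mpr ⟨j', hs1, hj'⟩)
  rcases nonblock hG.matching hG.stable hmem hs2 hp with ⟨h, _⟩ | ⟨_, _, h⟩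
  · omega
  · rw [hj'] at h
    intro i hi
    have := h i hi
    omega

end Counting

/-- A rejected pair `(i, j)` is harmless. -/
def Rej (asg : I.Asg) (exc : Fin I.n3 → ℕ) (i : Fin I.n1) (j : Fin I.n2) : Prop :=
  sc I (I.lec j) i < exc (I.lec j) ∨
  ((I.atP asg j).card = I.cap j ∧ ∀ i' ∈ I.atP asg j, sc I (I.lec j) i < sc I (I.lec j) i') ∨
  ((I.atL asg (I.lec j)).card = I.dcap (I.lec j) ∧
    ∀ i' ∈ I.atL asg (I.lec j), sc I (I.lec j) i < sc I (I.lec j) i')

/-- The invariant of the algorithm. -/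
structure Inv (I : Inst) (asg : I.Asg) (ptr : Fin I.n1 → ℕ) (exc : Fin I.n3 → ℕ) : Prop where
  matching : I.IsMatching asg
  ptr_le : ∀ i, ptr i ≤ (I.pref i).length
  atPtr : AtPtr asg ptr
  exc_le : ∀ i j, asg i = some j → exc (I.lec j) ≤ sc I (I.lec j) i
  ahead : ∀ M, I.Good M → Ahead M ptr
  exc_good : ∀ M, I.Good M → ∀ i j, M i = some j → exc (I.lec j) ≤ sc I (I.lec j) i
  full_good : ∀ M, I.Good M → ∀ k, 0 < exc k → (I.atL M k).card = I.dcap k
  rej : ∀ i j, j ∈ I.pref i → (I.pref i).idxOf j < ptr i → Rej asg exc i j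

theorem inv_init : Inv I (fun _ => none) (fun _ => 0) (fun _ => 0) where
  matching := ⟨fun _ _ h => by simp at h, fun _ => by simp [Inst.atP], fun _ => by simp [Inst.atL]⟩
  ptr_le := fun _ => Nat.zero_le _
  atPtr := fun _ _ h => by simp at h
  exc_le := fun _ _ _ => Nat.zero_le _
  ahead := fun _ _ _ _ _ => Nat.zero_le _
  exc_good := fun _ _ _ _ _ => Nat.zero_le _
  full_good := fun _ _ _ h => by simp at h
  rej := fun _ _ _ h => by simp at h

/-- Failure, first kind. -/
theorem fail_low {asg : I.Asg} {ptr : Fin I.n1 → ℕ} {exc : Fin I.n3 → ℕ}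
    (h : Inv I asg ptr exc) (hf : NoFree asg ptr) {j : Fin I.n2}
    (hlow : (I.atP asg j).card < I.low j)
    (hk : (I.atL asg (I.lec j)).card < I.dcap (I.lec j) ∨ (I.atL asg (I.lec j)).card = 0) :
    ¬ ∃ M, I.Good M := by
  rintro ⟨M, hG⟩
  have h1 := hG.lower j
  rcases hk with hk | hk
  · have h2 := countP_eq hG h.atPtr (h.ahead M hG) h.matching hf hk
    omega
  · have h2 := countL_eq hG h.atPtr (h.ahead M hG) h.matching hf (I.lec j)
    have h3 := Finset.card_le_card (atP_subset_atL M j)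
    omega

/-- Failure, second kind. -/
theorem fail_exc {asg : I.Asg} {ptr : Fin I.n1 → ℕ} {exc : Fin I.n3 → ℕ}
    (h : Inv I asg ptr exc) (hf : NoFree asg ptr) {k : Fin I.n3} (he : 0 < exc k)
    (hk : (I.atL asg k).card < I.dcap k) : ¬ ∃ M, I.Good M := by
  rintro ⟨M, hG⟩
  have h2 := countL_eq hG h.atPtr (h.ahead M hG) h.matching hf k
  have h3 := h.full_good M hG k he
  omega

/-- Success. -/
theorem success {asg : I.Asg} {ptr : Fin I.n1 → ℕ} {exc : Fin I.n3 → ℕ}
    (h : Inv I asg ptr exc) (hf : NoFree asg ptr)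
    (hlow : ∀ j, I.low j ≤ (I.atP asg j).card)
    (hexc : ∀ k, exc k = 0 ∨ I.dcap k ≤ (I.atL asg k).card) : I.Good asg := by
  refine ⟨h.matching, ?_, hlow⟩
  rintro i j ⟨hj, hne, hp, hb⟩
  have hir : i ∈ I.rank (I.lec j) := (I.mem_rank _ _).mpr ⟨j, hj, rfl⟩
  have hr : ∀ i' ∈ I.atL asg (I.lec j), i' ∈ I.rank (I.lec j) := by
    intro i' hi'
    obtain ⟨j', h1, h2⟩ := mem_atL.mp hi'
    exact (I.mem_rank _ _).mpr ⟨j', h.matching.acceptable _ _ h1, h2⟩
  have hlt : (I.pref i).idxOf j < ptr i := by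
    cases ho : asg i with
    | none =>
      have h1 := hf i ho
      have h2 := List.idxOf_lt_length_iff.mpr hj
      omega
    | some j' =>
      rw [ho] at hp
      have h1 := (h.atPtr i j' ho).2
      unfold Inst.sPref at hp
      omega
  -- the lecturer is full with better students
  have key : ((I.atP asg j).card = I.cap j ∧
      ∀ i' ∈ I.atP asg j, sc I (I.lec j) i < sc I (I.lec j) i') ∨
      ((I.atL asg (I.lec j)).card = I.dcap (I.lec j) ∧
        ∀ i' ∈ I.atL asg (I.lec j), sc I (I.lec j) i < sc I (I.lec j) i') := by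
    rcases h.rej i j hj hlt with h1 | h1 | h1
    · right
      rcases hexc (I.lec j) with h2 | h2
      · omega
      · refine ⟨le_antisymm (h.matching.dcap _) h2, fun i' hi' => ?_⟩
        obtain ⟨j', h3, h4⟩ := mem_atL.mp hi'
        have h5 := h.exc_le i' j' h3
        rw [h4] at h5
        omega
    · left; exact h1
    · right; exact h1
  rcases key with ⟨h1, h2⟩ | ⟨h1, h2⟩
  · rcases hb with ⟨h3, _⟩ | ⟨h3, _⟩ | ⟨_, i', h4, h5⟩
    · omega
    · omega
    · rw [lPref_iff hir (hr i' (atP_subset_atL asg j h4))] at h5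
      have := h2 i' h4
      omega
  · rcases hb with ⟨_, h3⟩ | ⟨_, _, h3⟩ | ⟨_, i', h4, h5⟩
    · omega
    · rcases h3 with h3 | ⟨i', h4, h5⟩
      · have := h2 i h3; omega
      · rw [lPref_iff hir (hr i' h4)] at h5
        have := h2 i' h4
        omega
    · rw [lPref_iff hir (hr i' (atP_subset_atL asg j h4))] at h5
      have := h2 i' (atP_subset_atL asg j h4)
      omega

end Pool.Agent.H672R2.Spa
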