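import Mathlib
import Pool.Agent.H672R2.SpaDefs
import Pool.Agent.H672R2.Ram
import Pool.Agent.H672R2.SpaEnc

set_option autoImplicit false

namespace Pool.Agent.H672R2.Spa

open Pool.Agent.H672R2.Ram

/-- Entry `e` of the one-dimensional array `r`. -/
def at0 (r : ℕ) (e : Expr) : Expr := .get r e (.lit 0)

/-- Student at position `r` (register `7`, counted from the end) of the list of lecturer `l`
(register `6`). -/
def stud : Expr := .get 4 (.reg 6) (.sub (.sub (at0 3 (.reg 6)) (.lit 1)) (.reg 7))

/-- Does student `i` (register `4`) have a project, or an exhausted list? -/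
def busy : Test := .not (.and (.eq (at0 8 (.reg 4)) (.lit 0))
  (.lt (at0 9 (.reg 4)) (at0 0 (.reg 4))))

/-- Continue the search for the position of student `i` in the list of lecturer `l`. -/
def tPos : Test := .not (.eq stud (.reg 4))

/-- Continue the search for the worst student of project `p` (register `5`). -/
def tWorstP : Test := .not (.eq (at0 8 stud) (.succ (.reg 5)))

/-- Continue the search for the worst student of lecturer `l`. -/
def tWorstL : Test := .not (.and (.lt (.lit 0) (at0 8 stud))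
  (.eq (at0 2 (.sub (at0 8 stud) (.lit 1))) (.reg 6)))

/-- Remove student `stud` from her project and advance her pointer. -/
def remove : Prog :=
  .seq (.assign 8 stud) <|
  .seq (.assign 11 (.sub (at0 8 (.reg 8)) (.lit 1))) <|
  .seq (.store 8 (.reg 8) (.lit 0) (.lit 0)) <|
  .seq (.store 9 (.reg 8) (.lit 0) (.succ (at0 9 (.reg 8)))) <|
  .seq (.store 10 (.reg 11) (.lit 0) (.sub (at0 10 (.reg 11)) (.lit 1))) <|
  .store 11 (.reg 6) (.lit 0) (.sub (at0 11 (.reg 6)) (.lit 1))

/-- Give project `p` to student `i`. -/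
def assignP : Prog :=
  .seq (.store 8 (.reg 4) (.lit 0) (.succ (.reg 5))) <|
  .seq (.store 10 (.reg 5) (.lit 0) (.succ (at0 10 (.reg 5)))) <|
  .store 11 (.reg 6) (.lit 0) (.succ (at0 11 (.reg 6)))

/-- Linear search. -/
def find (x : ℕ) (t : Test) : Prog :=
  .seq (.assign x (.lit 0)) (.loop t (.assign x (.succ (.reg x))))

/-- Process the proposal of the free student `i`. -/
def propose : Prog :=
  .seq (.assign 5 (.get 1 (.reg 4) (at0 9 (.reg 4)))) <|
  .seq (.assign 6 (at0 2 (.reg 5))) <|
  .seq (find 7 tPos) <|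
  .ite (.lt (.reg 7) (at0 12 (.reg 6)))
    (.store 9 (.reg 4) (.lit 0) (.succ (at0 9 (.reg 4))))
    (.seq assignP <|
      .ite (.lt (at0 5 (.reg 5)) (at0 10 (.reg 5)))
        (.seq (find 7 tWorstP) remove)
        (.ite (.lt (at0 7 (.reg 6)) (at0 11 (.reg 6)))
          (.seq (find 7 tWorstL) remove)
          .skip))

/-- The project `j` (register `9`) misses its lower quota. -/
def forceP : Prog :=
  .seq (.assign 6 (at0 2 (.reg 9))) <|
  .ite (.lt (at0 11 (.reg 6)) (at0 7 (.reg 6)))
    (.assign 3 (.lit 1))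
    (.ite (.eq (at0 11 (.reg 6)) (.lit 0))
      (.assign 3 (.lit 1))
      (.seq (find 7 tWorstL) <|
        .seq (.store 12 (.reg 6) (.lit 0) (.succ (.reg 7))) remove))

/-- No student is free. -/
def check : Prog :=
  .seq (find 9 (.and (.lt (.reg 9) (.reg 1)) (.not (.lt (at0 10 (.reg 9)) (at0 6 (.reg 9)))))) <|
  .ite (.lt (.reg 9) (.reg 1)) forceP
    (.seq (find 10 (.and (.lt (.reg 10) (.reg 2))
        (.not (.and (.lt (.lit 0) (at0 12 (.reg 10))) (.lt (at0 11 (.reg 10)) (at0 7 (.reg 10)))))))
      (.ite (.lt (.reg 10) (.reg 2)) (.assign 3 (.lit 1)) (.assign 3 (.lit 2))))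

/-- One round. -/
def body : Prog :=
  .seq (find 4 (.and (.lt (.reg 4) (.reg 0)) busy)) <|
  .ite (.lt (.reg 4) (.reg 0)) propose check

/-- The whole algorithm. -/
def algo : Prog := .loop (.eq (.reg 3) (.lit 0)) body

end Pool.Agent.H672R2.Spa
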