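import Mathlib
import Pool.Agent.H672R2.SpaDefs
import Pool.Agent.H672R2.SpaInv

set_option autoImplicit false

namespace Pool.Agent.H672R2.Spa

variable {I : Inst}

open Function

theorem atP_set {asg : I.Asg} {i : Fin I.n1} (h : asg i = none) (p j : Fin I.n2) :
    I.atP (update asg i (some p)) j = if p = j then insert i (I.atP asg j) else I.atP asg j := by
  ext x
  by_cases hx : x = i
  · subst hx
    rw [mem_atP, update_self]
    split_ifs with hp
    · simp [hp]
    · simp only [Option.some.injEq, hp, false_iff, mem_atP, h]
      simp
  · rw [mem_atP, update_of_ne hx]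
    split_ifs with hp
    · rw [Finset.mem_insert, mem_atP]; simp [hx]
    · rw [mem_atP]

theorem atL_set {asg : I.Asg} {i : Fin I.n1} (h : asg i = none) (p : Fin I.n2) (k : Fin I.n3) :
    I.atL (update asg i (some p)) k =
      if I.lec p = k then insert i (I.atL asg k) else I.atL asg k := by
  ext x
  by_cases hx : x = i
  · subst hx
    rw [mem_atL, update_self]
    split_ifs with hp
    · simp [hp]
    · rw [mem_atL, h]
      simp [hp]
  · rw [mem_atL, update_of_ne hx]
    split_ifs with hp
    · rw [Finset.mem_insert, mem_atL]; simp [hx]
    · rw [mem_atL]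

theorem atP_clear (asg : I.Asg) (u : Fin I.n1) (j : Fin I.n2) :
    I.atP (update asg u none) j = (I.atP asg j).erase u := by
  ext x
  by_cases hx : x = u
  · subst hx
    simp [mem_atP]
  · rw [mem_atP, update_of_ne hx, Finset.mem_erase, mem_atP]; simp [hx]

theorem atL_clear (asg : I.Asg) (u : Fin I.n1) (k : Fin I.n3) :
    I.atL (update asg u none) k = (I.atL asg k).erase u := by
  ext x
  by_cases hx : x = u
  · subst hx
    simp [mem_atL]
  · rw [mem_atL, update_of_ne hx, Finset.mem_erase, mem_atL]; simp [hx]

theorem not_mem_atP {asg : I.Asg} {i : Fin I.n1} (h : asg i = none) (j : Fin I.n2) :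
    i ∉ I.atP asg j := by
  rw [mem_atP, h]; simp

theorem not_mem_atL {asg : I.Asg} {i : Fin I.n1} (h : asg i = none) (k : Fin I.n3) :
    i ∉ I.atL asg k := by
  rw [mem_atL, h]; simp

section Steps

variable {asg : I.Asg} {ptr : Fin I.n1 → ℕ} {exc : Fin I.n3 → ℕ}

theorem mem_rank_of (h : Inv I asg ptr exc) {i : Fin I.n1} {j : Fin I.n2} (hi : asg i = some j) :
    i ∈ I.rank (I.lec j) :=
  (I.mem_rank _ _).mpr ⟨j, h.matching.acceptable i j hi, rfl⟩

theorem mem_rank_atL (h : Inv I asg ptr exc) {i : Fin I.n1} {k : Fin I.n3}
    (hi : i ∈ I.atL asg k) : i ∈ I.rank k := by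
  obtain ⟨j, h1, h2⟩ := mem_atL.mp hi
  rw [← h2]
  exact mem_rank_of h h1

/-- The pointer of the free student `i` is at `p`. -/
structure Prop1 (I : Inst) (asg : I.Asg) (ptr : Fin I.n1 → ℕ) (i : Fin I.n1) (p : Fin I.n2) :
    Prop where
  free : asg i = none
  mem : p ∈ I.pref i
  idx : (I.pref i).idxOf p = ptr i

theorem inv_exclude (h : Inv I asg ptr exc) {i : Fin I.n1} {p : Fin I.n2}
    (hp : Prop1 I asg ptr i p) (hex : sc I (I.lec p) i < exc (I.lec p)) :
    Inv I asg (update ptr i (ptr i + 1)) exc where
  matching := h.matching
  ptr_le := by
    intro x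
    by_cases hx : x = i
    · subst hx
      rw [update_self]
      have := List.idxOf_lt_length_iff.mpr hp.mem
      have := hp.idx
      omega
    · rw [update_of_ne hx]; exact h.ptr_le x
  atPtr := by
    intro x j hx
    have hne : x ≠ i := by rintro rfl; rw [hp.free] at hx; simp at hx
    rw [update_of_ne hne]
    exact h.atPtr x j hx
  exc_le := h.exc_le
  ahead := by
    intro M hG x j hx
    by_cases hxi : x = i
    · subst hxi
      rw [update_self]
      have h1 := h.ahead M hG x j hx
      have h2 := h.exc_good M hG x j hx
      have h3 : (I.pref x).idxOf j ≠ ptr x := by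
        intro h4
        rw [← hp.idx] at h4
        have := (List.idxOf_inj (hG.matching.acceptable x j hx)).mp h4
        subst this
        omega
      omega
    · rw [update_of_ne hxi]; exact h.ahead M hG x j hx
  exc_good := h.exc_good
  full_good := h.full_good
  rej := by
    intro x j hj hx
    by_cases hxi : x = i
    · subst hxi
      rw [update_self] at hx
      by_cases h1 : (I.pref x).idxOf j < ptr x
      · exact h.rej x j hj h1
      · have h2 : (I.pref x).idxOf j = (I.pref x).idxOf p := by rw [hp.idx]; omega
        have := (List.idxOf_inj hj).mp h2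
        subst this
        exact Or.inl hex
    · rw [update_of_ne hxi] at hx
      exact h.rej x j hj hx

theorem inv_accept (h : Inv I asg ptr exc) {i : Fin I.n1} {p : Fin I.n2}
    (hp : Prop1 I asg ptr i p) (hex : exc (I.lec p) ≤ sc I (I.lec p) i)
    (hc : (I.atP asg p).card < I.cap p) (hd : (I.atL asg (I.lec p)).card < I.dcap (I.lec p)) :
    Inv I (update asg i (some p)) ptr exc where
  matching := by
    refine ⟨?_, ?_, ?_⟩
    · intro x j hx
      by_cases hxi : x = i
      · subst hxi
        rw [update_self] at hx
        have := Option.some_injective _ hx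
        subst this
        exact hp.mem
      · rw [update_of_ne hxi] at hx
        exact h.matching.acceptable x j hx
    · intro j
      rw [atP_set hp.free]
      split_ifs with hj
      · subst hj
        rw [Finset.card_insert_of_notMem (not_mem_atP hp.free _)]
        omega
      · exact h.matching.cap j
    · intro k
      rw [atL_set hp.free]
      split_ifs with hk
      · subst hk
        rw [Finset.card_insert_of_notMem (not_mem_atL hp.free _)]
        omega
      · exact h.matching.dcap k
  ptr_le := h.ptr_le
  atPtr := by
    intro x j hx
    by_cases hxi : x = i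
    · subst hxi
      rw [update_self] at hx
      have := Option.some_injective _ hx
      subst this
      exact ⟨hp.mem, hp.idx⟩
    · rw [update_of_ne hxi] at hx
      exact h.atPtr x j hx
  exc_le := by
    intro x j hx
    by_cases hxi : x = i
    · subst hxi
      rw [update_self] at hx
      have := Option.some_injective _ hx
      subst this
      exact hex
    · rw [update_of_ne hxi] at hx
      exact h.exc_le x j hx
  ahead := h.ahead
  exc_good := h.exc_good
  full_good := h.full_good
  rej := by
    intro x j hj hx
    rcases h.rej x j hj hx with h1 | ⟨h1, h2⟩ | ⟨h1, h2⟩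
    · exact Or.inl h1
    · right; left
      have hjp : p ≠ j := by rintro rfl; omega
      rw [atP_set hp.free, if_neg hjp]
      exact ⟨h1, h2⟩
    · right; right
      have hjp : I.lec p ≠ I.lec j := by intro he; rw [← he] at h1; omega
      rw [atL_set hp.free, if_neg hjp]
      exact ⟨h1, h2⟩

/-- The tentative assignment after a proposal keeps the pointers right. -/
theorem atPtr_set (h : Inv I asg ptr exc) {i : Fin I.n1} {p : Fin I.n2}
    (hp : Prop1 I asg ptr i p) : AtPtr (update asg i (some p)) ptr := by
  intro x j hx
  by_cases hxi : x = i
  · subst hxi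
    rw [update_self] at hx
    have := Option.some_injective _ hx
    subst this
    exact ⟨hp.mem, hp.idx⟩
  · rw [update_of_ne hxi] at hx
    exact h.atPtr x j hx

/-- Common part of the two kinds of rejections: all of the invariant except the capacities and
the harmlessness of rejected pairs. -/
theorem inv_reject (h : Inv I asg ptr exc) {i : Fin I.n1} {p : Fin I.n2}
    (hp : Prop1 I asg ptr i p) (hex : exc (I.lec p) ≤ sc I (I.lec p) i)
    {u : Fin I.n1} {q : Fin I.n2} (hu : update asg i (some p) u = some q)
    (hgood : ∀ M, I.Good M → M u ≠ some q)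
    (hcap : ∀ j, (I.atP (update (update asg i (some p)) u none) j).card ≤ I.cap j)
    (hdcap : ∀ k, (I.atL (update (update asg i (some p)) u none) k).card ≤ I.dcap k)
    (hrej : ∀ x j, j ∈ I.pref x → Rej asg exc x j →
      Rej (update (update asg i (some p)) u none) exc x j)
    (hnew : Rej (update (update asg i (some p)) u none) exc u q) :
    Inv I (update (update asg i (some p)) u none) (update ptr u (ptr u + 1)) exc := by
  have hat := atPtr_set h hp
  obtain ⟨hq, hqi⟩ := hat u q hu
  constructor
  · refine ⟨?_, hcap, hdcap⟩
    intro x j hx
    by_cases hxu : x = u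
    · subst hxu
      rw [update_self] at hx; simp at hx
    · rw [update_of_ne hxu] at hx
      exact (hat x j hx).1
  · intro x
    by_cases hxu : x = u
    · subst hxu
      rw [update_self]
      have := List.idxOf_lt_length_iff.mpr hq
      omega
    · rw [update_of_ne hxu]; exact h.ptr_le x
  · intro x j hx
    by_cases hxu : x = u
    · subst hxu
      rw [update_self] at hx; simp at hx
    · rw [update_of_ne hxu] at hx
      rw [update_of_ne hxu]
      exact hat x j hx
  · intro x j hx
    by_cases hxu : x = u
    · subst hxu
      rw [update_self] at hx; simp at hx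
    · rw [update_of_ne hxu] at hx
      by_cases hxi : x = i
      · subst hxi
        rw [update_self] at hx
        have := Option.some_injective _ hx
        subst this
        exact hex
      · rw [update_of_ne hxi] at hx
        exact h.exc_le x j hx
  · intro M hG x j hx
    by_cases hxu : x = u
    · subst hxu
      rw [update_self]
      have h1 := h.ahead M hG x j hx
      have h3 : (I.pref x).idxOf j ≠ ptr x := by
        intro h4
        rw [← hqi] at h4
        have := (List.idxOf_inj (hG.matching.acceptable x j hx)).mp h4
        subst this
        exact hgood M hG hx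
      omega
    · rw [update_of_ne hxu]; exact h.ahead M hG x j hx
  · exact h.exc_good
  · exact h.full_good
  · intro x j hj hx
    by_cases hxu : x = u
    · subst hxu
      rw [update_self] at hx
      by_cases h1 : (I.pref x).idxOf j < ptr x
      · exact hrej x j hj (h.rej x j hj h1)
      · have h2 : (I.pref x).idxOf j = (I.pref x).idxOf q := by rw [hqi]; omega
        have := (List.idxOf_inj hj).mp h2
        subst this
        exact hnew
    · rw [update_of_ne hxu] at hx
      exact hrej x j hj (h.rej x j hj hx)

theorem mem_rank_prop (h : Inv I asg ptr exc) {i : Fin I.n1} {p : Fin I.n2}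
    (hp : Prop1 I asg ptr i p) {x : Fin I.n1} {k : Fin I.n3}
    (hx : x ∈ I.atL (update asg i (some p)) k) : x ∈ I.rank k := by
  obtain ⟨j, h1, h2⟩ := mem_atL.mp hx
  rw [← h2]
  exact (I.mem_rank _ _).mpr ⟨j, (atPtr_set h hp x j h1).1, rfl⟩

/-- Rejection by an oversubscribed project. -/
theorem inv_rejP (h : Inv I asg ptr exc) {i : Fin I.n1} {p : Fin I.n2}
    (hp : Prop1 I asg ptr i p) (hex : exc (I.lec p) ≤ sc I (I.lec p) i)
    (hover : I.cap p < (I.atP (update asg i (some p)) p).card)
    {u : Fin I.n1} (hu : update asg i (some p) u = some p)
    (hmin : ∀ x ∈ I.atP (update asg i (some p)) p, sc I (I.lec p) u ≤ sc I (I.lec p) x) :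
    Inv I (update (update asg i (some p)) u none) (update ptr u (ptr u + 1)) exc := by
  have hat := atPtr_set h hp
  have huP : u ∈ I.atP (update asg i (some p)) p := mem_atP.mpr hu
  have huL : u ∈ I.atL (update asg i (some p)) (I.lec p) := atP_subset_atL _ _ huP
  have hcP : (I.atP asg p).card = I.cap p := by
    have h1 := h.matching.cap p
    rw [atP_set hp.free, if_pos rfl,
      Finset.card_insert_of_notMem (not_mem_atP hp.free _)] at hover
    omega
  have hinsP : I.atP (update asg i (some p)) p = insert i (I.atP asg p) := by
    rw [atP_set hp.free, if_pos rfl]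
  have hinsL : I.atL (update asg i (some p)) (I.lec p) = insert i (I.atL asg (I.lec p)) := by
    rw [atL_set hp.free, if_pos rfl]
  have hcardP : (I.atP (update (update asg i (some p)) u none) p).card = (I.atP asg p).card := by
    rw [atP_clear, Finset.card_erase_of_mem huP, hinsP,
      Finset.card_insert_of_notMem (not_mem_atP hp.free _)]
    rfl
  have hcardL : (I.atL (update (update asg i (some p)) u none) (I.lec p)).card =
      (I.atL asg (I.lec p)).card := by
    rw [atL_clear, Finset.card_erase_of_mem huL, hinsL,
      Finset.card_insert_of_notMem (not_mem_atL hp.free _)]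
    rfl
  have hPne : ∀ j, j ≠ p → I.atP (update (update asg i (some p)) u none) j = I.atP asg j := by
    intro j hj
    rw [atP_clear, atP_set hp.free, if_neg (Ne.symm hj)]
    refine Finset.erase_eq_of_notMem fun hmem => ?_
    rw [mem_atP] at hmem
    by_cases hui : u = i
    · subst hui; rw [hp.free] at hmem; simp at hmem
    · rw [update_of_ne hui] at hu
      rw [hu] at hmem
      exact hj (Option.some_injective _ hmem).symm
  have hLne : ∀ k, k ≠ I.lec p →
      I.atL (update (update asg i (some p)) u none) k = I.atL asg k := by
    intro k hk
    rw [atL_clear, atL_set hp.free, if_neg (Ne.symm hk)]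
    refine Finset.erase_eq_of_notMem fun hmem => ?_
    obtain ⟨j, h1, h2⟩ := mem_atL.mp hmem
    by_cases hui : u = i
    · subst hui; rw [hp.free] at h1; simp at h1
    · rw [update_of_ne hui] at hu
      rw [hu] at h1
      have := Option.some_injective _ h1
      subst this
      exact hk h2.symm
  refine inv_reject h hp hex hu ?_ ?_ ?_ ?_ ?_
  · intro M hG
    exact reject_project hG hat (h.ahead M hG) hover hu hmin
  · intro j
    by_cases hj : j = p
    · subst hj; rw [hcardP]; exact h.matching.cap _
    · rw [hPne j hj]; exact h.matching.cap j
  · intro k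
    by_cases hk : k = I.lec p
    · subst hk; rw [hcardL]; exact h.matching.dcap _
    · rw [hLne k hk]; exact h.matching.dcap k
  · intro x j hj hR
    rcases hR with h1 | ⟨h1, h2⟩ | ⟨h1, h2⟩
    · exact Or.inl h1
    · right; left
      by_cases hjp : j = p
      · subst hjp
        refine ⟨by rw [hcardP]; exact h1, fun y hy => ?_⟩
        rw [atP_clear, hinsP, Finset.mem_erase, Finset.mem_insert] at hy
        obtain ⟨hyu, hy⟩ := hy
        rcases hy with rfl | hy
        · have hu' : u ∈ I.atP asg j := by
            rw [hinsP, Finset.mem_insert] at huP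
            rcases huP with h3 | h3
            · exact absurd h3.symm hyu
            · exact h3
          have h3 := h2 u hu'
          have h4 := hmin y (by rw [hinsP]; exact Finset.mem_insert_self _ _)
          omega
        · exact h2 y hy
      · rw [hPne j hjp]; exact ⟨h1, h2⟩
    · right; right
      by_cases hk : I.lec j = I.lec p
      · rw [hk] at h1 h2 ⊢
        refine ⟨by rw [hcardL]; exact h1, fun y hy => ?_⟩
        rw [atL_clear, hinsL, Finset.mem_erase, Finset.mem_insert] at hy
        obtain ⟨hyu, hy⟩ := hy
        rcases hy with rfl | hy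
        · have hu' : u ∈ I.atL asg (I.lec p) := by
            rw [hinsL, Finset.mem_insert] at huL
            rcases huL with h3 | h3
            · exact absurd h3.symm hyu
            · exact h3
          have h3 := h2 u hu'
          have h4 := hmin y (by rw [hinsP]; exact Finset.mem_insert_self _ _)
          omega
        · exact h2 y hy
      · rw [hLne _ hk]; exact ⟨h1, h2⟩
  · right; left
    refine ⟨by rw [hcardP]; exact hcP, fun y hy => ?_⟩
    rw [atP_clear, Finset.mem_erase] at hy
    have h1 := hmin y hy.2
    have h2 : sc I (I.lec p) u ≠ sc I (I.lec p) y := fun he =>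
      hy.1 (sc_injective (mem_rank_prop h hp (atP_subset_atL _ _ hy.2))
        (mem_rank_prop h hp huL) he.symm)
    omega

/-- Rejection by an oversubscribed lecturer. -/
theorem inv_rejL (h : Inv I asg ptr exc) {i : Fin I.n1} {p : Fin I.n2}
    (hp : Prop1 I asg ptr i p) (hex : exc (I.lec p) ≤ sc I (I.lec p) i)
    (hnover : (I.atP (update asg i (some p)) p).card ≤ I.cap p)
    (hover : I.dcap (I.lec p) < (I.atL (update asg i (some p)) (I.lec p)).card)
    {u : Fin I.n1} {q : Fin I.n2} (hu : update asg i (some p) u = some q)
    (hq : I.lec q = I.lec p)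
    (hmin : ∀ x ∈ I.atL (update asg i (some p)) (I.lec p), sc I (I.lec p) u ≤ sc I (I.lec p) x) :
    Inv I (update (update asg i (some p)) u none) (update ptr u (ptr u + 1)) exc := by
  have hat := atPtr_set h hp
  have huL : u ∈ I.atL (update asg i (some p)) (I.lec p) := mem_atL.mpr ⟨q, hu, hq⟩
  have hinsP : I.atP (update asg i (some p)) p = insert i (I.atP asg p) := by
    rw [atP_set hp.free, if_pos rfl]
  have hinsL : I.atL (update asg i (some p)) (I.lec p) = insert i (I.atL asg (I.lec p)) := by
    rw [atL_set hp.free, if_pos rfl]
  have hcL : (I.atL asg (I.lec p)).card = I.dcap (I.lec p) := by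
    have h1 := h.matching.dcap (I.lec p)
    rw [hinsL, Finset.card_insert_of_notMem (not_mem_atL hp.free _)] at hover
    omega
  have hcP : (I.atP asg p).card < I.cap p := by
    rw [hinsP, Finset.card_insert_of_notMem (not_mem_atP hp.free _)] at hnover
    omega
  have hcardL : (I.atL (update (update asg i (some p)) u none) (I.lec p)).card =
      (I.atL asg (I.lec p)).card := by
    rw [atL_clear, Finset.card_erase_of_mem huL, hinsL,
      Finset.card_insert_of_notMem (not_mem_atL hp.free _)]
    rfl
  have hLne : ∀ k, k ≠ I.lec p →
      I.atL (update (update asg i (some p)) u none) k = I.atL asg k := by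
    intro k hk
    rw [atL_clear, atL_set hp.free, if_neg (Ne.symm hk)]
    refine Finset.erase_eq_of_notMem fun hmem => ?_
    obtain ⟨j, h1, h2⟩ := mem_atL.mp hmem
    by_cases hui : u = i
    · subst hui; rw [hp.free] at h1; simp at h1
    · rw [update_of_ne hui] at hu
      rw [hu] at h1
      have := Option.some_injective _ h1
      subst this
      exact hk (h2.symm.trans hq)
  have hcapT : ∀ j, (I.atP (update asg i (some p)) j).card ≤ I.cap j := by
    intro j
    by_cases hj : p = j
    · subst hj; exact hnover
    · rw [atP_set hp.free, if_neg hj]; exact h.matching.cap j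
  have hnewL : ∀ y ∈ I.atL (update (update asg i (some p)) u none) (I.lec p),
      sc I (I.lec p) u < sc I (I.lec p) y := by
    intro y hy
    rw [atL_clear, Finset.mem_erase] at hy
    have h1 := hmin y hy.2
    have h2 : sc I (I.lec p) u ≠ sc I (I.lec p) y := fun he =>
      hy.1 (sc_injective (mem_rank_prop h hp hy.2) (mem_rank_prop h hp huL) he.symm)
    omega
  refine inv_reject h hp hex hu ?_ ?_ ?_ ?_ ?_
  · intro M hG
    exact reject_lecturer hG hat (h.ahead M hG) hover (fun j _ => hcapT j) hu hq hmin
  · intro j
    rw [atP_clear]
    exact le_trans (Finset.card_le_card (Finset.erase_subset _ _)) (hcapT j)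
  · intro k
    by_cases hk : k = I.lec p
    · subst hk; rw [hcardL]; exact h.matching.dcap _
    · rw [hLne k hk]; exact h.matching.dcap k
  · intro x j hj hR
    rcases hR with h1 | ⟨h1, h2⟩ | ⟨h1, h2⟩
    · exact Or.inl h1
    · by_cases hju : u ∈ I.atP asg j
      · -- the rejected student was at `j`
        have hui : u ≠ i := by rintro rfl; exact not_mem_atP hp.free _ hju
        rw [update_of_ne hui, mem_atP.mp hju] at hu
        have hjq := Option.some_injective _ hu
        subst hjq
        right; right
        rw [hq] at h2 ⊢
        refine ⟨by rw [hcardL]; exact hcL, fun y hy => ?_⟩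
        have h3 := h2 u hju
        have h4 := hnewL y hy
        omega
      · right; left
        have hjp : p ≠ j := by rintro rfl; omega
        rw [atP_clear, atP_set hp.free, if_neg hjp, Finset.erase_eq_of_notMem hju]
        exact ⟨h1, h2⟩
    · right; right
      by_cases hk : I.lec j = I.lec p
      · rw [hk] at h1 h2 ⊢
        refine ⟨by rw [hcardL]; exact h1, fun y hy => ?_⟩
        have h4 := hnewL y hy
        rw [atL_clear, hinsL, Finset.mem_erase, Finset.mem_insert] at hy
        obtain ⟨hyu, hy⟩ := hy
        rcases hy with rfl | hy
        · have hu' : u ∈ I.atL asg (I.lec p) := by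
            rw [hinsL, Finset.mem_insert] at huL
            rcases huL with h3 | h3
            · exact absurd h3.symm hyu
            · exact h3
          have h3 := h2 u hu'
          omega
        · exact h2 y hy
      · rw [hLne _ hk]; exact ⟨h1, h2⟩
  · right; right
    rw [hq]
    exact ⟨by rw [hcardL]; exact hcL, hnewL⟩

/-- Forced rejection. -/
theorem inv_force (h : Inv I asg ptr exc) (hf : NoFree asg ptr) {j : Fin I.n2}
    (hfull : (I.atL asg (I.lec j)).card = I.dcap (I.lec j))
    (hlow : (I.atP asg j).card < I.low j)
    {u : Fin I.n1} {q : Fin I.n2} (hu : asg u = some q) (hq : I.lec q = I.lec j)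
    (hmin : ∀ x ∈ I.atL asg (I.lec j), sc I (I.lec j) u ≤ sc I (I.lec j) x) :
    Inv I (update asg u none) (update ptr u (ptr u + 1))
      (update exc (I.lec j) (sc I (I.lec j) u + 1)) := by
  have hkey := fun M (hG : I.Good M) =>
    force hG h.atPtr (h.ahead M hG) h.matching hf hfull hlow hmin
  have huL : u ∈ I.atL asg (I.lec j) := mem_atL.mpr ⟨q, hu, hq⟩
  obtain ⟨hqm, hqi⟩ := h.atPtr u q hu
  have hexu : exc (I.lec j) ≤ sc I (I.lec j) u := by
    have := h.exc_le u q hu
    rw [hq] at this
    exact this
  constructor
  · refine ⟨?_, ?_, ?_⟩
    · intro x y hx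
      by_cases hxu : x = u
      · subst hxu; rw [update_self] at hx; simp at hx
      · rw [update_of_ne hxu] at hx; exact h.matching.acceptable x y hx
    · intro y
      rw [atP_clear]
      exact le_trans (Finset.card_le_card (Finset.erase_subset _ _)) (h.matching.cap y)
    · intro k
      rw [atL_clear]
      exact le_trans (Finset.card_le_card (Finset.erase_subset _ _)) (h.matching.dcap k)
  · intro x
    by_cases hxu : x = u
    · subst hxu
      rw [update_self]
      have := List.idxOf_lt_length_iff.mpr hqm
      omega
    · rw [update_of_ne hxu]; exact h.ptr_le x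
  · intro x y hx
    by_cases hxu : x = u
    · subst hxu; rw [update_self] at hx; simp at hx
    · rw [update_of_ne hxu] at hx ⊢
      exact h.atPtr x y hx
  · intro x y hx
    by_cases hxu : x = u
    · subst hxu; rw [update_self] at hx; simp at hx
    · rw [update_of_ne hxu] at hx
      by_cases hk : I.lec y = I.lec j
      · rw [hk, update_self]
        have hxL : x ∈ I.atL asg (I.lec j) := mem_atL.mpr ⟨y, hx, hk⟩
        have h1 := hmin x hxL
        have h2 : sc I (I.lec j) u ≠ sc I (I.lec j) x := fun he =>
          hxu (sc_injective (mem_rank_atL h hxL) (mem_rank_atL h huL) he.symm)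
        omega
      · rw [update_of_ne hk]
        exact h.exc_le x y hx
  · intro M hG x y hx
    by_cases hxu : x = u
    · subst hxu
      rw [update_self]
      have h1 := h.ahead M hG x y hx
      have h3 : (I.pref x).idxOf y ≠ ptr x := by
        intro h4
        rw [← hqi] at h4
        have := (List.idxOf_inj (hG.matching.acceptable x y hx)).mp h4
        subst this
        have h5 := (hkey M hG).2 x (mem_atL.mpr ⟨y, hx, hq⟩)
        omega
      omega
    · rw [update_of_ne hxu]; exact h.ahead M hG x y hx
  · intro M hG x y hx
    by_cases hk : I.lec y = I.lec j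
    · rw [hk, update_self]
      have h5 := (hkey M hG).2 x (mem_atL.mpr ⟨y, hx, hk⟩)
      omega
    · rw [update_of_ne hk]
      exact h.exc_good M hG x y hx
  · intro M hG k hk
    by_cases hkj : k = I.lec j
    · subst hkj
      exact (hkey M hG).1
    · rw [update_of_ne hkj] at hk
      exact h.full_good M hG k hk
  · intro x y hy hx
    have hold : Rej asg exc x y →
        Rej (update asg u none) (update exc (I.lec j) (sc I (I.lec j) u + 1)) x y := by
      intro hR
      by_cases hk : I.lec y = I.lec j
      · unfold Rej at hR ⊢
        rw [hk] at hR ⊢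
        rw [update_self]
        rcases hR with h1 | ⟨h1, h2⟩ | ⟨h1, h2⟩
        · left; omega
        · by_cases huy : u ∈ I.atP asg y
          · left
            have := h2 u huy
            omega
          · right; left
            rw [atP_clear, Finset.erase_eq_of_notMem huy]
            exact ⟨h1, h2⟩
        · left
          have := h2 u huL
          omega
      · have hLu : u ∉ I.atL asg (I.lec y) := by
          intro hmem
          obtain ⟨z, h1, h2⟩ := mem_atL.mp hmem
          rw [hu] at h1
          have := Option.some_injective _ h1
          subst this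
          exact hk (h2.symm.trans hq)
        have hPu : u ∉ I.atP asg y := fun hmem => hLu (atP_subset_atL _ _ hmem)
        unfold Rej at hR ⊢
        rw [update_of_ne hk, atP_clear, atL_clear, Finset.erase_eq_of_notMem hPu,
          Finset.erase_eq_of_notMem hLu]
        exact hR
    by_cases hxu : x = u
    · subst hxu
      rw [update_self] at hx
      by_cases h1 : (I.pref x).idxOf y < ptr x
      · exact hold (h.rej x y hy h1)
      · have h2 : (I.pref x).idxOf y = (I.pref x).idxOf q := by rw [hqi]; omega
        have := (List.idxOf_inj hy).mp h2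
        subst this
        left
        rw [hq, update_self]
        omega
    · rw [update_of_ne hxu] at hx
      exact hold (h.rej x y hy hx)

end Steps

end Pool.Agent.H672R2.Spa
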