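import Mathlib
import Pool.Agent.H672R2.SpaDefs
import Pool.Agent.H672R2.SpaInv
import Pool.Agent.H672R2.SpaStep
import Pool.Agent.H672R2.SpaProg
import Pool.Agent.H672R2.RamLemmas

set_option autoImplicit false

namespace Pool.Agent.H672R2.Spa

open Pool.Agent.H672R2.Ram Function

variable {I : Inst}

/-- Memory `m` represents the state `(asg, ptr, exc)` of the algorithm on instance `I`. -/
structure Rep (I : Inst) (asg : I.Asg) (ptr : Fin I.n1 → ℕ) (exc : Fin I.n3 → ℕ) (m : Mem) :
    Prop where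
  n1 : m.v 0 = I.n1
  n2 : m.v 1 = I.n2
  n3 : m.v 2 = I.n3
  slen : ∀ i : Fin I.n1, m.a 0 i 0 = (I.pref i).length
  sp : ∀ (i : Fin I.n1) (t : ℕ) (h : t < (I.pref i).length), m.a 1 i t = ((I.pref i)[t] : ℕ)
  lec : ∀ j : Fin I.n2, m.a 2 j 0 = (I.lec j : ℕ)
  llen : ∀ k : Fin I.n3, m.a 3 k 0 = (I.rank k).length
  lp : ∀ (k : Fin I.n3) (t : ℕ) (h : t < (I.rank k).length), m.a 4 k t = ((I.rank k)[t] : ℕ)
  cap : ∀ j : Fin I.n2, m.a 5 j 0 = I.cap j
  low : ∀ j : Fin I.n2, m.a 6 j 0 = I.low j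
  dcap : ∀ k : Fin I.n3, m.a 7 k 0 = I.dcap k
  fasg : ∀ i : Fin I.n1, m.a 8 i 0 = code (asg i)
  fptr : ∀ i : Fin I.n1, m.a 9 i 0 = ptr i
  cp : ∀ j : Fin I.n2, m.a 10 j 0 = (I.atP asg j).card
  cl : ∀ k : Fin I.n3, m.a 11 k 0 = (I.atL asg k).card
  fexc : ∀ k : Fin I.n3, m.a 12 k 0 = exc k

section

variable {asg : I.Asg} {ptr : Fin I.n1 → ℕ} {exc : Fin I.n3 → ℕ} {m : Mem}

theorem Rep.setV (h : Rep I asg ptr exc m) {x : ℕ} (hx : 3 ≤ x) (n : ℕ) :
    Rep I asg ptr exc (m.setV x n) where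
  n1 := by rw [setV_v, if_neg (by omega)]; exact h.n1
  n2 := by rw [setV_v, if_neg (by omega)]; exact h.n2
  n3 := by rw [setV_v, if_neg (by omega)]; exact h.n3
  slen := h.slen
  sp := h.sp
  lec := h.lec
  llen := h.llen
  lp := h.lp
  cap := h.cap
  low := h.low
  dcap := h.dcap
  fasg := h.fasg
  fptr := h.fptr
  cp := h.cp
  cl := h.cl
  fexc := h.fexc

theorem rep_encode (I : Inst) : Rep I (fun _ => none) (fun _ => 0) (fun _ => 0) (encode I) where
  n1 := rfl
  n2 := rfl
  n3 := rfl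
  slen := by intro i; simp [encode, column]
  sp := by intro i t h; simp [encode, rows, h]
  lec := by intro i; simp [encode, column]
  llen := by intro i; simp [encode, column]
  lp := by intro i t h; simp [encode, rows, h]
  cap := by intro i; simp [encode, column]
  low := by intro i; simp [encode, column]
  dcap := by intro i; simp [encode, column]
  fasg := by intro i; simp [encode, code]
  fptr := by intro i; simp [encode]
  cp := by intro i; simp [encode, Inst.atP]
  cl := by intro i; simp [encode, Inst.atL]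
  fexc := by intro i; simp [encode]

/-- Changing a pointer. -/
theorem Rep.setPtr (h : Rep I asg ptr exc m) (i : Fin I.n1) (n : ℕ) :
    Rep I asg (update ptr i n) exc (m.setA 9 i 0 n) where
  n1 := h.n1
  n2 := h.n2
  n3 := h.n3
  slen := by intro i; simp [h.slen]
  sp := by intro i t ht; simp [h.sp, ht]
  lec := by intro i; simp [h.lec]
  llen := by intro i; simp [h.llen]
  lp := by intro i t ht; simp [h.lp, ht]
  cap := by intro i; simp [h.cap]
  low := by intro i; simp [h.low]
  dcap := by intro i; simp [h.dcap]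
  fasg := by intro i; simp [h.fasg]
  fptr := by
    intro x
    by_cases hx : x = i
    · subst hx; simp
    · have : (x : ℕ) ≠ i := fun he => hx (Fin.ext he)
      simp [update_of_ne hx, this, h.fptr]
  cp := by intro i; simp [h.cp]
  cl := by intro i; simp [h.cl]
  fexc := by intro i; simp [h.fexc]

/-- Changing a threshold. -/
theorem Rep.setExc (h : Rep I asg ptr exc m) (k : Fin I.n3) (n : ℕ) :
    Rep I asg ptr (update exc k n) (m.setA 12 k 0 n) where
  n1 := h.n1
  n2 := h.n2
  n3 := h.n3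
  slen := by intro i; simp [h.slen]
  sp := by intro i t ht; simp [h.sp, ht]
  lec := by intro i; simp [h.lec]
  llen := by intro i; simp [h.llen]
  lp := by intro i t ht; simp [h.lp, ht]
  cap := by intro i; simp [h.cap]
  low := by intro i; simp [h.low]
  dcap := by intro i; simp [h.dcap]
  fasg := by intro i; simp [h.fasg]
  fptr := by intro i; simp [h.fptr]
  cp := by intro i; simp [h.cp]
  cl := by intro i; simp [h.cl]
  fexc := by
    intro x
    by_cases hx : x = k
    · subst hx; simp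
    · have : (x : ℕ) ≠ k := fun he => hx (Fin.ext he)
      simp [update_of_ne hx, this, h.fexc]

/-- Assigning a project. -/
theorem Rep.assign (h : Rep I asg ptr exc m) {i : Fin I.n1} (hi : asg i = none) (p : Fin I.n2) :
    Rep I (update asg i (some p)) ptr exc
      (((m.setA 8 i 0 (p + 1)).setA 10 p 0 (m.a 10 p 0 + 1)).setA 11 (I.lec p) 0
        (m.a 11 (I.lec p) 0 + 1)) where
  n1 := h.n1
  n2 := h.n2
  n3 := h.n3
  slen := by intro i; simp [h.slen]
  sp := by intro i t ht; simp [h.sp, ht]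
  lec := by intro i; simp [h.lec]
  llen := by intro i; simp [h.llen]
  lp := by intro i t ht; simp [h.lp, ht]
  cap := by intro i; simp [h.cap]
  low := by intro i; simp [h.low]
  dcap := by intro i; simp [h.dcap]
  fasg := by
    intro x
    by_cases hx : x = i
    · subst hx; simp [code]
    · have : (x : ℕ) ≠ i := fun he => hx (Fin.ext he)
      simp [update_of_ne hx, this, h.fasg]
  fptr := by intro i; simp [h.fptr]
  cp := by
    intro x
    rw [atP_set hi]
    by_cases hx : p = x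
    · subst hx
      rw [if_pos rfl, Finset.card_insert_of_notMem (not_mem_atP hi _)]
      simp [h.cp]
    · have : (x : ℕ) ≠ p := fun he => hx (Fin.ext he).symm
      simp [hx, this, h.cp]
  cl := by
    intro x
    rw [atL_set hi]
    by_cases hx : I.lec p = x
    · subst hx
      rw [if_pos rfl, Finset.card_insert_of_notMem (not_mem_atL hi _)]
      simp [h.cl]
    · have : (x : ℕ) ≠ I.lec p := fun he => hx (Fin.ext he).symm
      simp [hx, this, h.cl]
  fexc := by intro i; simp [h.fexc]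

/-- Removing a student. -/
theorem Rep.remove (h : Rep I asg ptr exc m) {u : Fin I.n1} {q : Fin I.n2} (hu : asg u = some q) :
    Rep I (update asg u none) (update ptr u (ptr u + 1)) exc
      ((((m.setA 8 u 0 0).setA 9 u 0 (ptr u + 1)).setA 10 q 0 (m.a 10 q 0 - 1)).setA 11
        (I.lec q) 0 (m.a 11 (I.lec q) 0 - 1)) where
  n1 := h.n1
  n2 := h.n2
  n3 := h.n3
  slen := by intro i; simp [h.slen]
  sp := by intro i t ht; simp [h.sp, ht]
  lec := by intro i; simp [h.lec]
  llen := by intro i; simp [h.llen]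
  lp := by intro i t ht; simp [h.lp, ht]
  cap := by intro i; simp [h.cap]
  low := by intro i; simp [h.low]
  dcap := by intro i; simp [h.dcap]
  fasg := by
    intro x
    by_cases hx : x = u
    · subst hx; simp [code]
    · have : (x : ℕ) ≠ u := fun he => hx (Fin.ext he)
      simp [update_of_ne hx, this, h.fasg]
  fptr := by
    intro x
    by_cases hx : x = u
    · subst hx; simp
    · have : (x : ℕ) ≠ u := fun he => hx (Fin.ext he)
      simp [update_of_ne hx, this, h.fptr]
  cp := by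
    intro x
    rw [atP_clear]
    by_cases hx : q = x
    · subst hx
      rw [Finset.card_erase_of_mem (mem_atP.mpr hu)]
      simp [h.cp]
    · have h1 : (x : ℕ) ≠ q := fun he => hx (Fin.ext he).symm
      have h2 : u ∉ I.atP asg x := by
        rw [mem_atP, hu]
        intro he
        exact hx (Option.some_injective _ he)
      rw [Finset.erase_eq_of_notMem h2]
      simp [h1, h.cp]
  cl := by
    intro x
    rw [atL_clear]
    by_cases hx : I.lec q = x
    · subst hx
      rw [Finset.card_erase_of_mem (mem_atL.mpr ⟨q, hu, rfl⟩)]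
      simp [h.cl]
    · have h1 : (x : ℕ) ≠ I.lec q := fun he => hx (Fin.ext he).symm
      have h2 : u ∉ I.atL asg x := by
        rw [mem_atL, hu]
        rintro ⟨y, he, hy⟩
        have := Option.some_injective _ he
        subst this
        exact hx hy
      rw [Finset.erase_eq_of_notMem h2]
      simp [h1, h.cl]
  fexc := by intro i; simp [h.fexc]

end

/-- The student at position `j` from the end of the list of lecturer `k`. -/
def atRev (I : Inst) (k : Fin I.n3) (j : ℕ) (hj : j < (I.rank k).length) : Fin I.n1 :=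
  (I.rank k)[(I.rank k).length - 1 - j]

theorem sc_atRev (k : Fin I.n3) (j : ℕ) (hj : j < (I.rank k).length) :
    sc I k (atRev I k j hj) = j := by
  unfold sc atRev
  rw [(I.rank_nodup k).idxOf_getElem]
  omega

theorem atRev_mem (k : Fin I.n3) (j : ℕ) (hj : j < (I.rank k).length) :
    atRev I k j hj ∈ I.rank k := by
  unfold atRev
  exact List.getElem_mem _

theorem atRev_sc {k : Fin I.n3} {i : Fin I.n1} (hi : i ∈ I.rank k) :
    atRev I k (sc I k i) (sc_lt hi) = i :=
  sc_injective (atRev_mem _ _ _) hi (sc_atRev _ _ _)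

section Runs

variable {asg : I.Asg} {ptr : Fin I.n1 → ℕ} {exc : Fin I.n3 → ℕ} {m : Mem}

theorem eval_stud (h : Rep I asg ptr exc m) {k : Fin I.n3} (h6 : m.v 6 = k) {j : ℕ}
    (h7 : m.v 7 = j) (hj : j < (I.rank k).length) : stud.eval m = (atRev I k j hj : ℕ) := by
  have h2 : (I.rank k).length - 1 - j < (I.rank k).length := by omega
  have h1 := h.lp k ((I.rank k).length - 1 - j) h2
  simp only [stud, at0, Expr.eval, h6, h.llen, h7]
  rw [h1]
  rfl

theorem find_runs (x : ℕ) (t : Test) (m : Mem) (N : ℕ)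
    (hlt : ∀ j < N, t.holds (m.setV x j)) (hN : ¬ t.holds (m.setV x N)) :
    ∃ c, Runs (find x t) m (m.setV x N) c ∧ c ≤ (t.cost + 3) * (N + 1) :=
  search_runs x t m N hlt hN

theorem findPos_runs (h : Rep I asg ptr exc m) {k : Fin I.n3} (h6 : m.v 6 = k)
    {i : Fin I.n1} (h4 : m.v 4 = i) (hi : i ∈ I.rank k) :
    ∃ c, Runs (find 7 tPos) m (m.setV 7 (sc I k i)) c ∧
      c ≤ (tPos.cost + 3) * (sc I k i + 1) := by
  refine find_runs 7 tPos m (sc I k i) ?_ ?_
  · intro j hj
    have hjl : j < (I.rank k).length := lt_trans hj (sc_lt hi)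
    have h1 := eval_stud (h.setV (x := 7) (by norm_num) j) (k := k) (by simpa using h6)
      (j := j) (by simp) hjl
    simp only [tPos, Test.holds, h1]
    simp only [Expr.eval, setV_v]
    rw [if_neg (by norm_num), h4]
    intro he
    have := Fin.ext he
    rw [← this, sc_atRev] at hj
    omega
  · have h1 := eval_stud (h.setV (x := 7) (by norm_num) (sc I k i)) (k := k) (by simpa using h6)
      (j := sc I k i) (by simp) (sc_lt hi)
    simp only [tPos, Test.holds, h1, not_not]
    simp only [Expr.eval, setV_v]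
    rw [if_neg (by norm_num), h4, atRev_sc hi]

theorem findWorstP_runs (h : Rep I asg ptr exc m) {k : Fin I.n3} (h6 : m.v 6 = k)
    {p : Fin I.n2} (h5 : m.v 5 = p) {u : Fin I.n1} (hu : asg u = some p) (hur : u ∈ I.rank k)
    (hmin : ∀ x ∈ I.atP asg p, sc I k u ≤ sc I k x) :
    ∃ c, Runs (find 7 tWorstP) m (m.setV 7 (sc I k u)) c ∧
      c ≤ (tWorstP.cost + 3) * (sc I k u + 1) := by
  refine find_runs 7 tWorstP m (sc I k u) ?_ ?_
  · intro j hj
    have hjl : j < (I.rank k).length := lt_trans hj (sc_lt hur)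
    have h' := h.setV (x := 7) (by norm_num) j
    have h1 := eval_stud h' (k := k) (by simpa using h6) (j := j) (by simp) hjl
    simp only [tWorstP, Test.holds, at0]
    simp only [Expr.eval, h1, h'.fasg]
    rw [setV_v, if_neg (by norm_num), h5]
    intro he
    have h2 : asg (atRev I k j hjl) = some p := by
      cases hx : asg (atRev I k j hjl) with
      | none => rw [hx] at he; simp [code] at he
      | some y =>
        rw [hx] at he
        simp only [code] at he
        congr 1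
        exact Fin.ext (by omega)
    have h3 := hmin _ (mem_atP.mpr h2)
    rw [sc_atRev] at h3
    omega
  · have h' := h.setV (x := 7) (by norm_num) (sc I k u)
    have h1 := eval_stud h' (k := k) (by simpa using h6)
      (j := sc I k u) (by simp) (sc_lt hur)
    simp only [tWorstP, Test.holds, at0, not_not]
    simp only [Expr.eval, h1, h'.fasg]
    rw [setV_v, if_neg (by norm_num), h5, atRev_sc hur, hu]
    rfl

theorem findWorstL_runs (h : Rep I asg ptr exc m) {k : Fin I.n3} (h6 : m.v 6 = k)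
    {u : Fin I.n1} {q : Fin I.n2} (hu : asg u = some q) (hq : I.lec q = k)
    (hur : u ∈ I.rank k)
    (hmin : ∀ x ∈ I.atL asg k, sc I k u ≤ sc I k x) :
    ∃ c, Runs (find 7 tWorstL) m (m.setV 7 (sc I k u)) c ∧
      c ≤ (tWorstL.cost + 3) * (sc I k u + 1) := by
  refine find_runs 7 tWorstL m (sc I k u) ?_ ?_
  · intro j hj
    have hjl : j < (I.rank k).length := lt_trans hj (sc_lt hur)
    have h' := h.setV (x := 7) (by norm_num) j
    have h1 := eval_stud h' (k := k) (by simpa using h6) (j := j) (by simp) hjl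
    simp only [tWorstL, Test.holds, at0]
    simp only [Expr.eval, h1, h'.fasg]
    rintro ⟨h2, h3⟩
    cases hx : asg (atRev I k j hjl) with
    | none => rw [hx] at h2; simp [code] at h2
    | some y =>
      rw [hx] at h3
      simp only [code, Nat.add_sub_cancel] at h3
      rw [h'.lec, setV_v, if_neg (by norm_num), h6] at h3
      have h4 := hmin _ (mem_atL.mpr ⟨y, hx, Fin.ext h3⟩)
      rw [sc_atRev] at h4
      omega
  · have h' := h.setV (x := 7) (by norm_num) (sc I k u)
    have h1 := eval_stud h' (k := k) (by simpa using h6)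
      (j := sc I k u) (by simp) (sc_lt hur)
    simp only [tWorstL, Test.holds, at0, not_not]
    simp only [Expr.eval, h1, h'.fasg]
    rw [atRev_sc hur, hu]
    simp only [code, Nat.add_sub_cancel]
    rw [h'.lec, setV_v, if_neg (by norm_num), h6, hq]
    exact ⟨Nat.succ_pos _, rfl⟩

theorem remove_runs (h : Rep I asg ptr exc m) {k : Fin I.n3} (h6 : m.v 6 = k)
    {u : Fin I.n1} (hst : stud.eval m = u) {q : Fin I.n2} (hu : asg u = some q)
    (hq : I.lec q = k) :
    ∃ m' c, Runs remove m m' c ∧ c ≤ 100 ∧ m'.v 3 = m.v 3 ∧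
      Rep I (update asg u none) (update ptr u (ptr u + 1)) exc m' := by
  have hm1 := h.setV (x := 8) (by norm_num) (u : ℕ)
  have hm2 := hm1.setV (x := 11) (by norm_num) (q : ℕ)
  have r1 := Runs.assign 8 stud m
  rw [hst] at r1
  have r2 := Runs.assign 11 (.sub (at0 8 (.reg 8)) (.lit 1)) (m.setV 8 u)
  have e2 : (Expr.sub (at0 8 (.reg 8)) (.lit 1)).eval (m.setV 8 u) = (q : ℕ) := by
    simp [at0, Expr.eval, h.fasg, hu, code]
  rw [e2] at r2
  have r3 := Runs.store 8 (.reg 8) (.lit 0) (.lit 0) ((m.setV 8 u).setV 11 q)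
  have r4 := Runs.store 9 (.reg 8) (.lit 0) (.succ (at0 9 (.reg 8)))
    (((m.setV 8 u).setV 11 q).setA 8 u 0 0)
  have r5 := Runs.store 10 (.reg 11) (.lit 0) (.sub (at0 10 (.reg 11)) (.lit 1))
    ((((m.setV 8 u).setV 11 q).setA 8 u 0 0).setA 9 u 0 (ptr u + 1))
  have r6 := Runs.store 11 (.reg 6) (.lit 0) (.sub (at0 11 (.reg 6)) (.lit 1))
    (((((m.setV 8 u).setV 11 q).setA 8 u 0 0).setA 9 u 0 (ptr u + 1)).setA 10 q 0
      (m.a 10 q 0 - 1))
  have e3 : (((m.setV 8 u).setV 11 q).setA ((8 : ℕ)) ((Expr.reg 8).eval ((m.setV 8 u).setV 11 q))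
      ((Expr.lit 0).eval ((m.setV 8 u).setV 11 q)) ((Expr.lit 0).eval ((m.setV 8 u).setV 11 q))) =
      (((m.setV 8 u).setV 11 q).setA 8 u 0 0) := by
    simp [Expr.eval]
  rw [e3] at r3
  have e4 : ((((m.setV 8 u).setV 11 q).setA 8 u 0 0).setA 9
      ((Expr.reg 8).eval (((m.setV 8 u).setV 11 q).setA 8 u 0 0))
      ((Expr.lit 0).eval (((m.setV 8 u).setV 11 q).setA 8 u 0 0))
      ((Expr.succ (at0 9 (.reg 8))).eval (((m.setV 8 u).setV 11 q).setA 8 u 0 0))) =
      ((((m.setV 8 u).setV 11 q).setA 8 u 0 0).setA 9 u 0 (ptr u + 1)) := by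
    simp [Expr.eval, at0, h.fptr]
  rw [e4] at r4
  have e5 : (((((m.setV 8 u).setV 11 q).setA 8 u 0 0).setA 9 u 0 (ptr u + 1)).setA 10
      ((Expr.reg 11).eval ((((m.setV 8 u).setV 11 q).setA 8 u 0 0).setA 9 u 0 (ptr u + 1)))
      ((Expr.lit 0).eval ((((m.setV 8 u).setV 11 q).setA 8 u 0 0).setA 9 u 0 (ptr u + 1)))
      ((Expr.sub (at0 10 (.reg 11)) (.lit 1)).eval
        ((((m.setV 8 u).setV 11 q).setA 8 u 0 0).setA 9 u 0 (ptr u + 1)))) =
      (((((m.setV 8 u).setV 11 q).setA 8 u 0 0).setA 9 u 0 (ptr u + 1)).setA 10 q 0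
        (m.a 10 q 0 - 1)) := by
    simp [Expr.eval, at0]
  rw [e5] at r5
  have e6 : ((((((m.setV 8 u).setV 11 q).setA 8 u 0 0).setA 9 u 0 (ptr u + 1)).setA 10 q 0
      (m.a 10 q 0 - 1)).setA 11
      ((Expr.reg 6).eval (((((m.setV 8 u).setV 11 q).setA 8 u 0 0).setA 9 u 0
        (ptr u + 1)).setA 10 q 0 (m.a 10 q 0 - 1)))
      ((Expr.lit 0).eval (((((m.setV 8 u).setV 11 q).setA 8 u 0 0).setA 9 u 0
        (ptr u + 1)).setA 10 q 0 (m.a 10 q 0 - 1)))
      ((Expr.sub (at0 11 (.reg 6)) (.lit 1)).eval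
        (((((m.setV 8 u).setV 11 q).setA 8 u 0 0).setA 9 u 0
        (ptr u + 1)).setA 10 q 0 (m.a 10 q 0 - 1)))) =
      ((((((m.setV 8 u).setV 11 q).setA 8 u 0 0).setA 9 u 0 (ptr u + 1)).setA 10 q 0
        (m.a 10 q 0 - 1)).setA 11 k 0 (m.a 11 k 0 - 1)) := by
    simp [Expr.eval, at0, h6]
  rw [e6] at r6
  refine ⟨_, _, Runs.seq r1 (Runs.seq r2 (Runs.seq r3 (Runs.seq r4 (Runs.seq r5 r6)))), ?_, ?_, ?_⟩
  · simp [Expr.cost, stud, at0]
  · simp
  · have h7 := hm2.remove hu
    rw [hq] at h7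
    exact h7

theorem assignP_runs (h : Rep I asg ptr exc m) {i : Fin I.n1} (h4 : m.v 4 = i) {p : Fin I.n2}
    (h5 : m.v 5 = p) (h6 : m.v 6 = (I.lec p : ℕ)) (hi : asg i = none) :
    ∃ m' c, Runs assignP m m' c ∧ c ≤ 100 ∧ m'.v = m.v ∧
      Rep I (update asg i (some p)) ptr exc m' := by
  have r1 := Runs.store 8 (.reg 4) (.lit 0) (.succ (.reg 5)) m
  have e1 : m.setA 8 ((Expr.reg 4).eval m) ((Expr.lit 0).eval m) ((Expr.succ (.reg 5)).eval m) =
      m.setA 8 i 0 (p + 1) := by simp [Expr.eval, h4, h5]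
  rw [e1] at r1
  have r2 := Runs.store 10 (.reg 5) (.lit 0) (.succ (at0 10 (.reg 5))) (m.setA 8 i 0 (p + 1))
  have e2 : (m.setA 8 i 0 (p + 1)).setA 10 ((Expr.reg 5).eval (m.setA 8 i 0 (p + 1)))
      ((Expr.lit 0).eval (m.setA 8 i 0 (p + 1)))
      ((Expr.succ (at0 10 (.reg 5))).eval (m.setA 8 i 0 (p + 1))) =
      (m.setA 8 i 0 (p + 1)).setA 10 p 0 (m.a 10 p 0 + 1) := by simp [Expr.eval, h5, at0]
  rw [e2] at r2
  have r3 := Runs.store 11 (.reg 6) (.lit 0) (.succ (at0 11 (.reg 6)))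
    ((m.setA 8 i 0 (p + 1)).setA 10 p 0 (m.a 10 p 0 + 1))
  have e3 : ((m.setA 8 i 0 (p + 1)).setA 10 p 0 (m.a 10 p 0 + 1)).setA 11
      ((Expr.reg 6).eval ((m.setA 8 i 0 (p + 1)).setA 10 p 0 (m.a 10 p 0 + 1)))
      ((Expr.lit 0).eval ((m.setA 8 i 0 (p + 1)).setA 10 p 0 (m.a 10 p 0 + 1)))
      ((Expr.succ (at0 11 (.reg 6))).eval ((m.setA 8 i 0 (p + 1)).setA 10 p 0
        (m.a 10 p 0 + 1))) =
      ((m.setA 8 i 0 (p + 1)).setA 10 p 0 (m.a 10 p 0 + 1)).setA 11 (I.lec p) 0
        (m.a 11 (I.lec p) 0 + 1) := by simp [Expr.eval, h6, at0]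
  rw [e3] at r3
  refine ⟨_, _, Runs.seq r1 (Runs.seq r2 r3), ?_, ?_, ?_⟩
  · simp [Expr.cost, at0]
  · rfl
  · exact h.assign hi p

end Runs

end Pool.Agent.H672R2.Spa
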