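import Mathlib
import Pool.Agent.H672R2.SpaDefs
import Pool.Agent.H672R2.SpaInv
import Pool.Agent.H672R2.SpaStep
import Pool.Agent.H672R2.SpaProg
import Pool.Agent.H672R2.SpaRep

set_option autoImplicit false

namespace Pool.Agent.H672R2.Spa

open Pool.Agent.H672R2.Ram Function

variable {I : Inst}

/-- Termination measure. -/
def meas (asg : I.Asg) (ptr : Fin I.n1 → ℕ) : ℕ :=
  ∑ i, (2 * ((I.pref i).length - ptr i) + if asg i = none then 1 else 0)

theorem meas_lt {asg asg' : I.Asg} {ptr ptr' : Fin I.n1 → ℕ} {u : Fin I.n1}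
    (hu : 2 * ((I.pref u).length - ptr' u) + (if asg' u = none then 1 else 0) <
      2 * ((I.pref u).length - ptr u) + (if asg u = none then 1 else 0))
    (hx : ∀ x, x ≠ u → 2 * ((I.pref x).length - ptr' x) + (if asg' x = none then 1 else 0) ≤
      2 * ((I.pref x).length - ptr x) + (if asg x = none then 1 else 0)) :
    meas asg' ptr' < meas asg ptr := by
  unfold meas
  refine Finset.sum_lt_sum (fun x _ => ?_) ⟨u, Finset.mem_univ u, hu⟩
  by_cases h : x = u
  · subst h; exact hu.le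
  · exact hx x h

theorem meas_init : meas (I := I) (fun _ => none) (fun _ => 0) ≤ 2 * I.size := by
  unfold meas Inst.size
  simp only [if_true, Nat.sub_zero, Finset.sum_add_distrib, ← Finset.mul_sum]
  simp
  omega

theorem rank_le (k : Fin I.n3) : (I.rank k).length ≤ I.size := by
  have := Finset.single_le_sum (f := fun k => (I.rank k).length) (fun _ _ => Nat.zero_le _)
    (Finset.mem_univ k)
  unfold Inst.size
  omega

section

variable {asg : I.Asg} {ptr : Fin I.n1 → ℕ} {exc : Fin I.n3 → ℕ} {m : Mem}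

theorem meas_reject {i : Fin I.n1} {p : Fin I.n2} (hp : Prop1 I asg ptr i p) {u : Fin I.n1}
    {q : Fin I.n2} (hat : AtPtr (update asg i (some p)) ptr) (hu : update asg i (some p) u = some q) :
    meas (update (update asg i (some p)) u none) (update ptr u (ptr u + 1)) < meas asg ptr := by
  obtain ⟨h1, h2⟩ := hat u q hu
  have h3 := List.idxOf_lt_length_iff.mpr h1
  refine meas_lt (u := u) ?_ ?_
  · rw [update_self, update_self]
    simp only [if_true]
    split_ifs <;> omega
  · intro x hx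
    rw [update_of_ne hx, update_of_ne hx]
    by_cases hxi : x = i
    · subst hxi
      rw [update_self]
      simp
    · rw [update_of_ne hxi]

/-- What one round of the algorithm achieves if it does not stop. -/
def Progress (I : Inst) (asg : I.Asg) (ptr : Fin I.n1 → ℕ) (m' : Mem) : Prop :=
  m'.v 3 = 0 ∧ ∃ (asg' : I.Asg) (ptr' : Fin I.n1 → ℕ) (exc' : Fin I.n3 → ℕ),
    Rep I asg' ptr' exc' m' ∧ Inv I asg' ptr' exc' ∧ meas asg' ptr' < meas asg ptr

theorem stud_of_sc (hR : Rep I asg ptr exc m) {k : Fin I.n3} (h6 : m.v 6 = k) {u : Fin I.n1}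
    (hu : u ∈ I.rank k) : stud.eval (m.setV 7 (sc I k u)) = (u : ℕ) := by
  have h1 := eval_stud (hR.setV (x := 7) (by norm_num) (sc I k u)) (k := k) (by simpa using h6)
    (j := sc I k u) (by simp) (sc_lt hu)
  rw [atRev_sc hu] at h1
  exact h1

theorem propose_runs (hR : Rep I asg ptr exc m) (hI : Inv I asg ptr exc) (h3 : m.v 3 = 0)
    {i : Fin I.n1} (h4 : m.v 4 = i) (hfree : asg i = none) (hlt : ptr i < (I.pref i).length) :
    ∃ m' c, Runs propose m m' c ∧ c ≤ 1000 * (I.size + 1) ∧ Progress I asg ptr m' := by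
  set p := (I.pref i)[ptr i] with hpdef
  have hp : Prop1 I asg ptr i p :=
    ⟨hfree, List.getElem_mem _, (I.pref_nodup i).idxOf_getElem _ _⟩
  have hir : i ∈ I.rank (I.lec p) := (I.mem_rank _ _).mpr ⟨p, hp.mem, rfl⟩
  have r1 := Runs.assign 5 (.get 1 (.reg 4) (at0 9 (.reg 4))) m
  have e1 : (Expr.get 1 (.reg 4) (at0 9 (.reg 4))).eval m = (p : ℕ) := by
    simp only [at0, Expr.eval, h4, hR.fptr]
    exact hR.sp i (ptr i) hlt
  rw [e1] at r1
  have hR1 := hR.setV (x := 5) (by norm_num) (p : ℕ)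
  have r2 := Runs.assign 6 (at0 2 (.reg 5)) (m.setV 5 p)
  have e2 : (at0 2 (.reg 5)).eval (m.setV 5 p) = (I.lec p : ℕ) := by
    simp [at0, Expr.eval, hR.lec]
  rw [e2] at r2
  have hR2 := hR1.setV (x := 6) (by norm_num) (I.lec p : ℕ)
  set m2 := (m.setV 5 p).setV 6 (I.lec p) with hm2
  have h2v3 : m2.v 3 = 0 := by simp [hm2, h3]
  have h2v4 : m2.v 4 = i := by simp [hm2, h4]
  have h2v5 : m2.v 5 = p := by simp [hm2]
  have h2v6 : m2.v 6 = (I.lec p : ℕ) := by simp [hm2]
  obtain ⟨c3, r3, hc3⟩ := findPos_runs hR2 h2v6 h2v4 hir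
  have hR3 := hR2.setV (x := 7) (by norm_num) (sc I (I.lec p) i)
  set m3 := m2.setV 7 (sc I (I.lec p) i) with hm3
  have h3v3 : m3.v 3 = 0 := by simp [hm3, h2v3]
  have h3v4 : m3.v 4 = i := by simp [hm3, h2v4]
  have h3v5 : m3.v 5 = p := by simp [hm3, h2v5]
  have h3v6 : m3.v 6 = (I.lec p : ℕ) := by simp [hm3, h2v6]
  have h3v7 : m3.v 7 = sc I (I.lec p) i := by simp [hm3]
  have hsz := rank_le (I := I) (I.lec p)
  have hscI := sc_lt hir
  have hc3' : c3 ≤ 100 * (I.size + 1) := by
    refine le_trans hc3 (Nat.mul_le_mul ?_ (by omega))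
    simp [tPos, Test.cost, Expr.cost, stud, at0]
  have ht : (Test.lt (.reg 7) (at0 12 (.reg 6))).holds m3 ↔
      sc I (I.lec p) i < exc (I.lec p) := by
    simp only [Test.holds, at0, Expr.eval, h3v7, h3v6, hR3.fexc]
  have htc : (Test.lt (.reg 7) (at0 12 (.reg 6))).cost ≤ 100 := by
    simp [Test.cost, Expr.cost, at0]
  have hk1 : (Expr.get 1 (.reg 4) (at0 9 (.reg 4))).cost + 1 ≤ 100 := by
    simp [Expr.cost, at0]
  have hk2 : (at0 2 (.reg 5)).cost + 1 ≤ 100 := by simp [Expr.cost, at0]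
  by_cases hex : sc I (I.lec p) i < exc (I.lec p)
  · -- excluded
    have r4 := Runs.store 9 (.reg 4) (.lit 0) (.succ (at0 9 (.reg 4))) m3
    have e4 : m3.setA 9 ((Expr.reg 4).eval m3) ((Expr.lit 0).eval m3)
        ((Expr.succ (at0 9 (.reg 4))).eval m3) = m3.setA 9 i 0 (ptr i + 1) := by
      simp only [at0, Expr.eval, h3v4, hR3.fptr]
    rw [e4] at r4
    refine ⟨_, _, Runs.seq r1 (Runs.seq r2 (Runs.seq r3
      (Runs.ite_true (ht.mpr hex) r4))), ?_, ?_⟩
    · have hk4 : (Expr.reg 4).cost + (Expr.lit 0).cost + (Expr.succ (at0 9 (.reg 4))).cost + 1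
          ≤ 100 := by simp [Expr.cost, at0]
      omega
    · refine ⟨h3v3, asg, update ptr i (ptr i + 1), exc, hR3.setPtr i _,
        inv_exclude hI hp hex, ?_⟩
      refine meas_lt (u := i) ?_ ?_
      · rw [update_self]; omega
      · intro x hx; rw [update_of_ne hx]
  · have hex' : exc (I.lec p) ≤ sc I (I.lec p) i := not_lt.mp hex
    obtain ⟨m4, c4, r4, hc4, hv4, hR4⟩ := assignP_runs hR3 h3v4 h3v5 h3v6 hfree
    have hat := atPtr_set hI hp
    have h4v3 : m4.v 3 = 0 := by rw [hv4]; exact h3v3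
    have h4v5 : m4.v 5 = p := by rw [hv4]; exact h3v5
    have h4v6 : m4.v 6 = (I.lec p : ℕ) := by rw [hv4]; exact h3v6
    have ht5 : (Test.lt (at0 5 (.reg 5)) (at0 10 (.reg 5))).holds m4 ↔
        I.cap p < (I.atP (update asg i (some p)) p).card := by
      simp only [Test.holds, at0, Expr.eval, h4v5, hR4.cap, hR4.cp]
    have ht5c : (Test.lt (at0 5 (.reg 5)) (at0 10 (.reg 5))).cost ≤ 100 := by
      simp [Test.cost, Expr.cost, at0]
    by_cases hover : I.cap p < (I.atP (update asg i (some p)) p).card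
    · -- the project is oversubscribed
      obtain ⟨u, hu, hmin⟩ := Finset.exists_min_image (I.atP (update asg i (some p)) p)
        (fun x => sc I (I.lec p) x) ⟨i, mem_atP.mpr (update_self _ _ _)⟩
      have hu' := mem_atP.mp hu
      have hur : u ∈ I.rank (I.lec p) := (I.mem_rank _ _).mpr ⟨p, (hat u p hu').1, rfl⟩
      obtain ⟨c5, r5, hc5⟩ := findWorstP_runs hR4 h4v6 h4v5 hu' hur hmin
      have hR5 := hR4.setV (x := 7) (by norm_num) (sc I (I.lec p) u)
      obtain ⟨m6, c6, r6, hc6, hv6, hR6⟩ := remove_runs hR5 (k := I.lec p) (by simpa using h4v6)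
        (stud_of_sc hR4 h4v6 hur) hu' rfl
      have hscu := sc_lt hur
      have hc5' : c5 ≤ 100 * (I.size + 1) := by
        refine le_trans hc5 (Nat.mul_le_mul ?_ (by omega))
        simp [tWorstP, Test.cost, Expr.cost, stud, at0]
      refine ⟨m6, _, Runs.seq r1 (Runs.seq r2 (Runs.seq r3
        (Runs.ite_false (fun h => hex (ht.mp h)) (Runs.seq r4
          (Runs.ite_true (ht5.mpr hover) (Runs.seq r5 r6)))))), ?_, ?_⟩
      · omega
      · refine ⟨?_, _, _, _, hR6, inv_rejP hI hp hex' hover hu' hmin, meas_reject hp hat hu'⟩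
        rw [hv6]
        simpa using h4v3
    · have ht6 : (Test.lt (at0 7 (.reg 6)) (at0 11 (.reg 6))).holds m4 ↔
          I.dcap (I.lec p) < (I.atL (update asg i (some p)) (I.lec p)).card := by
        simp only [Test.holds, at0, Expr.eval, h4v6, hR4.dcap, hR4.cl]
      have ht6c : (Test.lt (at0 7 (.reg 6)) (at0 11 (.reg 6))).cost ≤ 100 := by
        simp [Test.cost, Expr.cost, at0]
      by_cases hoverL : I.dcap (I.lec p) < (I.atL (update asg i (some p)) (I.lec p)).card
      · -- the lecturer is oversubscribed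
        obtain ⟨u, hu, hmin⟩ := Finset.exists_min_image
          (I.atL (update asg i (some p)) (I.lec p)) (fun x => sc I (I.lec p) x)
          ⟨i, mem_atL.mpr ⟨p, update_self _ _ _, rfl⟩⟩
        obtain ⟨q, hu', hq⟩ := mem_atL.mp hu
        have hur : u ∈ I.rank (I.lec p) := (I.mem_rank _ _).mpr ⟨q, (hat u q hu').1, hq⟩
        obtain ⟨c5, r5, hc5⟩ := findWorstL_runs hR4 h4v6 hu' hq hur hmin
        have hR5 := hR4.setV (x := 7) (by norm_num) (sc I (I.lec p) u)
        obtain ⟨m6, c6, r6, hc6, hv6, hR6⟩ := remove_runs hR5 (k := I.lec p)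
          (by simpa using h4v6) (stud_of_sc hR4 h4v6 hur) hu' hq
        have hscu := sc_lt hur
        have hc5' : c5 ≤ 100 * (I.size + 1) := by
          refine le_trans hc5 (Nat.mul_le_mul ?_ (by omega))
          simp [tWorstL, Test.cost, Expr.cost, stud, at0]
        refine ⟨m6, _, Runs.seq r1 (Runs.seq r2 (Runs.seq r3
          (Runs.ite_false (fun h => hex (ht.mp h)) (Runs.seq r4
            (Runs.ite_false (fun h => hover (ht5.mp h))
              (Runs.ite_true (ht6.mpr hoverL) (Runs.seq r5 r6))))))), ?_, ?_⟩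
        · omega
        · refine ⟨?_, _, _, _, hR6, inv_rejL hI hp hex' (not_lt.mp hover) hoverL hu' hq hmin,
            meas_reject hp hat hu'⟩
          rw [hv6]
          simpa using h4v3
      · -- accepted
        refine ⟨m4, _, Runs.seq r1 (Runs.seq r2 (Runs.seq r3
          (Runs.ite_false (fun h => hex (ht.mp h)) (Runs.seq r4
            (Runs.ite_false (fun h => hover (ht5.mp h))
              (Runs.ite_false (fun h => hoverL (ht6.mp h)) (Runs.skip m4))))))), ?_, ?_⟩
        · omega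
        · have hc : (I.atP asg p).card < I.cap p := by
            rw [atP_set hfree, if_pos rfl,
              Finset.card_insert_of_notMem (not_mem_atP hfree _)] at hover
            omega
          have hd : (I.atL asg (I.lec p)).card < I.dcap (I.lec p) := by
            rw [atL_set hfree, if_pos rfl,
              Finset.card_insert_of_notMem (not_mem_atL hfree _)] at hoverL
            omega
          refine ⟨h4v3, _, _, _, hR4, inv_accept hI hp hex' hc hd, ?_⟩
          refine meas_lt (u := i) ?_ ?_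
          · rw [update_self, hfree]
            simp
          · intro x hx
            rw [update_of_ne hx]

/-- What a round achieves if it stops. -/
def Stopped (I : Inst) (m' : Mem) : Prop :=
  (m'.v 3 = 1 ∧ ¬ ∃ M, I.Good M) ∨
    (m'.v 3 = 2 ∧ ∃ M, I.Good M ∧ ∀ i : Fin I.n1, m'.a 8 i 0 = code (M i))

theorem forceP_runs (hR : Rep I asg ptr exc m) (hI : Inv I asg ptr exc) (h3 : m.v 3 = 0)
    (hf : NoFree asg ptr) {j : Fin I.n2} (h9 : m.v 9 = j)
    (hlow : (I.atP asg j).card < I.low j) :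
    ∃ m' c, Runs forceP m m' c ∧ c ≤ 1000 * (I.size + 1) ∧
      (Progress I asg ptr m' ∨ Stopped I m') := by
  have r1 := Runs.assign 6 (at0 2 (.reg 9)) m
  have e1 : (at0 2 (.reg 9)).eval m = (I.lec j : ℕ) := by
    simp [at0, Expr.eval, h9, hR.lec]
  rw [e1] at r1
  have hR1 := hR.setV (x := 6) (by norm_num) (I.lec j : ℕ)
  set m1 := m.setV 6 (I.lec j) with hm1
  have h1v3 : m1.v 3 = 0 := by simp [hm1, h3]
  have h1v6 : m1.v 6 = (I.lec j : ℕ) := by simp [hm1]
  have ht1 : (Test.lt (at0 11 (.reg 6)) (at0 7 (.reg 6))).holds m1 ↔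
      (I.atL asg (I.lec j)).card < I.dcap (I.lec j) := by
    simp only [Test.holds, at0, Expr.eval, h1v6, hR1.dcap, hR1.cl]
  have ht1c : (Test.lt (at0 11 (.reg 6)) (at0 7 (.reg 6))).cost ≤ 100 := by
    simp [Test.cost, Expr.cost, at0]
  have ht2 : (Test.eq (at0 11 (.reg 6)) (.lit 0)).holds m1 ↔
      (I.atL asg (I.lec j)).card = 0 := by
    simp only [Test.holds, at0, Expr.eval, h1v6, hR1.cl]
  have ht2c : (Test.eq (at0 11 (.reg 6)) (.lit 0)).cost ≤ 100 := by
    simp [Test.cost, Expr.cost, at0]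
  have hk1 : (at0 2 (.reg 9)).cost + 1 ≤ 100 := by simp [Expr.cost, at0]
  have hk3 : (Expr.lit 1).cost + 1 ≤ 100 := by simp [Expr.cost]
  have rf := Runs.assign 3 (.lit 1) m1
  by_cases hlt : (I.atL asg (I.lec j)).card < I.dcap (I.lec j)
  · refine ⟨_, _, Runs.seq r1 (Runs.ite_true (ht1.mpr hlt) rf), by omega, Or.inr (Or.inl ?_)⟩
    exact ⟨by simp [Expr.eval], fail_low hI hf hlow (Or.inl hlt)⟩
  · by_cases hz : (I.atL asg (I.lec j)).card = 0
    · refine ⟨_, _, Runs.seq r1 (Runs.ite_false (fun h => hlt (ht1.mp h))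
        (Runs.ite_true (ht2.mpr hz) rf)), by omega, Or.inr (Or.inl ?_)⟩
      exact ⟨by simp [Expr.eval], fail_low hI hf hlow (Or.inr hz)⟩
    · have hfull : (I.atL asg (I.lec j)).card = I.dcap (I.lec j) :=
        le_antisymm (hI.matching.dcap _) (not_lt.mp hlt)
      obtain ⟨u, hu, hmin⟩ := Finset.exists_min_image (I.atL asg (I.lec j))
        (fun x => sc I (I.lec j) x) (Finset.card_pos.mp (Nat.pos_of_ne_zero hz))
      obtain ⟨q, hu', hq⟩ := mem_atL.mp hu
      have hur : u ∈ I.rank (I.lec j) := mem_rank_atL hI hu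
      obtain ⟨c2, r2, hc2⟩ := findWorstL_runs hR1 h1v6 hu' hq hur hmin
      have hR2 := hR1.setV (x := 7) (by norm_num) (sc I (I.lec j) u)
      set m2 := m1.setV 7 (sc I (I.lec j) u) with hm2
      have h2v3 : m2.v 3 = 0 := by simp [hm2, h1v3]
      have h2v6 : m2.v 6 = (I.lec j : ℕ) := by simp [hm2, h1v6]
      have h2v7 : m2.v 7 = sc I (I.lec j) u := by simp [hm2]
      have r3 := Runs.store 12 (.reg 6) (.lit 0) (.succ (.reg 7)) m2
      have e3 : m2.setA 12 ((Expr.reg 6).eval m2) ((Expr.lit 0).eval m2)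
          ((Expr.succ (.reg 7)).eval m2) =
          m2.setA 12 (I.lec j) 0 (sc I (I.lec j) u + 1) := by
        simp only [Expr.eval, h2v6, h2v7]
      rw [e3] at r3
      have hR3 := hR2.setExc (I.lec j) (sc I (I.lec j) u + 1)
      have hst : stud.eval (m2.setA 12 (I.lec j) 0 (sc I (I.lec j) u + 1)) = (u : ℕ) := by
        have h1 := eval_stud hR3 (k := I.lec j) h2v6 (j := sc I (I.lec j) u) h2v7 (sc_lt hur)
        rw [atRev_sc hur] at h1
        exact h1
      obtain ⟨m4, c4, r4, hc4, hv4, hR4⟩ := remove_runs hR3 (k := I.lec j) h2v6 hst hu' hq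
      have hscu := sc_lt hur
      have hsz := rank_le (I := I) (I.lec j)
      have hc2' : c2 ≤ 100 * (I.size + 1) := by
        refine le_trans hc2 (Nat.mul_le_mul ?_ (by omega))
        simp [tWorstL, Test.cost, Expr.cost, stud, at0]
      have hk4 : (Expr.reg 6).cost + (Expr.lit 0).cost + (Expr.succ (.reg 7)).cost + 1 ≤ 100 := by
        simp [Expr.cost]
      refine ⟨m4, _, Runs.seq r1 (Runs.ite_false (fun h => hlt (ht1.mp h))
        (Runs.ite_false (fun h => hz (ht2.mp h)) (Runs.seq r2 (Runs.seq r3 r4)))), by omega,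
        Or.inl ⟨?_, _, _, _, hR4, inv_force hI hf hfull hlow hu' hq hmin, ?_⟩⟩
      · rw [hv4]; exact h2v3
      · obtain ⟨h5, h6⟩ := hI.atPtr u q hu'
        have h7 := List.idxOf_lt_length_iff.mpr h5
        refine meas_lt (u := u) ?_ ?_
        · rw [update_self, update_self, hu']
          simp
          omega
        · intro x hx
          rw [update_of_ne hx, update_of_ne hx]

/-- Linear search for the first index below `n` with a given property. -/
theorem find_bound (x : ℕ) (t : Test) (m : Mem) (n : ℕ) (P : ℕ → Prop)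
    (ht : ∀ j, j ≤ n → (t.holds (m.setV x j) ↔ j < n ∧ ¬ P j)) :
    ∃ N c, Runs (find x t) m (m.setV x N) c ∧ c ≤ (t.cost + 3) * (n + 1) ∧
      ((N < n ∧ P N) ∨ (N = n ∧ ∀ j < n, ¬ P j)) := by
  classical
  by_cases hex : ∃ j, j < n ∧ P j
  · have hs := Nat.find_spec hex
    obtain ⟨c, hc, hc2⟩ := find_runs x t m (Nat.find hex)
      (fun j hj => (ht j (by omega)).mpr ⟨by omega, fun hP =>
        Nat.find_min hex hj ⟨by omega, hP⟩⟩)
      (fun h => ((ht _ hs.1.le).mp h).2 hs.2)
    exact ⟨_, c, hc, le_trans hc2 (Nat.mul_le_mul_left _ (by omega)), Or.inl hs⟩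
  · push Not at hex
    obtain ⟨c, hc, hc2⟩ := find_runs x t m n
      (fun j hj => (ht j (by omega)).mpr ⟨hj, hex j hj⟩)
      (fun h => absurd ((ht n le_rfl).mp h).1 (lt_irrefl _))
    exact ⟨n, c, hc, hc2, Or.inr ⟨rfl, hex⟩⟩

theorem check_runs (hR : Rep I asg ptr exc m) (hI : Inv I asg ptr exc) (h3 : m.v 3 = 0)
    (hf : NoFree asg ptr) :
    ∃ m' c, Runs check m m' c ∧ c ≤ 2000 * (I.size + 1) ∧
      (Progress I asg ptr m' ∨ Stopped I m') := by
  set t1 : Test := .and (.lt (.reg 9) (.reg 1)) (.not (.lt (at0 10 (.reg 9)) (at0 6 (.reg 9))))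
    with ht1
  set t2 : Test := .and (.lt (.reg 10) (.reg 2))
        (.not (.and (.lt (.lit 0) (at0 12 (.reg 10))) (.lt (at0 11 (.reg 10)) (at0 7 (.reg 10)))))
    with ht2
  have hn2 : I.n2 ≤ I.size := by unfold Inst.size; omega
  have hn3 : I.n3 ≤ I.size := by unfold Inst.size; omega
  obtain ⟨N, c1, r1, hc1, hN⟩ := find_bound 9 t1 m I.n2
    (fun j => ∃ h : j < I.n2, (I.atP asg ⟨j, h⟩).card < I.low ⟨j, h⟩) (by
      intro j _
      have hR' := hR.setV (x := 9) (by norm_num) j
      simp only [ht1, Test.holds, at0, Expr.eval, hR'.n2]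
      simp only [setV_v, if_true]
      refine and_congr_right fun hj => ?_
      have h1 := hR.cp ⟨j, hj⟩
      have h2 := hR.low ⟨j, hj⟩
      simp only at h1 h2
      simp only [setV_a, h1, h2]
      constructor
      · rintro h ⟨_, h'⟩; exact h h'
      · intro h h'; exact h ⟨hj, h'⟩)
  have hR1 := hR.setV (x := 9) (by norm_num) N
  have h1v3 : (m.setV 9 N).v 3 = 0 := by simp [h3]
  have hc1' : c1 ≤ 100 * (I.size + 1) := by
    refine le_trans hc1 (Nat.mul_le_mul ?_ (by omega))
    simp [ht1, Test.cost, Expr.cost, at0]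
  have htest : (Test.lt (.reg 9) (.reg 1)).holds (m.setV 9 N) ↔ N < I.n2 := by
    simp only [Test.holds, Expr.eval, hR1.n2]
    simp
  have htestc : (Test.lt (.reg 9) (.reg 1)).cost ≤ 100 := by simp [Test.cost, Expr.cost]
  rcases hN with ⟨hlt, _, hlow⟩ | ⟨hN, hall⟩
  · obtain ⟨m', c2, r2, hc2, hres⟩ := forceP_runs hR1 hI h1v3 hf (j := ⟨N, hlt⟩) (by simp) hlow
    exact ⟨m', _, Runs.seq r1 (Runs.ite_true (htest.mpr hlt) r2), by omega, hres⟩
  · obtain ⟨K, c2, r2, hc2, hK⟩ := find_bound 10 t2 (m.setV 9 N) I.n3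
      (fun k => ∃ h : k < I.n3, 0 < exc ⟨k, h⟩ ∧ (I.atL asg ⟨k, h⟩).card < I.dcap ⟨k, h⟩) (by
        intro k _
        have hR' := hR1.setV (x := 10) (by norm_num) k
        simp only [ht2, Test.holds, at0, Expr.eval, hR'.n3]
        simp only [setV_v, if_true]
        refine and_congr_right fun hk => ?_
        have h1 := hR.cl ⟨k, hk⟩
        have h2 := hR.dcap ⟨k, hk⟩
        have h3 := hR.fexc ⟨k, hk⟩
        simp only at h1 h2 h3
        simp only [setV_a, h1, h2, h3]
        constructor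
        · rintro h ⟨_, h'⟩; exact h h'
        · intro h h'; exact h ⟨hk, h'⟩)
    have hR2 := hR1.setV (x := 10) (by norm_num) K
    have hc2' : c2 ≤ 100 * (I.size + 1) := by
      refine le_trans hc2 (Nat.mul_le_mul ?_ (by omega))
      simp [ht2, Test.cost, Expr.cost, at0]
    have htest2 : (Test.lt (.reg 10) (.reg 2)).holds ((m.setV 9 N).setV 10 K) ↔ K < I.n3 := by
      simp only [Test.holds, Expr.eval, hR2.n3]
      simp
    have htest2c : (Test.lt (.reg 10) (.reg 2)).cost ≤ 100 := by simp [Test.cost, Expr.cost]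
    have hk3 : (Expr.lit 1).cost + 1 ≤ 100 := by simp [Expr.cost]
    have hk4 : (Expr.lit 2).cost + 1 ≤ 100 := by simp [Expr.cost]
    have hnN : ¬ N < I.n2 := by omega
    rcases hK with ⟨hlt, _, he, hd⟩ | ⟨hK, hallK⟩
    · refine ⟨_, _, Runs.seq r1 (Runs.ite_false (fun h => hnN (htest.mp h))
        (Runs.seq r2 (Runs.ite_true (htest2.mpr hlt) (Runs.assign 3 (.lit 1) _)))), by omega,
        Or.inr (Or.inl ⟨by simp [Expr.eval], fail_exc hI hf he hd⟩)⟩
    · refine ⟨_, _, Runs.seq r1 (Runs.ite_false (fun h => hnN (htest.mp h))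
        (Runs.seq r2 (Runs.ite_false (fun h => by
          have := htest2.mp h
          omega) (Runs.assign 3 (.lit 2) _)))), by omega,
        Or.inr (Or.inr ⟨by simp [Expr.eval], asg, success hI hf ?_ ?_, ?_⟩)⟩
      · intro j
        have := hall j j.2
        by_contra hc
        exact this ⟨j.2, not_le.mp hc⟩
      · intro k
        have := hallK k k.2
        by_contra hc
        push Not at hc
        exact this ⟨k.2, Nat.pos_of_ne_zero hc.1, hc.2⟩
      · intro i
        exact hR.fasg i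

theorem body_runs (hR : Rep I asg ptr exc m) (hI : Inv I asg ptr exc) (h3 : m.v 3 = 0) :
    ∃ m' c, Runs body m m' c ∧ c ≤ 3000 * (I.size + 1) ∧
      (Progress I asg ptr m' ∨ Stopped I m') := by
  have hn1 : I.n1 ≤ I.size := by unfold Inst.size; omega
  set t1 : Test := .and (.lt (.reg 4) (.reg 0)) busy with ht1
  obtain ⟨N, c1, r1, hc1, hN⟩ := find_bound 4 t1 m I.n1
    (fun j => ∃ h : j < I.n1, asg ⟨j, h⟩ = none ∧ ptr ⟨j, h⟩ < (I.pref ⟨j, h⟩).length) (by
      intro j _
      have hR' := hR.setV (x := 4) (by norm_num) j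
      simp only [ht1, busy, Test.holds, at0, Expr.eval, hR'.n1]
      simp only [setV_v, if_true]
      refine and_congr_right fun hj => ?_
      have h1 := hR.fasg ⟨j, hj⟩
      have h2 := hR.fptr ⟨j, hj⟩
      have h3 := hR.slen ⟨j, hj⟩
      simp only at h1 h2 h3
      simp only [setV_a, h1, h2, h3]
      have h4 : code (asg ⟨j, hj⟩) = 0 ↔ asg ⟨j, hj⟩ = none := by
        cases asg ⟨j, hj⟩ <;> simp [code]
      rw [h4]
      constructor
      · rintro h ⟨_, h'⟩; exact h h'
      · intro h h'; exact h ⟨hj, h'⟩)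
  have hR1 := hR.setV (x := 4) (by norm_num) N
  have h1v3 : (m.setV 4 N).v 3 = 0 := by simp [h3]
  have hc1' : c1 ≤ 100 * (I.size + 1) := by
    refine le_trans hc1 (Nat.mul_le_mul ?_ (by omega))
    simp [ht1, busy, Test.cost, Expr.cost, at0]
  have htest : (Test.lt (.reg 4) (.reg 0)).holds (m.setV 4 N) ↔ N < I.n1 := by
    simp only [Test.holds, Expr.eval, hR1.n1]
    simp
  have htestc : (Test.lt (.reg 4) (.reg 0)).cost ≤ 100 := by simp [Test.cost, Expr.cost]
  rcases hN with ⟨hlt, _, hfree, hptr⟩ | ⟨hN, hall⟩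
  · obtain ⟨m', c2, r2, hc2, hres⟩ := propose_runs hR1 hI h1v3 (i := ⟨N, hlt⟩) (by simp)
      hfree hptr
    exact ⟨m', _, Runs.seq r1 (Runs.ite_true (htest.mpr hlt) r2), by omega, Or.inl hres⟩
  · have hf : NoFree asg ptr := by
      intro i hi
      by_contra hc
      exact hall i i.2 ⟨i.2, hi, not_le.mp hc⟩
    obtain ⟨m', c2, r2, hc2, hres⟩ := check_runs hR1 hI h1v3 hf
    refine ⟨m', _, Runs.seq r1 (Runs.ite_false (fun h => ?_) r2), by omega, hres⟩
    have := htest.mp h
    omega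

end

theorem algo_runs (n : ℕ) : ∀ (asg : I.Asg) (ptr : Fin I.n1 → ℕ) (exc : Fin I.n3 → ℕ) (m : Mem),
    Rep I asg ptr exc m → Inv I asg ptr exc → m.v 3 = 0 → meas asg ptr ≤ n →
    ∃ m' c, Runs algo m m' c ∧ c ≤ (n + 1) * (4000 * (I.size + 1)) + 10 ∧ Stopped I m' := by
  have htc : (Test.eq (.reg 3) (.lit 0)).cost ≤ 10 := by simp [Test.cost, Expr.cost]
  have hstop : ∀ m' : Mem, Stopped I m' →
      Runs algo m' m' (Test.eq (.reg 3) (.lit 0)).cost := by
    intro m' h
    refine Runs.loop_done ?_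
    simp only [Test.holds, Expr.eval]
    rcases h with ⟨h, _⟩ | ⟨h, _⟩ <;> rw [h] <;> norm_num
  induction n with
  | zero =>
    intro asg ptr exc m hR hI h3 hm
    obtain ⟨m', c, r, hc, hres⟩ := body_runs hR hI h3
    rcases hres with ⟨_, asg', ptr', exc', _, _, hlt⟩ | hs
    · omega
    · have ht : (Test.eq (.reg 3) (.lit 0)).holds m := by simpa [Test.holds, Expr.eval] using h3
      refine ⟨m', _, Runs.loop_step ht r (hstop m' hs), ?_, hs⟩
      omega
  | succ n ih =>
    intro asg ptr exc m hR hI h3 hm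
    obtain ⟨m', c, r, hc, hres⟩ := body_runs hR hI h3
    have ht : (Test.eq (.reg 3) (.lit 0)).holds m := by simpa [Test.holds, Expr.eval] using h3
    rcases hres with ⟨h3', asg', ptr', exc', hR', hI', hlt⟩ | hs
    · obtain ⟨m'', c', r', hc', hs'⟩ := ih asg' ptr' exc' m' hR' hI' h3' (by omega)
      refine ⟨m'', _, Runs.loop_step ht r r', ?_, hs'⟩
      have : (n + 1 + 1) * (4000 * (I.size + 1)) = (n + 1) * (4000 * (I.size + 1)) +
          4000 * (I.size + 1) := by ring
      omega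
    · refine ⟨m', _, Runs.loop_step ht r (hstop m' hs), ?_, hs⟩
      have : (n + 1 + 1) * (4000 * (I.size + 1)) = (n + 1) * (4000 * (I.size + 1)) +
          4000 * (I.size + 1) := by ring
      omega

/-- The algorithm solves every instance in quadratic time. -/
theorem algo_correct (I : Inst) : ∃ m' c, Runs algo (encode I) m' c ∧
    c ≤ 8010 * (I.size + 1) ^ 2 ∧ Stopped I m' := by
  obtain ⟨m', c, r, hc, hs⟩ := algo_runs (I := I) (2 * I.size) (fun _ => none) (fun _ => 0)
    (fun _ => 0) (encode I) (rep_encode I) inv_init rfl meas_init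
  refine ⟨m', c, r, le_trans hc ?_, hs⟩
  nlinarith

end Pool.Agent.H672R2.Spa
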